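import Pool.Agent.Helper123.SM.Pre

set_option autoImplicit false
set_option maxHeartbeats 4000000

/-! # Finite sets of linear forms without prime values: assembly

Adapted from `Pool/Agent/H361R2/PA/AsmM.lean` (team of helper361): there the forms are
`α n + a` with one `α`; here `α` may vary with the form. -/

namespace Pool.Agent.Helper123.SM

open Finset Filter Pool.Agent.H256R2.SC Pool.Agent.H256R2.SC.LG Pool.Agent.H361R2.PA

open scoped Classical

/-- the reduced form of `α n + a` -/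
theorem reduce (x : ℕ × ℤ) (hx : 1 ≤ x.1) : ∃ g : ℕ, 1 ≤ g ∧
    (x.1 : ℤ) = g * ((((x.2 : ℚ) / x.1).den : ℕ) : ℤ) ∧ x.2 = g * ((x.2 : ℚ) / x.1).num := by
  have hx0 : (x.1 : ℤ) ≠ 0 := by exact_mod_cast (by omega : x.1 ≠ 0)
  obtain ⟨c, h1, h2⟩ := Rat.num_den_mk (q := (x.2 : ℚ) / x.1) (n := x.2) (d := (x.1 : ℤ)) hx0
    (by rw [Rat.divInt_eq_div]; push_cast; rfl)
  have hc : 0 < c := by
    have h3 : (0 : ℤ) < (((x.2 : ℚ) / x.1).den : ℤ) := by
      exact_mod_cast ((x.2 : ℚ) / x.1).den_pos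
    have h4 : (0 : ℤ) < (x.1 : ℤ) := by exact_mod_cast (by omega : 0 < x.1)
    by_contra hcon
    push Not at hcon
    have h5 : c * (((x.2 : ℚ) / x.1).den : ℤ) ≤ 0 := mul_nonpos_of_nonpos_of_nonneg hcon h3.le
    linarith
  refine ⟨c.toNat, by omega, ?_, ?_⟩
  · rw [Int.toNat_of_nonneg hc.le]; exact h2
  · rw [Int.toNat_of_nonneg hc.le]; exact h1

theorem reduce_den_le (x : ℕ × ℤ) (hx : 1 ≤ x.1) : ((x.2 : ℚ) / x.1).den ≤ x.1 := by
  obtain ⟨g, hg, h1, _⟩ := reduce x hx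
  have h2 : x.1 = g * ((x.2 : ℚ) / x.1).den := by exact_mod_cast h1
  calc ((x.2 : ℚ) / x.1).den = 1 * ((x.2 : ℚ) / x.1).den := (one_mul _).symm
    _ ≤ g * ((x.2 : ℚ) / x.1).den := Nat.mul_le_mul_right _ hg
    _ = x.1 := h2.symm

theorem reduce_num_le (x : ℕ × ℤ) (hx : 1 ≤ x.1) :
    |((((x.2 : ℚ) / x.1).num : ℤ) : ℝ)| ≤ |(x.2 : ℝ)| := by
  obtain ⟨g, hg, _, h2⟩ := reduce x hx
  have h3 : (x.2 : ℝ) = g * (((x.2 : ℚ) / x.1).num : ℝ) := by exact_mod_cast h2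
  have hg1 : (1 : ℝ) ≤ g := by exact_mod_cast hg
  rw [h3, abs_mul, abs_of_nonneg (by linarith : (0 : ℝ) ≤ g)]
  nlinarith [abs_nonneg ((((x.2 : ℚ) / x.1).num : ℤ) : ℝ)]

theorem assembleS (D : ℕ) : ∃ c : ℝ, 0 < c ∧ ∃ X₀ : ℝ, ∀ X : ℝ, X₀ ≤ X →
    ∀ A : Finset (ℕ × ℤ), (A.card : ℝ) ≤ (Real.log X) ^ 2 →
    (∀ x ∈ A, 1 ≤ x.1 ∧ Real.log x.1 ≤ (Real.log X) ^ D ∧
      |(x.2 : ℝ)| ≤ Real.exp ((Real.log X) ^ D)) →
    ∀ b : ℕ → ℕ,
    (((A.filter (fun x => ∀ p : ℕ, p.Prime → (p : ℝ) ≤ Real.log X / 10 →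
      ¬ (p : ℤ) ∣ (x.1 : ℤ) * (b p : ℤ) + x.2)).card : ℕ) : ℝ) ≤ c * Real.log X →
    ∀ z : ℤ, ∃ n : ℤ, (z : ℝ) + X / 4 < n ∧ (n : ℝ) ≤ z + X ∧
      (∀ p : ℕ, p.Prime → (p : ℝ) ≤ Real.log X / 10 → (p : ℤ) ∣ n - b p) ∧
      ∀ x ∈ A, ¬ Prime ((x.1 : ℤ) * n + x.2) := by
  obtain ⟨c, hc, X₁, hcov⟩ := coveringD (D + 3) (by omega)
  obtain ⟨X₂, hnum⟩ := num_ev D
  refine ⟨min c 1, lt_min hc one_pos, max X₁ X₂, ?_⟩
  intro X hX A hA hAbd b hS z
  have hX1 : X₁ ≤ X := (le_max_left _ _).trans hX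
  obtain ⟨n1, n2, n3, n4, n5, n6⟩ := hnum X ((le_max_right _ _).trans hX)
  set L := Real.log X with hL
  set y := L / 10 with hy
  have hy0 : 0 ≤ y := by rw [hy]; linarith
  set P : ℕ := primorial ⌊y⌋₊ with hPdef
  have hPpos : 0 < P := primorial_pos _
  have hPr : (0 : ℝ) < P := by exact_mod_cast hPpos
  have hP1 : (1 : ℝ) ≤ P := by exact_mod_cast hPpos
  obtain ⟨b0, hb0, hb0'⟩ := exists_crt ⌊y⌋₊ b
  have hfloor : ∀ p : ℕ, p ≤ ⌊y⌋₊ ↔ (p : ℝ) ≤ y := fun p => Nat.le_floor_iff hy0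
  have hLD : L ≤ L ^ (D + 3) := by
    calc L = L ^ 1 := (pow_one L).symm
      _ ≤ L ^ (D + 3) := pow_le_pow_right₀ (by linarith) (by omega)
  have hdvdP : ∀ p : ℕ, p.Prime → (p : ℝ) ≤ y → p ∣ P := fun p hp hpy =>
    (hp.dvd_primorial_iff).2 ((hfloor p).2 hpy)
  have hndvdP : ∀ p : ℕ, p.Prime → L ^ (D + 3) < p → ¬ p ∣ P := by
    intro p hp hpX h
    have := (hfloor p).1 ((hp.dvd_primorial_iff).1 h)
    rw [hy] at this
    linarith
  have hinv : ∀ d p : ℕ, ∃ i : ℤ, p.Prime → ¬ p ∣ d * P →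
      (p : ℤ) ∣ ((d * P : ℕ) : ℤ) * i - 1 := by
    intro d p
    by_cases h : p.Prime ∧ ¬ p ∣ d * P
    · obtain ⟨i, hi⟩ := inv_exists h.1 h.2
      exact ⟨i, fun _ _ => hi⟩
    · exact ⟨0, fun h1 h2 => absurd ⟨h1, h2⟩ h⟩
  choose ip hip using hinv
  set S : Finset (ℕ × ℤ) := A.filter (fun x => ∀ p : ℕ, p.Prime → (p : ℝ) ≤ y →
      ¬ (p : ℤ) ∣ (x.1 : ℤ) * (b p : ℤ) + x.2) with hSdef
  -- the reduced forms
  set Q : Finset ℚ := S.image (fun x => (x.2 : ℚ) / x.1) with hQdef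
  have hQden : ∀ k ∈ Q, Real.log (k.den : ℝ) ≤ L ^ D := by
    intro k hk
    rw [hQdef, mem_image] at hk
    obtain ⟨x, hx, rfl⟩ := hk
    obtain ⟨h1, h2, _⟩ := hAbd x (mem_filter.1 hx).1
    refine le_trans (Real.log_le_log ?_ ?_) h2
    · exact_mod_cast ((x.2 : ℚ) / x.1).den_pos
    · exact_mod_cast reduce_den_le x h1
  have hQden' : ∀ k ∈ Q, (k.den : ℝ) ≤ Real.exp (L ^ D) := by
    intro k hk
    have h1 : (0 : ℝ) < (k.den : ℝ) := by exact_mod_cast k.den_pos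
    rw [← Real.log_le_iff_le_exp h1]
    exact hQden k hk
  have hQnum : ∀ k ∈ Q, |((k.num : ℤ) : ℝ)| ≤ Real.exp (L ^ D) := by
    intro k hk
    rw [hQdef, mem_image] at hk
    obtain ⟨x, hx, rfl⟩ := hk
    obtain ⟨h1, _, h3⟩ := hAbd x (mem_filter.1 hx).1
    exact (reduce_num_le x h1).trans h3
  set T : ℝ := X ^ (1 / 100 : ℝ) with hT
  have hT0 : 0 ≤ T := Real.rpow_nonneg (by linarith) _
  -- the exceptional primes
  set B0 : Finset ℕ := (Q ×ˢ Q).biUnion (fun x =>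
    ((x.1.num * x.2.den - x.2.num * x.1.den).natAbs.primeFactors).filter
      (fun p : ℕ => L ^ (D + 3) < p)) with hB0
  set B1 : Finset ℕ := Q.biUnion (fun k =>
    (k.den.primeFactors).filter (fun p : ℕ => L ^ (D + 3) < p)) with hB1
  set B : Finset ℕ := B0 ∪ B1 with hB
  have hcS1 : (S.card : ℝ) ≤ L := by
    refine hS.trans ?_
    have : min c 1 ≤ 1 := min_le_right _ _
    nlinarith
  have hQS : (Q.card : ℝ) ≤ S.card := by exact_mod_cast card_image_le
  have hcQ1 : (Q.card : ℝ) ≤ L := hQS.trans hcS1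
  have hlog1 : 1 ≤ Real.log (L ^ (D + 3)) := by
    have h3 : Real.exp 1 ≤ L ^ (D + 3) := by
      have := Real.exp_one_lt_d9
      linarith
    calc (1:ℝ) = Real.log (Real.exp 1) := (Real.log_exp 1).symm
      _ ≤ _ := Real.log_le_log (Real.exp_pos 1) h3
  have ht1 : (1:ℝ) ≤ L ^ (D + 3) := one_le_pow₀ (by linarith)
  have hBcard : 2 * (B.card : ℝ) ≤ L ^ (D + 3) := by
    have hone : ∀ x ∈ Q ×ˢ Q, ((((x.1.num * x.2.den - x.2.num * x.1.den).natAbs.primeFactors).filter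
        (fun p : ℕ => L ^ (D + 3) < p)).card : ℝ) ≤ 2 * L ^ D + 1 := by
      intro x hx
      rw [mem_product] at hx
      by_cases h0 : (x.1.num * x.2.den - x.2.num * x.1.den).natAbs = 0
      · rw [h0]
        simp only [Nat.primeFactors_zero, filter_empty, card_empty, Nat.cast_zero]
        positivity
      · have h1 := card_large_factors _ h0 _ ht1
        have h3 : Real.log ((x.1.num * x.2.den - x.2.num * x.1.den).natAbs : ℝ) ≤
            2 * L ^ D + 1 := by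
          have e1 := hQnum _ hx.1
          have e2 := hQnum _ hx.2
          have e1' := hQden' _ hx.1
          have e2' := hQden' _ hx.2
          have e3 : (((x.1.num * x.2.den - x.2.num * x.1.den).natAbs : ℕ) : ℝ) =
              |((x.1.num : ℤ) : ℝ) * x.2.den - ((x.2.num : ℤ) : ℝ) * x.1.den| := by
            rw [Nat.cast_natAbs]
            push_cast
            rfl
          have e7 := Real.exp_pos (L ^ D)
          have e8 : |((x.1.num : ℤ) : ℝ) * x.2.den| ≤ Real.exp (L ^ D) * Real.exp (L ^ D) := by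
            rw [abs_mul, abs_of_nonneg (Nat.cast_nonneg x.2.den : (0:ℝ) ≤ (x.2.den : ℝ))]
            exact mul_le_mul e1 e2' (Nat.cast_nonneg _) e7.le
          have e9 : |((x.2.num : ℤ) : ℝ) * x.1.den| ≤ Real.exp (L ^ D) * Real.exp (L ^ D) := by
            rw [abs_mul, abs_of_nonneg (Nat.cast_nonneg x.1.den : (0:ℝ) ≤ (x.1.den : ℝ))]
            exact mul_le_mul e2 e1' (Nat.cast_nonneg _) e7.le
          have e4 : (((x.1.num * x.2.den - x.2.num * x.1.den).natAbs : ℕ) : ℝ) ≤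
              Real.exp (2 * L ^ D + 1) := by
            have e5 := abs_sub (((x.1.num : ℤ) : ℝ) * x.2.den) (((x.2.num : ℤ) : ℝ) * x.1.den)
            have e6 := Real.exp_one_gt_d9
            have e10 : Real.exp (2 * L ^ D + 1) =
                Real.exp (L ^ D) * Real.exp (L ^ D) * Real.exp 1 := by
              rw [← Real.exp_add, ← Real.exp_add]
              congr 1
              ring
            rw [e3, e10]
            have e11 : 0 < Real.exp (L ^ D) * Real.exp (L ^ D) := by positivity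
            nlinarith
          calc Real.log ((x.1.num * x.2.den - x.2.num * x.1.den).natAbs : ℝ) ≤
                Real.log (Real.exp (2 * L ^ D + 1)) := by
                apply Real.log_le_log _ e4
                exact_mod_cast Nat.pos_of_ne_zero h0
            _ = 2 * L ^ D + 1 := Real.log_exp _
        have h4 : (0:ℝ) ≤ ((((x.1.num * x.2.den - x.2.num * x.1.den).natAbs.primeFactors).filter
          (fun p : ℕ => L ^ (D + 3) < p)).card : ℝ) := Nat.cast_nonneg _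
        nlinarith
    have h1 : (B0.card : ℝ) ≤ ∑ x ∈ Q ×ˢ Q, (2 * L ^ D + 1) := by
      calc (B0.card : ℝ) ≤ ((∑ x ∈ Q ×ˢ Q,
            (((x.1.num * x.2.den - x.2.num * x.1.den).natAbs.primeFactors).filter
            (fun p : ℕ => L ^ (D + 3) < p)).card : ℕ) : ℝ) := by
              exact_mod_cast card_biUnion_le
        _ = ∑ x ∈ Q ×ˢ Q, ((((x.1.num * x.2.den - x.2.num * x.1.den).natAbs.primeFactors).filter
            (fun p : ℕ => L ^ (D + 3) < p)).card : ℝ) := by push_cast; rfl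
        _ ≤ _ := sum_le_sum hone
    rw [sum_const, nsmul_eq_mul, card_product] at h1
    push_cast at h1
    have hcQ0 : (0:ℝ) ≤ Q.card := Nat.cast_nonneg _
    have hLD1 : (1:ℝ) ≤ L ^ D := one_le_pow₀ (by linarith)
    have h2 : (Q.card : ℝ) * Q.card * (2 * L ^ D + 1) ≤ L * L * (3 * L ^ D) := by
      apply mul_le_mul (mul_le_mul hcQ1 hcQ1 hcQ0 (by linarith)) (by linarith) (by positivity)
        (by positivity)
    have h6 : (B1.card : ℝ) ≤ ∑ _k ∈ Q, L ^ D := by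
      calc (B1.card : ℝ) ≤ ((∑ k ∈ Q, ((k.den.primeFactors).filter
            (fun p : ℕ => L ^ (D + 3) < p)).card : ℕ) : ℝ) := by
              exact_mod_cast card_biUnion_le
        _ = ∑ k ∈ Q, (((k.den.primeFactors).filter
            (fun p : ℕ => L ^ (D + 3) < p)).card : ℝ) := by push_cast; rfl
        _ ≤ _ := by
          apply sum_le_sum
          intro k hk
          have h1 := card_large_factors k.den k.den_nz _ ht1
          have h4 : (0:ℝ) ≤ ((k.den.primeFactors.filter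
            (fun p : ℕ => L ^ (D + 3) < p)).card : ℝ) := Nat.cast_nonneg _
          have h5 := hQden k hk
          nlinarith
    rw [sum_const, nsmul_eq_mul] at h6
    have h6' : (Q.card : ℝ) * L ^ D ≤ L * L ^ D := by gcongr
    have h3 : 2 * (L * L * (3 * L ^ D)) + 2 * (L * L ^ D) ≤ L ^ (D + 3) := by
      have : L ^ (D + 3) = L * (L * L * L ^ D) := by ring
      rw [this]
      have h4 : 0 ≤ L * L * L ^ D := by positivity
      have h5 : L * L ^ D ≤ L * L * L ^ D := by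
        have : 0 ≤ L ^ D := by positivity
        nlinarith [mul_nonneg (by linarith : (0:ℝ) ≤ L) this]
      nlinarith
    have h7 : (B.card : ℝ) ≤ (B0.card : ℝ) + (B1.card : ℝ) := by
      exact_mod_cast card_union_le _ _
    linarith
  have hnd : ∀ k ∈ Q, ∀ p : ℕ, p.Prime → L ^ (D + 3) < p → p ∉ B → ¬ p ∣ k.den * P := by
    intro k hk p hp hp1 hpB hd
    rcases (Nat.Prime.dvd_mul hp).1 hd with h | h
    · apply hpB
      rw [hB, mem_union]
      right
      rw [hB1, mem_biUnion]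
      refine ⟨k, hk, ?_⟩
      rw [mem_filter, Nat.mem_primeFactors]
      exact ⟨⟨hp, h, k.den_nz⟩, hp1⟩
    · exact hndvdP p hp hp1 h
  -- the set of admissible m
  set I : Finset ℤ := Ioc ⌊(z + X / 4) / P⌋ ⌊(z + X / 2) / P⌋ with hI
  set bad : Finset ℤ := I.filter (fun m : ℤ => ∃ x ∈ A,
    |(((x.1 : ℤ) * ((b0 : ℤ) + (P : ℤ) * m) + x.2 : ℤ) : ℝ)| ≤ T) with hbad
  set 𝒜 : Finset ℤ := I.filter (fun m : ℤ => ¬ ∃ x ∈ A,
    |(((x.1 : ℤ) * ((b0 : ℤ) + (P : ℤ) * m) + x.2 : ℤ) : ℝ)| ≤ T) with h𝒜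
  have hbadcard : (bad.card : ℝ) ≤ L ^ 2 * (2 * T + 1) := by
    have h1 : bad ⊆ A.biUnion (fun x => I.filter (fun m : ℤ =>
        |(((x.1 : ℤ) * ((b0 : ℤ) + (P : ℤ) * m) + x.2 : ℤ) : ℝ)| ≤ T)) := by
      intro m hm
      rw [hbad, mem_filter] at hm
      obtain ⟨h1, a, ha, h2⟩ := hm
      rw [mem_biUnion]
      exact ⟨a, ha, mem_filter.2 ⟨h1, h2⟩⟩
    have h2 : ∀ x ∈ A, ((I.filter (fun m : ℤ =>
        |(((x.1 : ℤ) * ((b0 : ℤ) + (P : ℤ) * m) + x.2 : ℤ) : ℝ)| ≤ T)).card : ℝ) ≤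
        2 * T + 1 := by
      intro x hxA
      have hx1 : 1 ≤ x.1 := (hAbd x hxA).1
      have h3 : ((I.filter (fun m : ℤ =>
          |(((x.1 : ℤ) * ((b0 : ℤ) + (P : ℤ) * m) + x.2 : ℤ) : ℝ)| ≤ T)).card) ≤
          (Icc (-(⌊T⌋₊ : ℤ)) ⌊T⌋₊).card := by
        apply card_le_card_of_injOn (fun m => (x.1 : ℤ) * ((b0 : ℤ) + P * m) + x.2)
        · intro m hm
          have hm' := (mem_filter.1 (mem_coe.1 hm)).2
          rw [abs_le] at hm'
          rw [mem_coe, mem_Icc]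
          constructor
          · have e2 : -((x.1 : ℤ) * ((b0 : ℤ) + P * m) + x.2) ≤ ⌊T⌋ := Int.le_floor.2 (by
              rw [Int.cast_neg]; linarith [hm'.1])
            have e3 : ((⌊T⌋₊ : ℕ) : ℤ) = ⌊T⌋ := Int.natCast_floor_eq_floor hT0
            show -(⌊T⌋₊ : ℤ) ≤ (x.1 : ℤ) * ((b0 : ℤ) + P * m) + x.2
            linarith
          · have e2 : ((x.1 : ℤ) * ((b0 : ℤ) + P * m) + x.2) ≤ ⌊T⌋ := Int.le_floor.2 hm'.2
            have e3 : ((⌊T⌋₊ : ℕ) : ℤ) = ⌊T⌋ := Int.natCast_floor_eq_floor hT0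
            show (x.1 : ℤ) * ((b0 : ℤ) + P * m) + x.2 ≤ (⌊T⌋₊ : ℤ)
            linarith
        · intro m _ m' _ h
          have h5 : (P : ℤ) * m = P * m' := by
            have h8 : (x.1 : ℤ) * ((b0 : ℤ) + P * m) + x.2 =
              (x.1 : ℤ) * ((b0 : ℤ) + P * m') + x.2 := h
            have h9 : (x.1 : ℤ) ≠ 0 := by exact_mod_cast (by omega : x.1 ≠ 0)
            have h10 : (x.1 : ℤ) * ((b0 : ℤ) + P * m) = (x.1 : ℤ) * ((b0 : ℤ) + P * m') := by
              linarith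
            have h11 := mul_left_cancel₀ h9 h10
            linarith
          have h6 : (P : ℤ) ≠ 0 := by exact_mod_cast hPpos.ne'
          exact mul_left_cancel₀ h6 h5
      have h4 : (Icc (-(⌊T⌋₊ : ℤ)) ⌊T⌋₊).card = 2 * ⌊T⌋₊ + 1 := by
        rw [Int.card_Icc]
        omega
      rw [h4] at h3
      have h5 : ((I.filter (fun m : ℤ =>
          |(((x.1 : ℤ) * ((b0 : ℤ) + (P : ℤ) * m) + x.2 : ℤ) : ℝ)| ≤ T)).card : ℝ) ≤
          2 * (⌊T⌋₊ : ℝ) + 1 := by exact_mod_cast h3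
      have := Nat.floor_le hT0
      linarith
    calc (bad.card : ℝ) ≤ ((∑ x ∈ A, (I.filter (fun m : ℤ =>
          |(((x.1 : ℤ) * ((b0 : ℤ) + (P : ℤ) * m) + x.2 : ℤ) : ℝ)| ≤ T)).card : ℕ) : ℝ) := by
          exact_mod_cast (card_le_card h1).trans card_biUnion_le
      _ = ∑ x ∈ A, ((I.filter (fun m : ℤ =>
          |(((x.1 : ℤ) * ((b0 : ℤ) + (P : ℤ) * m) + x.2 : ℤ) : ℝ)| ≤ T)).card : ℝ) := by
          push_cast; rfl
      _ ≤ ∑ _x ∈ A, (2 * T + 1) := sum_le_sum h2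
      _ = A.card * (2 * T + 1) := by rw [sum_const, nsmul_eq_mul]
      _ ≤ L ^ 2 * (2 * T + 1) := mul_le_mul_of_nonneg_right hA (by linarith)
  have hlt : (z + X / 4) / P ≤ (z + X / 2) / P := by
    apply div_le_div_of_nonneg_right _ hPr.le
    linarith
  have hN : X ^ (1 / 2 : ℝ) ≤ X / (4 * P) := by
    rw [le_div_iff₀ (by positivity)]
    calc X ^ (1 / 2 : ℝ) * (4 * P) ≤ X ^ (1 / 2 : ℝ) * X ^ (1 / 2 : ℝ) := by gcongr
      _ = X := by
        rw [← Real.rpow_add (by linarith)]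
        norm_num
  obtain ⟨m, hmA, hm⟩ := hcov X hX1 B hBcard Q
    (by
      rw [Fintype.card_coe]
      refine hQS.trans (hS.trans ?_)
      have : min c 1 ≤ c := min_le_left _ _
      nlinarith)
    (fun p k => -((k.1.den : ℤ) * b0 + k.1.num) * ip k.1.den p) (by
      intro p hp hp1 _ hpB k l hkl hdvd
      have h1 := hip k.1.den p hp (hnd k.1 k.2 p hp hp1 hpB)
      have h1' := hip l.1.den p hp (hnd l.1 l.2 p hp hp1 hpB)
      have hpP : ¬ (p : ℤ) ∣ (P : ℤ) := fun h => hndvdP p hp hp1 (Int.natCast_dvd_natCast.1 h)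
      have hp' : Prime (p : ℤ) := Nat.prime_iff_prime_int.1 hp
      have h2 : (p : ℤ) ∣ (P : ℤ) * (l.1.num * k.1.den - k.1.num * l.1.den) := by
        have h3 := hdvd.mul_left ((((k.1.den * P : ℕ) : ℤ)) * ((l.1.den * P : ℕ) : ℤ))
        have h4 := h1.mul_left (((k.1.den : ℤ) * b0 + k.1.num) * ((l.1.den * P : ℕ) : ℤ))
        have h5 := h1'.mul_left (((l.1.den : ℤ) * b0 + l.1.num) * ((k.1.den * P : ℕ) : ℤ))
        have h6 := dvd_sub (dvd_add h3 h4) h5
        refine h6.trans (dvd_of_eq ?_)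
        push_cast
        ring
      have h3 : (p : ℤ) ∣ (l.1.num * k.1.den - k.1.num * l.1.den) := by
        rcases hp'.dvd_or_dvd h2 with h | h
        · exact absurd h hpP
        · exact h
      apply hpB
      rw [hB, mem_union, hB0]
      left
      rw [mem_biUnion]
      refine ⟨(l.1, k.1), mem_product.2 ⟨l.2, k.2⟩, ?_⟩
      rw [mem_filter, Nat.mem_primeFactors]
      refine ⟨⟨hp, Int.natCast_dvd.1 h3, ?_⟩, hp1⟩
      intro h0
      apply hkl
      have h7 : l.1.num * k.1.den - k.1.num * l.1.den = 0 := Int.natAbs_eq_zero.1 h0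
      have h8 : k.1.num * l.1.den = l.1.num * k.1.den := by linarith
      exact Subtype.ext (Rat.eq_iff_mul_eq_mul.2 h8))
    𝒜 (X / (4 * P)) (L ^ 2 * (2 * T + 1) + 2) hN (by positivity) n5 (by
      intro q hq hq4 _ r
      have hq0 : 0 < q := Nat.pos_of_ne_zero hq.ne_zero
      have hq1 : (1 : ℝ) ≤ q := by exact_mod_cast hq0
      have h1 := count_Ioc ⌊(z + X / 4) / P⌋ ⌊(z + X / 2) / P⌋ (Int.floor_le_floor hlt) q hq0 r
      have e1 := Int.floor_le ((z + X / 4) / P)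
      have e2 := Int.lt_floor_add_one ((z + X / 4) / P)
      have e3 := Int.floor_le ((z + X / 2) / P)
      have e4 := Int.lt_floor_add_one ((z + X / 2) / P)
      have e5 : (z + X / 2) / P - (z + X / 4) / P = X / (4 * P) := by
        field_simp
        ring
      have h2 : |((⌊(z + X / 2) / P⌋ : ℝ) - ⌊(z + X / 4) / P⌋) / q - X / (4 * P) / q| ≤ 1 := by
        rw [← sub_div, abs_div, abs_of_pos (by linarith : (0 : ℝ) < q), div_le_one (by linarith)]
        refine le_trans ?_ hq1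
        rw [abs_le]
        constructor <;> linarith
      have h3 : |((((I.filter (fun x => (q : ℤ) ∣ x - r)).card : ℕ) : ℝ)) - X / (4 * P) / q| ≤ 2 := by
        calc _ = |((((Ioc ⌊(z + X / 4) / P⌋ ⌊(z + X / 2) / P⌋).filter
                (fun x => (q : ℤ) ∣ x - r)).card : ℕ) : ℝ) -
                ((⌊(z + X / 2) / P⌋ : ℝ) - ⌊(z + X / 4) / P⌋) / q +
                (((⌊(z + X / 2) / P⌋ : ℝ) - ⌊(z + X / 4) / P⌋) / q - X / (4 * P) / q)| := by
              congr 1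
              ring
          _ ≤ _ := abs_add_le _ _
          _ ≤ 2 := by linarith
      have h4 : (𝒜.filter (fun x => (q : ℤ) ∣ x - r)).card +
          (bad.filter (fun x => (q : ℤ) ∣ x - r)).card = (I.filter (fun x => (q : ℤ) ∣ x - r)).card := by
        exact card_split I _ _
      have h5 : ((bad.filter (fun x => (q : ℤ) ∣ x - r)).card : ℝ) ≤ L ^ 2 * (2 * T + 1) := by
        refine le_trans ?_ hbadcard
        exact_mod_cast card_le_card (filter_subset _ _)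
      have h6 : ((𝒜.filter (fun x => (q : ℤ) ∣ x - r)).card : ℝ) +
          ((bad.filter (fun x => (q : ℤ) ∣ x - r)).card : ℝ) =
          ((I.filter (fun x => (q : ℤ) ∣ x - r)).card : ℝ) := by exact_mod_cast h4
      have h7 : (0:ℝ) ≤ ((bad.filter (fun x => (q : ℤ) ∣ x - r)).card : ℝ) := Nat.cast_nonneg _
      rw [abs_le] at h3 ⊢
      constructor <;> linarith [h3.1, h3.2])
  rw [h𝒜, mem_filter, hI, mem_Ioc] at hmA
  obtain ⟨⟨hmA1, hmA2⟩, hmA3⟩ := hmA
  have hm1 : (z + X / 4) / P < m := by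
    have := Int.lt_floor_add_one ((z + X / 4) / P)
    have h2 : (⌊(z + X / 4) / P⌋ : ℝ) + 1 ≤ m := by exact_mod_cast hmA1
    linarith
  have hm2 : (m : ℝ) ≤ (z + X / 2) / P := by
    have := Int.floor_le ((z + X / 2) / P)
    have h2 : (m : ℝ) ≤ (⌊(z + X / 2) / P⌋ : ℝ) := by exact_mod_cast hmA2
    linarith
  rw [div_lt_iff₀ hPr] at hm1
  rw [le_div_iff₀ hPr] at hm2
  have hb0r : (0 : ℝ) ≤ b0 := by positivity
  have hb0P : (b0 : ℝ) ≤ P := by exact_mod_cast hb0.le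
  have hsmall : ∀ p : ℕ, p.Prime → (p : ℝ) ≤ y → (p : ℤ) ∣ ((b0 : ℤ) + P * m) - b p := by
    intro p hp hpy
    have h1 : (p : ℤ) ∣ (b0 : ℤ) - b p := by
      have h2 := hb0' p hp ((hfloor p).2 hpy)
      exact (Nat.modEq_iff_dvd.1 h2.symm)
    have h3 : (p : ℤ) ∣ (P : ℤ) := Int.natCast_dvd_natCast.2 (hdvdP p hp hpy)
    have h4 := dvd_add h1 (h3.mul_right m)
    refine h4.trans (dvd_of_eq ?_)
    ring
  refine ⟨(b0 : ℤ) + P * m, ?_, ?_, hsmall, ?_⟩
  · push_cast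
    linarith
  · push_cast
    linarith
  · intro x ha hpr
    have hbig : T < |(((x.1 : ℤ) * ((b0 : ℤ) + P * m) + x.2 : ℤ) : ℝ)| := by
      by_contra hcon
      push Not at hcon
      exact hmA3 ⟨x, ha, hcon⟩
    have hcomp : ∀ p : ℕ, p.Prime → (p : ℝ) ≤ T →
        ¬ (p : ℤ) ∣ (x.1 : ℤ) * ((b0 : ℤ) + P * m) + x.2 := by
      intro p hp hpT h
      have h1 := Int.natCast_dvd.1 h
      have h2 : (((x.1 : ℤ) * ((b0 : ℤ) + P * m) + x.2).natAbs).Prime :=
        Int.prime_iff_natAbs_prime.1 hpr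
      have h3 := (Nat.prime_dvd_prime_iff_eq hp h2).1 h1
      have h4 : (((((x.1 : ℤ) * ((b0 : ℤ) + P * m) + x.2).natAbs : ℕ)) : ℝ) =
          |(((x.1 : ℤ) * ((b0 : ℤ) + P * m) + x.2 : ℤ) : ℝ)| := by
        rw [Nat.cast_natAbs]
        push_cast
        rfl
      rw [← h4, ← h3] at hbig
      linarith
    by_cases hkS : x ∈ S
    · obtain ⟨k, hk, hkQ⟩ : ∃ k : ℚ, k = (x.2 : ℚ) / x.1 ∧ k ∈ Q :=
        ⟨(x.2 : ℚ) / x.1, rfl, by
          rw [hQdef]
          exact mem_image_of_mem (fun x : ℕ × ℤ => (x.2 : ℚ) / x.1) hkS⟩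
      obtain ⟨g, _, hg1, hg2⟩ := reduce x (hAbd x ha).1
      rw [← hk] at hg1 hg2
      obtain ⟨p, hp, hp1, hp2, hpB, hp3⟩ := hm ⟨k, hkQ⟩
      have hp3' : (p : ℤ) ∣ m - -((k.den : ℤ) * b0 + k.num) * ip k.den p := hp3
      apply hcomp p hp hp2
      have h1 := hip k.den p hp (hnd k hkQ p hp hp1 hpB)
      have h3 := hp3'.mul_left ((k.den * P : ℕ) : ℤ)
      have h4 := h1.mul_left ((k.den : ℤ) * b0 + k.num)
      have h5 := (dvd_sub h3 h4).mul_left (g : ℤ)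
      refine h5.trans (dvd_of_eq ?_)
      rw [hg1, hg2]
      push_cast
      ring
    · have hkS' : ¬ ∀ p : ℕ, p.Prime → (p : ℝ) ≤ y →
          ¬ (p : ℤ) ∣ (x.1 : ℤ) * (b p : ℤ) + x.2 := fun h =>
        hkS (by
          rw [hSdef, mem_filter]
          exact ⟨ha, h⟩)
      push Not at hkS'
      obtain ⟨p, hp, hpy, hkp⟩ := hkS'
      apply hcomp p hp (by rw [hy] at hpy; linarith)
      have h1 := (hsmall p hp hpy).mul_left (x.1 : ℤ)
      have h4 := dvd_add h1 hkp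
      refine h4.trans (dvd_of_eq ?_)
      ring

end Pool.Agent.Helper123.SM
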