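import Pool.Agent.Helper123.SM.Asm

set_option autoImplicit false
set_option maxHeartbeats 4000000

/-! # Simultaneous record gaps around the multiples `α n`, `α` in an arbitrary finite set

Adapted from `Pool/Agent/H361R2/PA/MultA.lean` (team of helper361), where there is one `α`. -/

namespace Pool.Agent.Helper123.SM

open Finset Filter Pool.Agent.H318R2.Cr Pool.Agent.H361R2.PA

open scoped Classical

theorem one_le_ratio (α : ℕ) (h : 1 ≤ α) : (1 : ℝ) ≤ (α : ℝ) / (Nat.totient α : ℝ) := by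
  have hφ0 : (0 : ℝ) < (Nat.totient α : ℝ) := by exact_mod_cast Nat.totient_pos.2 (by omega)
  rw [le_div_iff₀ hφ0, one_mul]
  exact_mod_cast Nat.totient_le α

theorem multS (D : ℕ) : ∃ c : ℝ, 0 < c ∧ ∃ X₀ : ℝ, ∀ X : ℝ, X₀ ≤ X →
    ∀ (𝒜 : Finset ℕ) (K : ℕ → ℝ),
    (∀ α ∈ 𝒜, 1 ≤ α ∧ Real.log α ≤ (Real.log X) ^ (D + 1) ∧ Real.log X ≤ K α) →
    ∑ α ∈ 𝒜, K α * ((α : ℝ) / (Nat.totient α : ℝ)) ≤ c * FF 1 X →
    ∀ 𝓛 : Finset (ℕ × ℤ),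
    (∀ x ∈ 𝓛, 1 ≤ x.1 ∧ Real.log x.1 ≤ (Real.log X) ^ (D + 1) ∧
      |(x.2 : ℝ)| ≤ Real.exp ((Real.log X) ^ (D + 1))) →
    ∑ x ∈ 𝓛, (x.1 : ℝ) / (Nat.totient x.1 : ℝ) ≤
      c * (Real.log X * Real.log (Real.log X) * Real.log (Real.log (Real.log (Real.log X))) /
        Real.log (Real.log (Real.log X))) →
    ∀ z : ℤ, ∃ n : ℤ, (z : ℝ) + X / 4 < n ∧ (n : ℝ) ≤ z + X ∧
      (∀ α ∈ 𝒜, ∀ j : ℤ, |(j : ℝ)| ≤ K α → ¬ Prime ((α : ℤ) * n + j)) ∧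
      ∀ x ∈ 𝓛, ¬ Prime ((x.1 : ℤ) * n + x.2) := by
  obtain ⟨c₀, hc₀, X₁, hass⟩ := assembleS (D + 1)
  obtain ⟨y₀, hmed⟩ := card_med
  obtain ⟨c₂, hc₂, X₂, hfacts⟩ := facts (1000 / c₀ + 10 * |y₀| + 10)
  set c' : ℝ := min (1 / 10) (c₀ / (1000 * c₂)) with hc'
  have hc'0 : 0 < c' := by positivity
  have hc'1 : c' ≤ 1 / 10 := min_le_left _ _
  have hc'2 : c' ≤ c₀ / (1000 * c₂) := min_le_right _ _
  refine ⟨c', hc'0, max X₁ X₂, ?_⟩
  intro X hX 𝒜 K h𝒜 hsum 𝓛 h𝓛 hsum𝓛 z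
  have hX1 : X₁ ≤ X := (le_max_left _ _).trans hX
  obtain ⟨hX0, g1, g2, g3, g4, g5, g6, g7, g8, g9, g10, g11, g12, g13, g14⟩ :=
    hfacts X ((le_max_right _ _).trans hX)
  set L1 := Real.log X with hL1
  set u₂ := Real.log L1 with hu₂
  set u₃ := Real.log u₂ with hu₃
  set u₄ := Real.log u₃ with hu₄
  set y := L1 / 10 with hy
  have hy0 : 0 < y := by rw [hy]; linarith
  have hu₃0 : 0 < u₃ := by linarith
  have hu₂0 : 0 < u₂ := by linarith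
  have hu₄0 : 0 < u₄ := by linarith
  have hFF : FF 1 X = L1 * (u₂ * u₄ / u₃) * (u₂ / u₃) := by
    unfold FF
    rw [← hL1, ← hu₂, ← hu₃, ← hu₄]
    field_simp
    ring
  have hFF0 : 0 < FF 1 X := by rw [hFF]; positivity
  set F := c' * FF 1 X with hF
  have hF0 : 0 < F := by positivity
  have hyab : 0 ≤ |y₀| := abs_nonneg _
  have hc0' : 0 < 1000 / c₀ := by positivity
  have hF2 : F ≤ L1 * u₂ ^ 2 / 10 := by
    rw [hF, hFF]
    have h1 : u₂ * u₄ / u₃ ≤ u₂ := by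
      rw [div_le_iff₀ hu₃0]
      gcongr
    have h2 : u₂ / u₃ ≤ u₂ := div_le_self hu₂0.le (by linarith)
    calc c' * (L1 * (u₂ * u₄ / u₃) * (u₂ / u₃)) ≤ 1 / 10 * (L1 * u₂ * u₂) := by
          gcongr
      _ = _ := by ring
  have hu2sq : 1 ≤ u₂ ^ 2 := by
    calc (1 : ℝ) ≤ 160 ^ 2 := by norm_num
      _ ≤ u₂ ^ 2 := by gcongr
  -- the lengths
  have hKα0 : ∀ α ∈ 𝒜, 0 ≤ K α := fun α hα => by linarith [(h𝒜 α hα).2.2]
  have hKle : ∀ α ∈ 𝒜, K α ≤ F := by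
    intro α hα
    refine le_trans ?_ hsum
    have h1 : K α * ((α : ℝ) / (Nat.totient α : ℝ)) ≤
        ∑ α ∈ 𝒜, K α * ((α : ℝ) / (Nat.totient α : ℝ)) :=
      single_le_sum (f := fun α : ℕ => K α * ((α : ℝ) / (Nat.totient α : ℝ)))
        (fun i hi => mul_nonneg (hKα0 i hi) (by positivity)) hα
    refine le_trans ?_ h1
    have h2 := one_le_ratio α (h𝒜 α hα).1
    have h3 := hKα0 α hα
    nlinarith
  have hLF : ∀ α ∈ 𝒜, ((⌊K α⌋₊ : ℕ) : ℝ) ≤ K α := fun α hα => Nat.floor_le (hKα0 α hα)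
  have hyL : ∀ α ∈ 𝒜, y ≤ (⌊K α⌋₊ : ℝ) := by
    intro α hα
    have h1 : K α < (⌊K α⌋₊ : ℝ) + 1 := Nat.lt_floor_add_one _
    have h2 := (h𝒜 α hα).2.2
    rw [hy]
    linarith
  have hLbig : ∀ α ∈ 𝒜, ((⌊K α⌋₊ : ℕ) : ℝ) ≤ L1 * u₂ ^ 2 := by
    intro α hα
    have h1 := hLF α hα
    have h2 := hKle α hα
    have h3 : 0 ≤ L1 * u₂ ^ 2 := by
      have : 0 ≤ L1 := by linarith
      positivity
    linarith
  have hLy : ∀ α ∈ 𝒜, ((⌊K α⌋₊ : ℕ) : ℝ) ≤ y * (Real.log y) ^ 4 := by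
    intro α hα
    refine (hLbig α hα).trans ?_
    have h1 : (u₂ / 2) ^ 4 ≤ (Real.log y) ^ 4 := by gcongr
    have h2 : 10 * u₂ ^ 2 ≤ (u₂ / 2) ^ 4 := by
      have e1 : 0 ≤ u₂ ^ 2 := by positivity
      have e : (u₂ / 2) ^ 4 = u₂ ^ 2 * u₂ ^ 2 / 16 := by ring
      have e0 : 160 ≤ u₂ ^ 2 := by
        calc (160 : ℝ) ≤ 160 ^ 2 := by norm_num
          _ ≤ u₂ ^ 2 := by gcongr
      rw [e, le_div_iff₀ (by norm_num)]
      calc 10 * u₂ ^ 2 * 16 = 160 * u₂ ^ 2 := by ring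
        _ ≤ u₂ ^ 2 * u₂ ^ 2 := mul_le_mul_of_nonneg_right e0 e1
    have h3 : L1 = 10 * y := by rw [hy]; ring
    calc L1 * u₂ ^ 2 = y * (10 * u₂ ^ 2) := by rw [h3]; ring
      _ ≤ y * (Real.log y) ^ 4 := by gcongr; linarith
  have hyy : y₀ ≤ y := by
    have := le_abs_self y₀
    rw [hy]
    linarith
  have hLu3 : u₂ ^ 3 ≤ L1 := by linarith
  have hcard : ∀ α ∈ 𝒜, ((NM y ⌊K α⌋₊).card : ℝ) ≤ 120 * K α * (u₃ / u₂) := by
    intro α hα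
    refine (hmed y hyy _ (hyL α hα) (hLy α hα)).trans ?_
    have h1 : 60 * ((⌊K α⌋₊ : ℕ) : ℝ) * Real.log (Real.log y) / Real.log y ≤
        60 * K α * u₃ / (u₂ / 2) := by
      have h0 := hLF α hα
      have h00 := hKα0 α hα
      apply div_le_div₀ (by positivity) _ (by positivity) g11
      gcongr
    refine h1.trans (le_of_eq ?_)
    field_simp
    ring
  set v : ℕ := ⌊Real.exp (WW y)⌋₊ with hv
  have hvle : (v : ℝ) ≤ Real.exp (WW y) := Nat.floor_le (Real.exp_pos _).le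
  set A : Finset (ℕ × ℤ) := 𝒜.biUnion (fun α =>
    (Icc (-((⌊K α⌋₊ : ℕ) : ℤ)) ((⌊K α⌋₊ : ℕ) : ℤ)).image (fun j => (α, j))) with hA
  have hmemA : ∀ x : ℕ × ℤ, x ∈ A ↔ x.1 ∈ 𝒜 ∧ -((⌊K x.1⌋₊ : ℕ) : ℤ) ≤ x.2 ∧
      x.2 ≤ ((⌊K x.1⌋₊ : ℕ) : ℤ) := by
    intro x
    rw [hA, mem_biUnion]
    constructor
    · rintro ⟨α, hα, hx⟩
      rw [mem_image] at hx
      obtain ⟨j, hj, rfl⟩ := hx
      rw [mem_Icc] at hj
      exact ⟨hα, hj⟩
    · rintro ⟨h1, h2⟩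
      exact ⟨x.1, h1, mem_image.2 ⟨x.2, mem_Icc.2 h2, rfl⟩⟩
  set J0 : ℕ → Finset ℤ := fun α =>
    (Icc (-((⌊K α⌋₊ : ℕ) : ℤ)) ((⌊K α⌋₊ : ℕ) : ℤ)).filter (fun a => ∀ p : ℕ, p.Prime →
      (p : ℝ) ≤ y → WW y < Real.log p → ¬ (p : ℤ) ∣ a) with hJ0
  set A0 : Finset (ℕ × ℤ) := 𝒜.biUnion (fun α => (J0 α).image (fun j => (α, j))) with hA0def
  have hJ0c : ∀ α ∈ 𝒜, ((J0 α).card : ℝ) ≤ 241 * K α * (u₃ / u₂) := by
    intro α hα
    have h1 : J0 α ⊆ (((NM y ⌊K α⌋₊).image (fun m : ℕ => (m : ℤ))) ∪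
        ((NM y ⌊K α⌋₊).image (fun m : ℕ => -(m : ℤ)))) ∪ {0} := by
      intro a ha
      rw [hJ0, mem_filter, mem_Icc] at ha
      obtain ⟨ha1, ha2⟩ := ha
      rw [mem_union, mem_union, mem_image, mem_image, mem_singleton]
      by_cases h0 : a = 0
      · right; exact h0
      · left
        have hN : a.natAbs ∈ NM y ⌊K α⌋₊ := by
          rw [NM, mem_filter, mem_Icc]
          refine ⟨⟨by omega, by omega⟩, fun p hp hpa => ?_⟩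
          by_contra hcon
          push Not at hcon
          exact ha2 p hp hcon.1 hcon.2 (Int.natCast_dvd.2 hpa)
        rcases le_total 0 a with h | h
        · left; exact ⟨a.natAbs, hN, by omega⟩
        · right; exact ⟨a.natAbs, hN, by omega⟩
    have h2 : (J0 α).card ≤ ((NM y ⌊K α⌋₊).card + (NM y ⌊K α⌋₊).card) + 1 := by
      refine (card_le_card h1).trans ((card_union_le _ _).trans ?_)
      have e1 := card_union_le ((NM y ⌊K α⌋₊).image (fun m : ℕ => (m : ℤ)))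
        ((NM y ⌊K α⌋₊).image (fun m : ℕ => -(m : ℤ)))
      have e2 : ((NM y ⌊K α⌋₊).image (fun m : ℕ => (m : ℤ))).card ≤ (NM y ⌊K α⌋₊).card :=
        card_image_le
      have e3 : ((NM y ⌊K α⌋₊).image (fun m : ℕ => -(m : ℤ))).card ≤ (NM y ⌊K α⌋₊).card :=
        card_image_le
      rw [card_singleton]
      omega
    have h3 : ((J0 α).card : ℝ) ≤ (((NM y ⌊K α⌋₊).card : ℝ) + ((NM y ⌊K α⌋₊).card : ℝ)) + 1 := by
      exact_mod_cast h2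
    have h4 := hcard α hα
    have h5 : 1 ≤ K α * (u₃ / u₂) := by
      have e1 : u₂ ≤ L1 := by
        have : u₂ * 1 ≤ u₂ * u₂ ^ 2 := mul_le_mul_of_nonneg_left hu2sq hu₂0.le
        have e2 : u₂ * u₂ ^ 2 = u₂ ^ 3 := by ring
        linarith
      have e3 := (h𝒜 α hα).2.2
      rw [← mul_div_assoc, le_div_iff₀ hu₂0, one_mul]
      have e4 : K α * 1 ≤ K α * u₃ := mul_le_mul_of_nonneg_left (by linarith) (hKα0 α hα)
      linarith
    have h6 : 120 * K α * (u₃ / u₂) = 120 * (K α * (u₃ / u₂)) := by ring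
    have h7 : 241 * K α * (u₃ / u₂) = 241 * (K α * (u₃ / u₂)) := by ring
    rw [h6] at h4
    rw [h7]
    linarith
  obtain ⟨b, hb⟩ := presieveW (Pz v) (fun p hp => (mem_Pz.1 hp).1) (A0 ∪ 𝓛)
  set b' : ℕ → ℕ := fun p => if Real.log p ≤ WW y then b p else 0 with hb'
  have hpair : ∀ (α : ℕ), Function.Injective (fun j : ℤ => (α, j)) := by
    intro α a b h
    exact (Prod.mk.inj h).2
  have hS : ((((A ∪ 𝓛).filter (fun x => ∀ p : ℕ, p.Prime → (p : ℝ) ≤ L1 / 10 →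
      ¬ (p : ℤ) ∣ (x.1 : ℤ) * (b' p : ℤ) + x.2)).card : ℕ) : ℝ) ≤ c₀ * L1 := by
    have h1 : ((A ∪ 𝓛).filter (fun x => ∀ p : ℕ, p.Prime → (p : ℝ) ≤ L1 / 10 →
        ¬ (p : ℤ) ∣ (x.1 : ℤ) * (b' p : ℤ) + x.2)) ⊆
        (A0 ∪ 𝓛).filter (fun x => ∀ p ∈ Pz v, ¬ (p : ℤ) ∣ (x.1 : ℤ) * (b p : ℤ) + x.2) := by
      intro x hx
      rw [mem_filter] at hx
      obtain ⟨hxA, hsur⟩ := hx
      rw [mem_filter]
      refine ⟨?_, ?_⟩
      · rw [mem_union] at hxA ⊢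
        rcases hxA with hxA | hxA
        · left
          rw [hmemA] at hxA
          rw [hA0def, mem_biUnion]
          refine ⟨x.1, hxA.1, mem_image.2 ⟨x.2, ?_, rfl⟩⟩
          rw [hJ0, mem_filter, mem_Icc]
          refine ⟨hxA.2, ?_⟩
          intro p hp hpy hpW hpa
          apply hsur p hp hpy
          have h4 : b' p = 0 := by
            rw [hb']
            simp only [not_le.2 hpW, if_false]
          rw [h4]
          simpa using hpa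
        · right; exact hxA
      · intro p hp
        rw [mem_Pz] at hp
        obtain ⟨hpp, hpv⟩ := hp
        have hp0 : (0 : ℝ) < p := by exact_mod_cast hpp.pos
        have h2 : (p : ℝ) ≤ Real.exp (WW y) := le_trans (by exact_mod_cast hpv) hvle
        have h3 : Real.log p ≤ WW y := by rwa [Real.log_le_iff_le_exp hp0]
        have h4 : (p : ℝ) ≤ y := by
          refine h2.trans ?_
          calc Real.exp (WW y) ≤ Real.exp (Real.log y) := Real.exp_le_exp.2 g10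
            _ = y := Real.exp_log hy0
        have h5 := hsur p hpp h4
        have h6 : b' p = b p := by
          rw [hb']
          simp only [h3, if_true]
        rwa [h6] at h5
    have h2 : ((((A ∪ 𝓛).filter (fun x => ∀ p : ℕ, p.Prime → (p : ℝ) ≤ L1 / 10 →
        ¬ (p : ℤ) ∣ (x.1 : ℤ) * (b' p : ℤ) + x.2)).card : ℕ) : ℝ) ≤
        (((A0 ∪ 𝓛).filter (fun x => ∀ p ∈ Pz v,
          ¬ (p : ℤ) ∣ (x.1 : ℤ) * (b p : ℤ) + x.2)).card : ℝ) := by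
      exact_mod_cast card_le_card h1
    refine h2.trans (hb.trans ?_)
    have hw0 : ∀ x : ℕ × ℤ, 0 ≤ ∏ p ∈ (Pz v).filter (fun p => ¬ p ∣ x.1), (1 - 1 / (p : ℝ)) :=
      fun x => prod_nonneg fun p hp => (one_sub_inv_pos (mem_Pz.1 (mem_filter.1 hp).1).1).le
    have hun : ∑ x ∈ A0 ∪ 𝓛, ∏ p ∈ (Pz v).filter (fun p => ¬ p ∣ x.1), (1 - 1 / (p : ℝ)) ≤
        ∑ x ∈ A0, ∏ p ∈ (Pz v).filter (fun p => ¬ p ∣ x.1), (1 - 1 / (p : ℝ)) +
        ∑ x ∈ 𝓛, ∏ p ∈ (Pz v).filter (fun p => ¬ p ∣ x.1), (1 - 1 / (p : ℝ)) := by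
      rw [← sum_union_inter (s₁ := A0) (s₂ := 𝓛)]
      have := sum_nonneg (s := A0 ∩ 𝓛)
        (f := fun x => ∏ p ∈ (Pz v).filter (fun p => ¬ p ∣ x.1), (1 - 1 / (p : ℝ)))
        (fun x _ => hw0 x)
      linarith
    have hV0 : 0 ≤ V v := (V_pos v).le
    have hcL : 0 ≤ c₀ * L1 := mul_nonneg hc₀.le (by linarith)
    have hL𝓛 : ∑ x ∈ 𝓛, ∏ p ∈ (Pz v).filter (fun p => ¬ p ∣ x.1), (1 - 1 / (p : ℝ)) ≤
        1 / 1000 * (c₀ * L1) := by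
      calc ∑ x ∈ 𝓛, ∏ p ∈ (Pz v).filter (fun p => ¬ p ∣ x.1), (1 - 1 / (p : ℝ)) ≤
            ∑ x ∈ 𝓛, V v * ((x.1 : ℝ) / (Nat.totient x.1 : ℝ)) := by
            apply sum_le_sum
            intro x hx
            exact prodM x.1 v (by have := (h𝓛 x hx).1; omega)
        _ = V v * ∑ x ∈ 𝓛, (x.1 : ℝ) / (Nat.totient x.1 : ℝ) := by rw [mul_sum]
        _ ≤ V v * (c' * (L1 * u₂ * u₄ / u₃)) := by gcongr
        _ ≤ (c₂ * u₃ / (u₂ * u₄)) * (c' * (L1 * u₂ * u₄ / u₃)) := by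
            have : 0 ≤ L1 := by linarith
            gcongr
        _ = c' * c₂ * L1 := by field_simp
        _ ≤ (c₀ / (1000 * c₂)) * c₂ * L1 := by
            have : 0 ≤ L1 := by linarith
            gcongr
        _ = 1 / 1000 * (c₀ * L1) := by field_simp
    refine hun.trans ?_
    suffices hA0s : ∑ x ∈ A0, ∏ p ∈ (Pz v).filter (fun p => ¬ p ∣ x.1), (1 - 1 / (p : ℝ)) ≤
        241 / 1000 * (c₀ * L1) by linarith
    have hdisj : (𝒜 : Set ℕ).PairwiseDisjoint (fun α => (J0 α).image (fun j => (α, j))) := by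
      intro α _ β _ hαβ
      rw [Function.onFun, disjoint_left]
      intro x hx hx'
      rw [mem_image] at hx hx'
      obtain ⟨_, _, rfl⟩ := hx
      obtain ⟨_, _, h⟩ := hx'
      exact hαβ (Prod.mk.inj h).1.symm
    rw [hA0def, sum_biUnion hdisj]
    have hstep : ∀ α ∈ 𝒜, ∑ x ∈ (J0 α).image (fun j => (α, j)),
        ∏ p ∈ (Pz v).filter (fun p => ¬ p ∣ x.1), (1 - 1 / (p : ℝ)) ≤
        241 * (u₃ / u₂) * V v * (K α * ((α : ℝ) / (Nat.totient α : ℝ))) := by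
      intro α hα
      rw [sum_image (fun a _ b _ h => hpair α h)]
      show ∑ _j ∈ J0 α, ∏ p ∈ (Pz v).filter (fun p => ¬ p ∣ α), (1 - 1 / (p : ℝ)) ≤ _
      rw [sum_const, nsmul_eq_mul]
      have e1 := prodM α v (by have := (h𝒜 α hα).1; omega)
      have e2 := hJ0c α hα
      have e3 : 0 ≤ ∏ p ∈ (Pz v).filter (fun p => ¬ p ∣ α), (1 - 1 / (p : ℝ)) :=
        prod_nonneg fun p hp => (one_sub_inv_pos (mem_Pz.1 (mem_filter.1 hp).1).1).le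
      have e4 := hKα0 α hα
      calc ((J0 α).card : ℝ) * ∏ p ∈ (Pz v).filter (fun p => ¬ p ∣ α), (1 - 1 / (p : ℝ)) ≤
            (241 * K α * (u₃ / u₂)) * (V v * ((α : ℝ) / (Nat.totient α : ℝ))) := by
            apply mul_le_mul e2 e1 e3 (by positivity)
        _ = _ := by ring
    calc ∑ α ∈ 𝒜, ∑ x ∈ (J0 α).image (fun j => (α, j)),
          ∏ p ∈ (Pz v).filter (fun p => ¬ p ∣ x.1), (1 - 1 / (p : ℝ)) ≤
          ∑ α ∈ 𝒜, 241 * (u₃ / u₂) * V v * (K α * ((α : ℝ) / (Nat.totient α : ℝ))) :=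
            sum_le_sum hstep
      _ = 241 * (u₃ / u₂) * V v * ∑ α ∈ 𝒜, K α * ((α : ℝ) / (Nat.totient α : ℝ)) := by
          rw [mul_sum]
      _ ≤ 241 * (u₃ / u₂) * V v * (c' * FF 1 X) := by gcongr
      _ ≤ 241 * (u₃ / u₂) * (c₂ * u₃ / (u₂ * u₄)) * (c' * FF 1 X) := by gcongr
      _ = 241 * c' * c₂ * L1 := by
          rw [hFF]
          field_simp
      _ ≤ 241 * (c₀ / (1000 * c₂)) * c₂ * L1 := by gcongr
      _ = 241 / 1000 * (c₀ * L1) := by field_simp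
  have h𝓛card : (𝓛.card : ℝ) ≤ L1 * u₂ ^ 2 / 10 := by
    have h1 : (𝓛.card : ℝ) ≤ ∑ x ∈ 𝓛, (x.1 : ℝ) / (Nat.totient x.1 : ℝ) := by
      calc (𝓛.card : ℝ) = ∑ _x ∈ 𝓛, (1 : ℝ) := by rw [sum_const, nsmul_eq_mul, mul_one]
        _ ≤ _ := sum_le_sum fun x hx => one_le_ratio x.1 (h𝓛 x hx).1
    have h2 : L1 * u₂ * u₄ / u₃ ≤ L1 * u₂ ^ 2 := by
      rw [div_le_iff₀ hu₃0]
      have e1 : 0 ≤ L1 := by linarith
      have e2 : L1 * u₂ * u₄ ≤ L1 * u₂ * u₃ := by gcongr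
      have e3 : L1 * u₂ * u₃ * 1 ≤ L1 * u₂ * u₃ * u₂ := by
        apply mul_le_mul_of_nonneg_left (by linarith) (by positivity)
      have e4 : L1 * u₂ * u₃ * u₂ = L1 * u₂ ^ 2 * u₃ := by ring
      linarith
    have h3 : 0 ≤ L1 * u₂ ^ 2 := mul_nonneg (by linarith) (by positivity)
    have h4 : c' * (L1 * u₂ * u₄ / u₃) ≤ 1 / 10 * (L1 * u₂ ^ 2) := by
      have e1 : 0 ≤ L1 := by linarith
      gcongr
    linarith
  have hAcard : (((A ∪ 𝓛).card : ℕ) : ℝ) ≤ L1 ^ 2 := by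
    have hcu : (((A ∪ 𝓛).card : ℕ) : ℝ) ≤ A.card + 𝓛.card := by
      exact_mod_cast card_union_le _ _
    refine hcu.trans ?_
    have h1 : (A.card : ℝ) ≤ ∑ α ∈ 𝒜, 3 * (K α * ((α : ℝ) / (Nat.totient α : ℝ))) := by
      calc (A.card : ℝ) ≤ ((∑ α ∈ 𝒜, ((Icc (-((⌊K α⌋₊ : ℕ) : ℤ)) ((⌊K α⌋₊ : ℕ) : ℤ)).image
            (fun j => (α, j))).card : ℕ) : ℝ) := by
            exact_mod_cast card_biUnion_le
        _ = ∑ α ∈ 𝒜, (((Icc (-((⌊K α⌋₊ : ℕ) : ℤ)) ((⌊K α⌋₊ : ℕ) : ℤ)).image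
            (fun j => (α, j))).card : ℝ) := by push_cast; rfl
        _ ≤ _ := by
          apply sum_le_sum
          intro α hα
          rw [card_image_of_injective _ (hpair α), Int.card_Icc]
          have e0 : (((⌊K α⌋₊ : ℕ) : ℤ) + 1 - -((⌊K α⌋₊ : ℕ) : ℤ)).toNat = 2 * ⌊K α⌋₊ + 1 := by
            omega
          rw [e0]
          push_cast
          have e1 := hLF α hα
          have e2 := (h𝒜 α hα).2.2
          have e3 := one_le_ratio α (h𝒜 α hα).1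
          have e4 : K α * 1 ≤ K α * ((α : ℝ) / (Nat.totient α : ℝ)) :=
            mul_le_mul_of_nonneg_left e3 (hKα0 α hα)
          linarith
    rw [← mul_sum] at h1
    have h2 : 3 * ∑ α ∈ 𝒜, K α * ((α : ℝ) / (Nat.totient α : ℝ)) ≤ 3 * (L1 * u₂ ^ 2 / 10) := by
      linarith
    have h3 : L1 * u₂ ^ 2 ≤ L1 * u₂ ^ 3 := by
      have h4 : 0 ≤ L1 * u₂ ^ 2 := mul_nonneg (by linarith) (by positivity)
      have h6 : L1 * u₂ ^ 3 = u₂ * (L1 * u₂ ^ 2) := by ring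
      rw [h6]
      have h9 : 1 * (L1 * u₂ ^ 2) ≤ u₂ * (L1 * u₂ ^ 2) :=
        mul_le_mul_of_nonneg_right (by linarith) h4
      linarith
    have h7 : L1 * u₂ ^ 3 ≤ L1 * L1 := mul_le_mul_of_nonneg_left hLu3 (by linarith)
    have h8 : L1 ^ 2 = L1 * L1 := by ring
    have h9 : 0 ≤ L1 * L1 := by positivity
    rw [h8]
    linarith
  have hAb : ∀ x ∈ A ∪ 𝓛, 1 ≤ x.1 ∧ Real.log x.1 ≤ L1 ^ (D + 1) ∧
      |(x.2 : ℝ)| ≤ Real.exp (L1 ^ (D + 1)) := by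
    intro x hx
    rw [mem_union] at hx
    rcases hx with hx | hx
    swap
    · exact h𝓛 x hx
    rw [hmemA] at hx
    obtain ⟨hx1, hx2, hx3⟩ := hx
    refine ⟨(h𝒜 _ hx1).1, (h𝒜 _ hx1).2.1, ?_⟩
    have h1 : |(x.2 : ℝ)| ≤ ((⌊K x.1⌋₊ : ℕ) : ℝ) := by
      rw [abs_le]
      constructor
      · have : ((-((⌊K x.1⌋₊ : ℕ) : ℤ) : ℤ) : ℝ) ≤ x.2 := by exact_mod_cast hx2
        push_cast at this
        exact this
      · exact_mod_cast hx3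
    have h2 : ((⌊K x.1⌋₊ : ℕ) : ℝ) ≤ L1 ^ 2 := by
      refine (hLbig x.1 hx1).trans ?_
      have h3 : L1 * u₂ ^ 2 ≤ L1 * u₂ ^ 3 := by
        have h4 : 0 ≤ L1 * u₂ ^ 2 := mul_nonneg (by linarith) (by positivity)
        have h6 : L1 * u₂ ^ 3 = u₂ * (L1 * u₂ ^ 2) := by ring
        rw [h6]
        have h9 : 1 * (L1 * u₂ ^ 2) ≤ u₂ * (L1 * u₂ ^ 2) :=
          mul_le_mul_of_nonneg_right (by linarith) h4
        linarith
      have h7 : L1 * u₂ ^ 3 ≤ L1 * L1 := mul_le_mul_of_nonneg_left hLu3 (by linarith)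
      have h8 : L1 ^ 2 = L1 * L1 := by ring
      rw [h8]
      linarith
    have h3 : L1 ^ 2 ≤ Real.exp L1 := by
      have h4 := Real.pow_div_factorial_le_exp L1 (by linarith) 3
      have h5 : (Nat.factorial 3 : ℝ) = 6 := by norm_num [Nat.factorial]
      rw [h5] at h4
      refine le_trans ?_ h4
      rw [le_div_iff₀ (by norm_num)]
      have : 0 ≤ L1 ^ 2 := by positivity
      nlinarith
    have h4 : Real.exp L1 ≤ Real.exp (L1 ^ (D + 1)) := by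
      apply Real.exp_le_exp.2
      calc L1 = L1 ^ 1 := (pow_one _).symm
        _ ≤ L1 ^ (D + 1) := pow_le_pow_right₀ (by linarith) (by omega)
    linarith
  obtain ⟨n, hn1, hn2, _, hn4⟩ := hass X hX1 (A ∪ 𝓛) hAcard hAb b' hS z
  refine ⟨n, hn1, hn2, ?_, fun x hx => hn4 x (mem_union_right _ hx)⟩
  intro α hα j hj
  have hjA : (α, j) ∈ A := by
    rw [hmemA]
    refine ⟨hα, ?_⟩
    rw [abs_le] at hj
    have e2 : -j ≤ ⌊K α⌋ := Int.le_floor.2 (by rw [Int.cast_neg]; linarith [hj.1])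
    have e4 : j ≤ ⌊K α⌋ := Int.le_floor.2 hj.2
    have e3 : ((⌊K α⌋₊ : ℕ) : ℤ) = ⌊K α⌋ := Int.natCast_floor_eq_floor (hKα0 α hα)
    constructor
    · show -((⌊K α⌋₊ : ℕ) : ℤ) ≤ j
      linarith
    · show j ≤ ((⌊K α⌋₊ : ℕ) : ℤ)
      linarith
  exact hn4 (α, j) (mem_union_left _ hjA)

theorem formsS (D : ℕ) : ∃ c : ℝ, 0 < c ∧ ∃ X₀ : ℝ, ∀ X : ℝ, X₀ ≤ X →
    ∀ 𝓛 : Finset (ℕ × ℤ),
    (∀ x ∈ 𝓛, 1 ≤ x.1 ∧ Real.log x.1 ≤ (Real.log X) ^ D ∧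
      |(x.2 : ℝ)| ≤ Real.exp ((Real.log X) ^ D)) →
    ∑ x ∈ 𝓛, (x.1 : ℝ) / (Nat.totient x.1 : ℝ) ≤ c * (Real.log X * Real.log (Real.log X)) →
    ∀ z : ℤ, ∃ n : ℤ, (z : ℝ) + X / 4 < n ∧ (n : ℝ) ≤ z + X ∧
      ∀ x ∈ 𝓛, ¬ Prime ((x.1 : ℤ) * n + x.2) := by
  obtain ⟨c₀, hc₀, X₁, hass⟩ := assembleS D
  obtain ⟨c₁, c₂, hc₁, hc₁₂, hV⟩ := cz_bounds
  have hc₂ : 0 < c₂ := hc₁.trans_le hc₁₂
  refine ⟨min (c₀ / (2 * c₂)) 1, by positivity, max X₁ (Real.exp 10000), ?_⟩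
  intro X hX 𝓛 h𝓛 hsum z
  have hX1 : X₁ ≤ X := (le_max_left _ _).trans hX
  have hX2 : Real.exp 10000 ≤ X := (le_max_right _ _).trans hX
  have hX0 : 0 < X := (Real.exp_pos _).trans_le hX2
  have hL : 10000 ≤ Real.log X := by
    rw [← Real.log_exp 10000]
    exact Real.log_le_log (Real.exp_pos _) hX2
  set L := Real.log X with hLdef
  have hLL0 : 0 < Real.log L := Real.log_pos (by linarith)
  have hLL1 : Real.log L ≤ L := (Real.log_le_sub_one_of_pos (by linarith)).trans (by linarith)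
  obtain ⟨hf2, hfl⟩ := log_floor_ge X hL
  obtain ⟨b, hb⟩ := presieveW (Pz ⌊L / 10⌋₊) (fun p hp => (mem_Pz.1 hp).1) 𝓛
  have hS : (((𝓛.filter (fun x => ∀ p : ℕ, p.Prime → (p : ℝ) ≤ L / 10 →
      ¬ (p : ℤ) ∣ (x.1 : ℤ) * (b p : ℤ) + x.2)).card : ℕ) : ℝ) ≤ c₀ * L := by
    have h1 : 𝓛.filter (fun x => ∀ p : ℕ, p.Prime → (p : ℝ) ≤ L / 10 →
        ¬ (p : ℤ) ∣ (x.1 : ℤ) * (b p : ℤ) + x.2) =
        𝓛.filter (fun x => ∀ p ∈ Pz ⌊L / 10⌋₊, ¬ (p : ℤ) ∣ (x.1 : ℤ) * (b p : ℤ) + x.2) := by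
      apply filter_congr
      intro a _
      constructor
      · intro h p hp
        rw [mem_Pz, Nat.le_floor_iff (by linarith)] at hp
        exact h p hp.1 hp.2
      · intro h p hp hpL
        apply h p
        rw [mem_Pz, Nat.le_floor_iff (by linarith)]
        exact ⟨hp, hpL⟩
    rw [h1]
    refine hb.trans ?_
    have h2 := (hV _ hf2).2
    have h4 := V_pos ⌊L / 10⌋₊
    have h5 : V ⌊L / 10⌋₊ * (Real.log L / 2) ≤ c₂ := by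
      refine le_trans ?_ h2
      gcongr
    have h6 : ∑ x ∈ 𝓛, (x.1 : ℝ) / (Nat.totient x.1 : ℝ) ≤
        c₀ / (2 * c₂) * (L * Real.log L) := by
      refine hsum.trans ?_
      have : min (c₀ / (2 * c₂)) 1 ≤ c₀ / (2 * c₂) := min_le_left _ _
      have : 0 ≤ L * Real.log L := by positivity
      gcongr
    calc ∑ x ∈ 𝓛, ∏ p ∈ (Pz ⌊L / 10⌋₊).filter (fun p => ¬ p ∣ x.1), (1 - 1 / (p : ℝ)) ≤
          ∑ x ∈ 𝓛, V ⌊L / 10⌋₊ * ((x.1 : ℝ) / (Nat.totient x.1 : ℝ)) := by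
          apply sum_le_sum
          intro x hx
          exact prodM x.1 _ (by have := (h𝓛 x hx).1; omega)
      _ = (∑ x ∈ 𝓛, (x.1 : ℝ) / (Nat.totient x.1 : ℝ)) * V ⌊L / 10⌋₊ := by
          rw [← mul_sum, mul_comm]
      _ ≤ c₀ / (2 * c₂) * (L * Real.log L) * V ⌊L / 10⌋₊ := by gcongr
      _ = c₀ / c₂ * L * (V ⌊L / 10⌋₊ * (Real.log L / 2)) := by
        field_simp
      _ ≤ c₀ / c₂ * L * c₂ := by gcongr
      _ = c₀ * L := by field_simp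
  have hA2 : (𝓛.card : ℝ) ≤ L ^ 2 := by
    have h1 : (𝓛.card : ℝ) ≤ ∑ x ∈ 𝓛, (x.1 : ℝ) / (Nat.totient x.1 : ℝ) := by
      calc (𝓛.card : ℝ) = ∑ _x ∈ 𝓛, (1 : ℝ) := by rw [sum_const, nsmul_eq_mul, mul_one]
        _ ≤ _ := sum_le_sum fun x hx => one_le_ratio x.1 (h𝓛 x hx).1
    refine h1.trans (hsum.trans ?_)
    have h1 : min (c₀ / (2 * c₂)) 1 ≤ 1 := min_le_right _ _
    have h2 : 0 ≤ L * Real.log L := by positivity
    calc min (c₀ / (2 * c₂)) 1 * (L * Real.log L) ≤ 1 * (L * Real.log L) := by gcongr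
      _ ≤ 1 * (L * L) := by gcongr
      _ = L ^ 2 := by ring
  obtain ⟨n, h1, h2, _, h3⟩ := hass X hX1 𝓛 hA2 h𝓛 b hS z
  exact ⟨n, h1, h2, h3⟩

end Pool.Agent.Helper123.SM
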