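import Pool.Agent.Helper123.SM.Med2

set_option autoImplicit false
set_option maxHeartbeats 4000000

/-! # Simultaneous record gaps around the multiples `α n`, with windows around arbitrary forms -/

namespace Pool.Agent.Helper123.SM

open Finset Filter Pool.Agent.H318R2.Cr Pool.Agent.H361R2.PA

open scoped Classical

/-- `(log y)^4` is below the bound for the small primes -/
theorem kv (y : ℝ) (hl0 : 0 < Real.log y) (ht : 240 ≤ Real.log (Real.log y)) :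
    ⌊(Real.log y) ^ 4⌋₊ ≤ ⌊Real.exp (WW y)⌋₊ := by
  set t := Real.log (Real.log y) with htdef
  apply Nat.floor_le_floor
  have h1 : Real.log y = Real.exp t := (Real.exp_log hl0).symm
  have h2 : (Real.log y) ^ 4 = Real.exp (4 * t) := by
    rw [h1, ← Real.exp_nat_mul]
    norm_num
  rw [h2]
  apply Real.exp_le_exp.2
  unfold WW
  rw [← htdef, h1, le_div_iff₀ (by positivity)]
  have h3 := Real.pow_div_factorial_le_exp t (by linarith) 3
  have h4 : (Nat.factorial 3 : ℝ) = 6 := by norm_num [Nat.factorial]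
  rw [h4] at h3
  have h5 : 1 ≤ Real.log t := by
    rw [← Real.log_exp 1]
    apply Real.log_le_log (Real.exp_pos _)
    have := Real.exp_one_lt_d9
    linarith
  have h6 : 4 * t * (10 * t) ≤ t ^ 3 / 6 := by
    have e1 : t ^ 3 / 6 - 4 * t * (10 * t) = t ^ 2 * (t - 240) / 6 := by ring
    have e2 : 0 ≤ t ^ 2 * (t - 240) / 6 := by
      have : 0 ≤ t - 240 := by linarith
      positivity
    linarith
  have h7 : Real.exp t * 1 ≤ Real.exp t * Real.log t := by gcongr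
  linarith

theorem multS2 (D : ℕ) : ∃ c : ℝ, 0 < c ∧ ∃ X₀ : ℝ, ∀ X : ℝ, X₀ ≤ X →
    ∀ (𝒜 : Finset ℕ) (K : ℕ → ℝ),
    (∀ α ∈ 𝒜, 1 ≤ α ∧ Real.log α ≤ (Real.log X) ^ (D + 1) ∧ Real.log X ≤ K α) →
    ∑ α ∈ 𝒜, K α * Lam X α ≤ c * FF 1 X →
    ∀ (𝓦 : Finset (ℕ × ℤ)) (H : ℕ × ℤ → ℝ),
    (∀ w ∈ 𝓦, 1 ≤ w.1 ∧ Real.log w.1 ≤ (Real.log X) ^ (D + 1) ∧
      |(w.2 : ℝ)| ≤ Real.exp ((Real.log X) ^ (D + 1)) ∧ Real.sqrt (Real.log X) ≤ H w) →
    ∀ 𝓛 : Finset (ℕ × ℤ),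
    (∀ x ∈ 𝓛, 1 ≤ x.1 ∧ Real.log x.1 ≤ (Real.log X) ^ (D + 1) ∧
      |(x.2 : ℝ)| ≤ Real.exp ((Real.log X) ^ (D + 1))) →
    ∑ w ∈ 𝓦, H w + ∑ x ∈ 𝓛, (x.1 : ℝ) / (Nat.totient x.1 : ℝ) ≤
      c * (Real.log X * Real.log (Real.log X) * Real.log (Real.log (Real.log (Real.log X))) /
        Real.log (Real.log (Real.log X))) →
    ∀ z : ℤ, ∃ n : ℤ, (z : ℝ) + X / 4 < n ∧ (n : ℝ) ≤ z + X ∧
      (∀ α ∈ 𝒜, ∀ j : ℤ, |(j : ℝ)| ≤ K α → ¬ Prime ((α : ℤ) * n + j)) ∧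
      (∀ w ∈ 𝓦, ∀ j : ℤ, |(j : ℝ)| ≤ H w → ¬ Prime ((w.1 : ℤ) * n + (w.2 + j))) ∧
      ∀ x ∈ 𝓛, ¬ Prime ((x.1 : ℤ) * n + x.2) := by
  obtain ⟨c₀, hc₀, X₁, hass⟩ := assembleS (D + 2)
  obtain ⟨c₁, c₂, hc₁, hc₁₂, hV⟩ := cz_bounds
  obtain ⟨y₀, hmed⟩ := card_medT
  obtain ⟨cF, hcF, X₂, hfacts⟩ := facts (10 * |y₀| + 10)
  set c' : ℝ := min (1 / 10) (c₀ / (284 * (cF / c₁) + cF + 1)) with hc'
  have hc'0 : 0 < c' := by positivity
  have hc'1 : c' ≤ 1 / 10 := min_le_left _ _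
  have hc'2 : c' ≤ c₀ / (284 * (cF / c₁) + cF + 1) := min_le_right _ _
  refine ⟨c', hc'0, max (max X₁ X₂) (Real.exp (Real.exp (Real.exp 400))), ?_⟩
  intro X hX 𝒜 K h𝒜 hsum 𝓦 H h𝓦 𝓛 h𝓛 hsumW z
  have hX12 : max X₁ X₂ ≤ X := (le_max_left _ _).trans hX
  have hX1 : X₁ ≤ X := (le_max_left _ _).trans hX12
  have hXe : Real.exp (Real.exp (Real.exp 400)) ≤ X := (le_max_right _ _).trans hX
  obtain ⟨hX0, g1, g2, g3, g4, g5, g6, g7, g8, g9, g10, g11, g12, g13, g14⟩ :=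
    hfacts X ((le_max_right _ _).trans hX12)
  set L1 := Real.log X with hL1
  set u₂ := Real.log L1 with hu₂
  set u₃ := Real.log u₂ with hu₃
  set u₄ := Real.log u₃ with hu₄
  set y := L1 / 10 with hy
  have hL10 : 0 < L1 := by linarith
  have hy0 : 0 < y := by rw [hy]; linarith
  have hu₃0 : 0 < u₃ := by linarith
  have hu₂0 : 0 < u₂ := by linarith
  have hu₄0 : 0 < u₄ := by linarith
  have hu₃400 : 400 ≤ u₃ := by
    have e1 : Real.exp (Real.exp 400) ≤ L1 := by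
      rw [hL1, ← Real.log_exp (Real.exp (Real.exp 400))]
      exact Real.log_le_log (Real.exp_pos _) hXe
    have e2 : Real.exp 400 ≤ u₂ := by
      rw [hu₂, ← Real.log_exp (Real.exp 400)]
      exact Real.log_le_log (Real.exp_pos _) e1
    rw [hu₃, ← Real.log_exp 400]
    exact Real.log_le_log (Real.exp_pos _) e2
  have hu₂big : 400 ≤ u₂ := hu₃400.trans g5
  have hlogy : 0 < Real.log y := by linarith
  have hloglogy : 240 ≤ Real.log (Real.log y) := by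
    have e1 : Real.log (u₂ / 2) ≤ Real.log (Real.log y) := Real.log_le_log (by linarith) g11
    have e2 : Real.log (u₂ / 2) = u₃ - Real.log 2 := by
      rw [Real.log_div hu₂0.ne' (by norm_num)]
    have e3 := Real.log_two_lt_d9
    linarith
  have hFF : FF 1 X = L1 * (u₂ * u₄ / u₃) * (u₂ / u₃) := by
    unfold FF
    rw [← hL1, ← hu₂, ← hu₃, ← hu₄]
    field_simp
    ring
  have hFF0 : 0 < FF 1 X := by rw [hFF]; positivity
  set F := c' * FF 1 X with hF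
  have hF0 : 0 < F := by positivity
  have hyab : 0 ≤ |y₀| := abs_nonneg _
  have hF2 : F ≤ L1 * u₂ ^ 2 / 10 := by
    rw [hF, hFF]
    have h1 : u₂ * u₄ / u₃ ≤ u₂ := by
      rw [div_le_iff₀ hu₃0]
      gcongr
    have h2 : u₂ / u₃ ≤ u₂ := div_le_self hu₂0.le (by linarith)
    calc c' * (L1 * (u₂ * u₄ / u₃) * (u₂ / u₃)) ≤ 1 / 10 * (L1 * u₂ * u₂) := by
          gcongr
      _ = _ := by ring
  have hu2sq : 1 ≤ u₂ ^ 2 := by
    calc (1 : ℝ) ≤ 160 ^ 2 := by norm_num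
      _ ≤ u₂ ^ 2 := by gcongr
  have hLu0 : 0 ≤ L1 * u₂ ^ 2 := by positivity
  have hgle : c' * (L1 * u₂ * u₄ / u₃) ≤ L1 * u₂ ^ 2 / 10 := by
    have h2 : L1 * u₂ * u₄ / u₃ ≤ L1 * u₂ ^ 2 := by
      rw [div_le_iff₀ hu₃0]
      have e2 : L1 * u₂ * u₄ ≤ L1 * u₂ * u₃ := by gcongr
      have e3 : L1 * u₂ * u₃ * 1 ≤ L1 * u₂ * u₃ * u₂ := by
        apply mul_le_mul_of_nonneg_left (by linarith) (by positivity)
      have e4 : L1 * u₂ * u₃ * u₂ = L1 * u₂ ^ 2 * u₃ := by ring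
      linarith
    have h4 : c' * (L1 * u₂ * u₄ / u₃) ≤ 1 / 10 * (L1 * u₂ ^ 2) := by gcongr
    linarith
  -- the lengths
  have hKα0 : ∀ α ∈ 𝒜, 0 ≤ K α := fun α hα => by linarith [(h𝒜 α hα).2.2]
  have hKle : ∀ α ∈ 𝒜, K α ≤ F := by
    intro α hα
    refine le_trans ?_ hsum
    have h1 : K α * Lam X α ≤ ∑ α ∈ 𝒜, K α * Lam X α :=
      single_le_sum (f := fun α : ℕ => K α * Lam X α)
        (fun i hi => mul_nonneg (hKα0 i hi) (by linarith [one_le_Lam X i])) hα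
    refine le_trans ?_ h1
    have h2 := one_le_Lam X α
    have h3 := hKα0 α hα
    nlinarith
  have hLF : ∀ α ∈ 𝒜, ((⌊K α⌋₊ : ℕ) : ℝ) ≤ K α := fun α hα => Nat.floor_le (hKα0 α hα)
  have hyL : ∀ α ∈ 𝒜, y ≤ (⌊K α⌋₊ : ℝ) := by
    intro α hα
    have h1 : K α < (⌊K α⌋₊ : ℝ) + 1 := Nat.lt_floor_add_one _
    have h2 := (h𝒜 α hα).2.2
    rw [hy]
    linarith
  have hLbig : ∀ α ∈ 𝒜, ((⌊K α⌋₊ : ℕ) : ℝ) ≤ L1 * u₂ ^ 2 := by
    intro α hα
    have h1 := hLF α hα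
    have h2 := hKle α hα
    linarith
  have hLy : ∀ α ∈ 𝒜, ((⌊K α⌋₊ : ℕ) : ℝ) ≤ y * (Real.log y) ^ 4 := by
    intro α hα
    refine (hLbig α hα).trans ?_
    have h1 : (u₂ / 2) ^ 4 ≤ (Real.log y) ^ 4 := by gcongr
    have h2 : 10 * u₂ ^ 2 ≤ (u₂ / 2) ^ 4 := by
      have e1 : 0 ≤ u₂ ^ 2 := by positivity
      have e : (u₂ / 2) ^ 4 = u₂ ^ 2 * u₂ ^ 2 / 16 := by ring
      have e0 : 160 ≤ u₂ ^ 2 := by
        calc (160 : ℝ) ≤ 160 ^ 2 := by norm_num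
          _ ≤ u₂ ^ 2 := by gcongr
      rw [e, le_div_iff₀ (by norm_num)]
      calc 10 * u₂ ^ 2 * 16 = 160 * u₂ ^ 2 := by ring
        _ ≤ u₂ ^ 2 * u₂ ^ 2 := mul_le_mul_of_nonneg_right e0 e1
    have h3 : L1 = 10 * y := by rw [hy]; ring
    calc L1 * u₂ ^ 2 = y * (10 * u₂ ^ 2) := by rw [h3]; ring
      _ ≤ y * (Real.log y) ^ 4 := by gcongr; linarith
  have hyy : y₀ ≤ y := by
    have := le_abs_self y₀
    rw [hy]
    linarith
  have hLu3 : u₂ ^ 3 ≤ L1 := by linarith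
  set v : ℕ := ⌊Real.exp (WW y)⌋₊ with hv
  set k : ℕ := ⌊(Real.log y) ^ 4⌋₊ with hk
  have hvle : (v : ℝ) ≤ Real.exp (WW y) := Nat.floor_le (Real.exp_pos _).le
  have hvy : (v : ℝ) ≤ y := by
    refine hvle.trans ?_
    calc Real.exp (WW y) ≤ Real.exp (Real.log y) := Real.exp_le_exp.2 g10
      _ = y := Real.exp_log hy0
  have hkv : k ≤ v := kv y hlogy hloglogy
  have hk3 : u₂ ^ 3 ≤ (k : ℝ) := by
    have e1 : (Real.log y) ^ 4 < (k : ℝ) + 1 := Nat.lt_floor_add_one _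
    have e2 : (u₂ / 2) ^ 4 ≤ (Real.log y) ^ 4 := by gcongr
    have e3 : (u₂ / 2) ^ 4 = u₂ ^ 3 * (u₂ / 16) := by ring
    have e4 : (1 : ℝ) ≤ u₂ ^ 3 := one_le_pow₀ (by linarith)
    have e5 : u₂ ^ 3 * 2 ≤ u₂ ^ 3 * (u₂ / 16) := by
      apply mul_le_mul_of_nonneg_left _ (by positivity)
      linarith
    linarith
  have hk2 : 2 ≤ k := by
    have e1 : (2 : ℝ) ≤ u₂ ^ 3 := by
      calc (2 : ℝ) ≤ 400 ^ 3 := by norm_num
        _ ≤ u₂ ^ 3 := by gcongr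
    have : (2 : ℝ) ≤ k := e1.trans hk3
    exact_mod_cast this
  have hv2 : 2 ≤ v := hk2.trans hkv
  have hv2r : (2 : ℝ) ≤ v := by exact_mod_cast hv2
  have hlogv : 0 < Real.log v := Real.log_pos (by linarith)
  have hk2r : (2 : ℝ) ≤ k := by exact_mod_cast hk2
  have hVk : 1 / V k ≤ 4 * u₃ / c₁ := by
    have e1 := (hV k hk2).1
    have e2 := V_pos k
    have e3 : Real.log k ≤ 4 * u₃ := by
      have h1 : (k : ℝ) ≤ (Real.log y) ^ 4 := Nat.floor_le (by positivity)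
      have h2 := Real.log_le_log (by linarith) h1
      rw [Real.log_pow] at h2
      push_cast at h2
      linarith
    rw [div_le_div_iff₀ e2 hc₁]
    have e4 : V k * Real.log k ≤ V k * (4 * u₃) := by gcongr
    linarith
  have hVv : V v ≤ cF * u₃ / (u₂ * u₄) := g14
  have hV0 : 0 ≤ V v := (V_pos v).le
  have hinvv : 1 / Real.log v ≤ (cF / c₁) * (u₃ / (u₂ * u₄)) := by
    have e1 := (hV v hv2).1
    have e2 : 1 / Real.log v ≤ V v / c₁ := by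
      rw [div_le_div_iff₀ hlogv hc₁]
      linarith
    refine e2.trans ?_
    calc V v / c₁ ≤ (cF * u₃ / (u₂ * u₄)) / c₁ := by gcongr
      _ = _ := by ring
  -- the windows around the multiples
  set A : Finset (ℕ × ℤ) := 𝒜.biUnion (fun α =>
    (Icc (-((⌊K α⌋₊ : ℕ) : ℤ)) ((⌊K α⌋₊ : ℕ) : ℤ)).image (fun j => (α, j))) with hA
  have hmemA : ∀ x : ℕ × ℤ, x ∈ A ↔ x.1 ∈ 𝒜 ∧ -((⌊K x.1⌋₊ : ℕ) : ℤ) ≤ x.2 ∧
      x.2 ≤ ((⌊K x.1⌋₊ : ℕ) : ℤ) := by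
    intro x
    rw [hA, mem_biUnion]
    constructor
    · rintro ⟨α, hα, hx⟩
      rw [mem_image] at hx
      obtain ⟨j, hj, rfl⟩ := hx
      rw [mem_Icc] at hj
      exact ⟨hα, hj⟩
    · rintro ⟨h1, h2⟩
      exact ⟨x.1, h1, mem_image.2 ⟨x.2, mem_Icc.2 h2, rfl⟩⟩
  set J0 : ℕ → Finset ℤ := fun α =>
    (Icc (-((⌊K α⌋₊ : ℕ) : ℤ)) ((⌊K α⌋₊ : ℕ) : ℤ)).filter (fun a => (∀ p : ℕ, p.Prime →
      (p : ℝ) ≤ y → WW y < Real.log p → ¬ (p : ℤ) ∣ a) ∧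
      ∀ p ∈ (Pz v).filter (fun p => p ∣ α), ¬ (p : ℤ) ∣ a) with hJ0
  set A0 : Finset (ℕ × ℤ) := 𝒜.biUnion (fun α => (J0 α).image (fun j => (α, j))) with hA0def
  have hJ0c : ∀ α ∈ 𝒜, ((J0 α).card : ℝ) *
      ∏ p ∈ (Pz v).filter (fun p => ¬ p ∣ α), (1 - 1 / (p : ℝ)) ≤
      (176 * (cF / c₁) + 1) * (u₃ ^ 2 / (u₂ ^ 2 * u₄)) * (K α * Lam X α) := by
    intro α hα
    set T := (Pz v).filter (fun p => p ∣ α) with hT
    set R := (NM y ⌊K α⌋₊).filter (fun m => ∀ p ∈ T, ¬ p ∣ m) with hR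
    have h1 : J0 α ⊆ ((R.image (fun m : ℕ => (m : ℤ))) ∪
        (R.image (fun m : ℕ => -(m : ℤ)))) ∪ {0} := by
      intro a ha
      rw [hJ0, mem_filter, mem_Icc] at ha
      obtain ⟨ha1, ha2, ha3⟩ := ha
      rw [mem_union, mem_union, mem_image, mem_image, mem_singleton]
      by_cases h0 : a = 0
      · right; exact h0
      · left
        have hN : a.natAbs ∈ R := by
          rw [hR, mem_filter]
          refine ⟨?_, fun p hp hpa => ha3 p hp (Int.natCast_dvd.2 hpa)⟩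
          rw [NM, mem_filter, mem_Icc]
          refine ⟨⟨by omega, by omega⟩, fun p hp hpa => ?_⟩
          by_contra hcon
          push Not at hcon
          exact ha2 p hp hcon.1 hcon.2 (Int.natCast_dvd.2 hpa)
        rcases le_total 0 a with h | h
        · left; exact ⟨a.natAbs, hN, by omega⟩
        · right; exact ⟨a.natAbs, hN, by omega⟩
    have h2 : (J0 α).card ≤ (R.card + R.card) + 1 := by
      refine (card_le_card h1).trans ((card_union_le _ _).trans ?_)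
      have e1 := card_union_le (R.image (fun m : ℕ => (m : ℤ)))
        (R.image (fun m : ℕ => -(m : ℤ)))
      have e2 : (R.image (fun m : ℕ => (m : ℤ))).card ≤ R.card := card_image_le
      have e3 : (R.image (fun m : ℕ => -(m : ℤ))).card ≤ R.card := card_image_le
      rw [card_singleton]
      omega
    have h3 : ((J0 α).card : ℝ) ≤ ((R.card : ℝ) + (R.card : ℝ)) + 1 := by
      exact_mod_cast h2
    set W := ∏ p ∈ (Pz v).filter (fun p => ¬ p ∣ α), (1 - 1 / (p : ℝ)) with hW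
    set E := ∏ p ∈ (Pz k).filter (fun p => p ∉ T), (1 - 1 / (p : ℝ))⁻¹ with hE
    have hW0 : 0 ≤ W := prod_nonneg fun p hp =>
      (one_sub_inv_pos (mem_Pz.1 (mem_filter.1 hp).1).1).le
    have hE0 : 0 ≤ E := prod_nonneg fun p hp =>
      (inv_pos.2 (one_sub_inv_pos (mem_Pz.1 (mem_filter.1 hp).1).1)).le
    have hW1 : W ≤ 1 := prodM_one α v
    have hR1 : (R.card : ℝ) ≤ 11 * (((⌊K α⌋₊ : ℕ) : ℝ) / Real.log y) * E :=
      hmed y hyy _ (hyL α hα) (hLy α hα) T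
    have hK0 := hKα0 α hα
    have hΛ := one_le_Lam X α
    have hEW : E * W ≤ 4 * (cF / c₁) * (u₃ ^ 2 / (u₂ * u₄)) * Lam X α := by
      have e1 : E * W * V k ≤ V v * Lam X α :=
        prod_small X α k v (h𝒜 α hα).1 hkv (by rw [← hL1]; linarith) (by
          rw [← hL1, ← hu₂]; exact hk3)
      have e2 := V_pos k
      have e3 : E * W ≤ V v * Lam X α * (1 / V k) := by
        rw [mul_one_div, le_div_iff₀ e2]
        exact e1
      have e4 : 0 ≤ 1 / V k := by positivity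
      calc E * W ≤ V v * Lam X α * (1 / V k) := e3
        _ ≤ (cF * u₃ / (u₂ * u₄)) * Lam X α * (4 * u₃ / c₁) := by gcongr
        _ = _ := by ring
    have hRW : (R.card : ℝ) * W ≤ 88 * (cF / c₁) * (u₃ ^ 2 / (u₂ ^ 2 * u₄)) * (K α * Lam X α) := by
      calc (R.card : ℝ) * W ≤ (11 * (((⌊K α⌋₊ : ℕ) : ℝ) / Real.log y) * E) * W := by gcongr
        _ = 11 * (((⌊K α⌋₊ : ℕ) : ℝ) / Real.log y) * (E * W) := by ring
        _ ≤ 11 * (K α / (u₂ / 2)) * (4 * (cF / c₁) * (u₃ ^ 2 / (u₂ * u₄)) * Lam X α) := by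
            have e0 := hLF α hα
            have e1 : ((⌊K α⌋₊ : ℕ) : ℝ) / Real.log y ≤ K α / (u₂ / 2) :=
              div_le_div₀ hK0 e0 (by linarith) g11
            have e2 : 0 ≤ E * W := mul_nonneg hE0 hW0
            have e3 : 0 ≤ 11 * (K α / (u₂ / 2)) := by positivity
            calc 11 * (((⌊K α⌋₊ : ℕ) : ℝ) / Real.log y) * (E * W) ≤
                11 * (K α / (u₂ / 2)) * (E * W) := by gcongr
              _ ≤ _ := mul_le_mul_of_nonneg_left hEW e3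
        _ = _ := by
            field_simp
            ring
    have h6 : 1 ≤ (u₃ ^ 2 / (u₂ ^ 2 * u₄)) * (K α * Lam X α) := by
      have e1 : u₂ ^ 3 ≤ K α := hLu3.trans (h𝒜 α hα).2.2
      have e2 : u₂ ^ 3 * 1 ≤ K α * Lam X α := mul_le_mul e1 hΛ (by norm_num) hK0
      have e3 : (u₃ ^ 2 / (u₂ ^ 2 * u₄)) * (u₂ ^ 3 * 1) ≤
          (u₃ ^ 2 / (u₂ ^ 2 * u₄)) * (K α * Lam X α) := by gcongr
      refine le_trans ?_ e3
      rw [div_mul_eq_mul_div, le_div_iff₀ (by positivity), one_mul]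
      have e4 : u₂ ^ 2 * u₄ ≤ u₂ ^ 2 * u₃ := by gcongr
      have e5 : u₃ * u₂ ^ 2 * 1 ≤ u₃ * u₂ ^ 2 * (u₃ * u₂) := by
        apply mul_le_mul_of_nonneg_left _ (by positivity)
        nlinarith
      have e6 : u₃ * u₂ ^ 2 * (u₃ * u₂) = u₃ ^ 2 * (u₂ ^ 3 * 1) := by ring
      linarith
    calc ((J0 α).card : ℝ) * W ≤ (((R.card : ℝ) + (R.card : ℝ)) + 1) * W := by gcongr
      _ = 2 * ((R.card : ℝ) * W) + W := by ring
      _ ≤ 2 * (88 * (cF / c₁) * (u₃ ^ 2 / (u₂ ^ 2 * u₄)) * (K α * Lam X α)) +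
          (u₃ ^ 2 / (u₂ ^ 2 * u₄)) * (K α * Lam X α) := by linarith
      _ = _ := by ring
  -- the windows around the other forms
  have hH0 : ∀ w ∈ 𝓦, 0 ≤ H w := fun w hw => (Real.sqrt_nonneg _).trans (h𝓦 w hw).2.2.2
  have hratio0 : 0 ≤ ∑ x ∈ 𝓛, (x.1 : ℝ) / (Nat.totient x.1 : ℝ) :=
    sum_nonneg fun x _ => by positivity
  have hHsum0 : 0 ≤ ∑ w ∈ 𝓦, H w := sum_nonneg hH0
  have hsq100 : 100 ≤ Real.sqrt L1 := by
    rw [show (100 : ℝ) = Real.sqrt 10000 by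
      rw [show (10000 : ℝ) = 100 ^ 2 by norm_num, Real.sqrt_sq (by norm_num)]]
    exact Real.sqrt_le_sqrt g1
  have hHF : ∀ w ∈ 𝓦, ((⌊H w⌋₊ : ℕ) : ℝ) ≤ H w := fun w hw => Nat.floor_le (hH0 w hw)
  have hHle : ∀ w ∈ 𝓦, H w ≤ L1 * u₂ ^ 2 / 10 := by
    intro w hw
    have h1 : H w ≤ ∑ w ∈ 𝓦, H w := single_le_sum hH0 hw
    linarith
  have hnlow : ∀ w ∈ 𝓦, Real.sqrt v ≤ (⌊H w⌋₊ : ℝ) ∧ 2 ≤ ⌊H w⌋₊ := by
    intro w hw
    have h1 : H w < (⌊H w⌋₊ : ℝ) + 1 := Nat.lt_floor_add_one _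
    have h2 := (h𝓦 w hw).2.2.2
    have h3 : Real.sqrt v ≤ Real.sqrt L1 / 3 := by
      have e1 : Real.sqrt v ≤ Real.sqrt (L1 / 9) := Real.sqrt_le_sqrt (by
        rw [hy] at hvy
        linarith)
      have e2 : Real.sqrt (L1 / 9) = Real.sqrt L1 / 3 := by
        rw [Real.sqrt_div (by linarith), show (9 : ℝ) = 3 ^ 2 by norm_num,
          Real.sqrt_sq (by norm_num)]
      linarith
    refine ⟨by linarith, ?_⟩
    have h4 : (2 : ℝ) ≤ (⌊H w⌋₊ : ℝ) := by linarith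
    exact_mod_cast h4
  set I0 : ℕ × ℤ → Finset ℤ := fun w => Icc (w.2 - (⌊H w⌋₊ : ℕ)) (w.2 + (⌊H w⌋₊ : ℕ)) with hI0
  set A' : Finset (ℕ × ℤ) := 𝓦.biUnion (fun w => (I0 w).image (fun a => (w.1, a))) with hA'
  set J1 : ℕ × ℤ → Finset ℤ := fun w => (I0 w).filter (fun a =>
      ∀ p ∈ (Pz v).filter (fun p => p ∣ w.1), ¬ (p : ℤ) ∣ a) with hJ1
  set A1 : Finset (ℕ × ℤ) := 𝓦.biUnion (fun w => (J1 w).image (fun a => (w.1, a))) with hA1def
  have hJ1c : ∀ w ∈ 𝓦, ((J1 w).card : ℝ) *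
      ∏ p ∈ (Pz v).filter (fun p => ¬ p ∣ w.1), (1 - 1 / (p : ℝ)) ≤
      108 * ((cF / c₁) * (u₃ / (u₂ * u₄))) * H w := by
    intro w hw
    have h4 := window_int w.1 v ⌊H w⌋₊ w.2 hv2 (hnlow w hw).1 (hnlow w hw).2
    refine le_trans h4 ?_
    have h5 := hHF w hw
    have h6 := hH0 w hw
    calc 108 * (((⌊H w⌋₊ : ℕ) : ℝ) / Real.log v) = 108 * (((⌊H w⌋₊ : ℕ) : ℝ) * (1 / Real.log v)) := by
          ring
      _ ≤ 108 * (H w * ((cF / c₁) * (u₃ / (u₂ * u₄)))) := by gcongr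
      _ = _ := by ring
  obtain ⟨b, hb⟩ := presieveW (Pz v) (fun p hp => (mem_Pz.1 hp).1) ((A0 ∪ A1) ∪ 𝓛)
  set b' : ℕ → ℕ := fun p => if Real.log p ≤ WW y then b p else 0 with hb'
  have hpair : ∀ (α : ℕ), Function.Injective (fun j : ℤ => (α, j)) := by
    intro α a b h
    exact (Prod.mk.inj h).2
  have hS : (((((A ∪ A') ∪ 𝓛).filter (fun x => ∀ p : ℕ, p.Prime → (p : ℝ) ≤ L1 / 10 →
      ¬ (p : ℤ) ∣ (x.1 : ℤ) * (b' p : ℤ) + x.2)).card : ℕ) : ℝ) ≤ c₀ * L1 := by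
    have h1 : (((A ∪ A') ∪ 𝓛).filter (fun x => ∀ p : ℕ, p.Prime → (p : ℝ) ≤ L1 / 10 →
        ¬ (p : ℤ) ∣ (x.1 : ℤ) * (b' p : ℤ) + x.2)) ⊆
        ((A0 ∪ A1) ∪ 𝓛).filter (fun x => ∀ p ∈ Pz v,
          ¬ (p : ℤ) ∣ (x.1 : ℤ) * (b p : ℤ) + x.2) := by
      intro x hx
      rw [mem_filter] at hx
      obtain ⟨hxA, hsur⟩ := hx
      have hsmall : ∀ p ∈ Pz v, ¬ (p : ℤ) ∣ (x.1 : ℤ) * (b p : ℤ) + x.2 := by
        intro p hp
        rw [mem_Pz] at hp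
        obtain ⟨hpp, hpv⟩ := hp
        have hp0 : (0 : ℝ) < p := by exact_mod_cast hpp.pos
        have hpvr : (p : ℝ) ≤ v := by exact_mod_cast hpv
        have h2 : (p : ℝ) ≤ Real.exp (WW y) := hpvr.trans hvle
        have h3 : Real.log p ≤ WW y := by rwa [Real.log_le_iff_le_exp hp0]
        have h4 : (p : ℝ) ≤ y := hpvr.trans hvy
        have h5 := hsur p hpp h4
        have h6 : b' p = b p := by
          rw [hb']
          simp only [h3, if_true]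
        rwa [h6] at h5
      rw [mem_filter]
      refine ⟨?_, hsmall⟩
      rw [mem_union, mem_union] at hxA ⊢
      rcases hxA with (hxA | hxA) | hxA
      · left; left
        rw [hmemA] at hxA
        rw [hA0def, mem_biUnion]
        refine ⟨x.1, hxA.1, mem_image.2 ⟨x.2, ?_, rfl⟩⟩
        rw [hJ0, mem_filter, mem_Icc]
        refine ⟨hxA.2, ?_, ?_⟩
        · intro p hp hpy hpW hpa
          apply hsur p hp hpy
          have h4 : b' p = 0 := by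
            rw [hb']
            simp only [not_le.2 hpW, if_false]
          rw [h4]
          simpa using hpa
        · intro p hp hpa
          rw [mem_filter] at hp
          apply hsmall p hp.1
          have e1 : (p : ℤ) ∣ (x.1 : ℤ) := Int.natCast_dvd_natCast.2 hp.2
          exact dvd_add (e1.mul_right _) hpa
      · left; right
        rw [hA', mem_biUnion] at hxA
        obtain ⟨w, hw, hx⟩ := hxA
        rw [mem_image] at hx
        obtain ⟨a, ha, rfl⟩ := hx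
        rw [hA1def, mem_biUnion]
        refine ⟨w, hw, mem_image.2 ⟨a, ?_, rfl⟩⟩
        rw [hJ1, mem_filter]
        refine ⟨ha, ?_⟩
        intro p hp hpa
        rw [mem_filter] at hp
        apply hsmall p hp.1
        have e1 : (p : ℤ) ∣ (w.1 : ℤ) := Int.natCast_dvd_natCast.2 hp.2
        exact dvd_add (e1.mul_right _) hpa
      · right; exact hxA
    have h2 : (((((A ∪ A') ∪ 𝓛).filter (fun x => ∀ p : ℕ, p.Prime → (p : ℝ) ≤ L1 / 10 →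
        ¬ (p : ℤ) ∣ (x.1 : ℤ) * (b' p : ℤ) + x.2)).card : ℕ) : ℝ) ≤
        ((((A0 ∪ A1) ∪ 𝓛).filter (fun x => ∀ p ∈ Pz v,
          ¬ (p : ℤ) ∣ (x.1 : ℤ) * (b p : ℤ) + x.2)).card : ℝ) := by
      exact_mod_cast card_le_card h1
    refine h2.trans (hb.trans ?_)
    set wt : ℕ × ℤ → ℝ := fun x => ∏ p ∈ (Pz v).filter (fun p => ¬ p ∣ x.1), (1 - 1 / (p : ℝ))
      with hwt
    have hw0 : ∀ x : ℕ × ℤ, 0 ≤ wt x :=
      fun x => prod_nonneg fun p hp => (one_sub_inv_pos (mem_Pz.1 (mem_filter.1 hp).1).1).le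
    have hun : ∀ s t : Finset (ℕ × ℤ), ∑ x ∈ s ∪ t, wt x ≤ ∑ x ∈ s, wt x + ∑ x ∈ t, wt x := by
      intro s t
      rw [← sum_union_inter (s₁ := s) (s₂ := t)]
      have := sum_nonneg (s := s ∩ t) (f := wt) (fun x _ => hw0 x)
      linarith
    have hL𝓛 : ∑ x ∈ 𝓛, wt x ≤
        (cF * (u₃ / (u₂ * u₄))) * ∑ x ∈ 𝓛, (x.1 : ℝ) / (Nat.totient x.1 : ℝ) := by
      calc ∑ x ∈ 𝓛, wt x ≤
            ∑ x ∈ 𝓛, V v * ((x.1 : ℝ) / (Nat.totient x.1 : ℝ)) := by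
            apply sum_le_sum
            intro x hx
            exact prodM x.1 v (by have := (h𝓛 x hx).1; omega)
        _ = V v * ∑ x ∈ 𝓛, (x.1 : ℝ) / (Nat.totient x.1 : ℝ) := by rw [mul_sum]
        _ ≤ (cF * u₃ / (u₂ * u₄)) * ∑ x ∈ 𝓛, (x.1 : ℝ) / (Nat.totient x.1 : ℝ) := by gcongr
        _ = _ := by ring
    have hA0s : ∑ x ∈ A0, wt x ≤ (176 * (cF / c₁) + 1) * (u₃ ^ 2 / (u₂ ^ 2 * u₄)) *
        ∑ α ∈ 𝒜, K α * Lam X α := by
      rw [hA0def]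
      refine (sum_biUnion_le' _ _ _ hw0).trans ?_
      rw [mul_sum]
      apply sum_le_sum
      intro α hα
      rw [sum_image (fun a _ b _ h => hpair α h)]
      show ∑ _j ∈ J0 α, ∏ p ∈ (Pz v).filter (fun p => ¬ p ∣ α), (1 - 1 / (p : ℝ)) ≤ _
      rw [sum_const, nsmul_eq_mul]
      exact hJ0c α hα
    have hA1s : ∑ x ∈ A1, wt x ≤ 108 * ((cF / c₁) * (u₃ / (u₂ * u₄))) * ∑ w ∈ 𝓦, H w := by
      rw [hA1def]
      refine (sum_biUnion_le' _ _ _ hw0).trans ?_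
      rw [mul_sum]
      apply sum_le_sum
      intro w hw
      rw [sum_image (fun a _ b _ h => hpair w.1 h)]
      show ∑ _j ∈ J1 w, ∏ p ∈ (Pz v).filter (fun p => ¬ p ∣ w.1), (1 - 1 / (p : ℝ)) ≤ _
      rw [sum_const, nsmul_eq_mul]
      exact hJ1c w hw
    set S₁ := ∑ w ∈ 𝓦, H w with hS₁
    set S₂ := ∑ x ∈ 𝓛, (x.1 : ℝ) / (Nat.totient x.1 : ℝ) with hS₂
    have t1 : (176 * (cF / c₁) + 1) * (u₃ ^ 2 / (u₂ ^ 2 * u₄)) *
        ∑ α ∈ 𝒜, K α * Lam X α ≤ (176 * (cF / c₁) + 1) * (c' * L1) := by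
      calc _ ≤ (176 * (cF / c₁) + 1) * (u₃ ^ 2 / (u₂ ^ 2 * u₄)) * (c' * FF 1 X) := by gcongr
        _ = _ := by
          rw [hFF]
          field_simp
    have t2 : 108 * ((cF / c₁) * (u₃ / (u₂ * u₄))) * S₁ + (cF * (u₃ / (u₂ * u₄))) * S₂ ≤
        (108 * (cF / c₁) + cF) * (c' * L1) := by
      calc 108 * ((cF / c₁) * (u₃ / (u₂ * u₄))) * S₁ + (cF * (u₃ / (u₂ * u₄))) * S₂ ≤
            (108 * (cF / c₁) + cF) * (u₃ / (u₂ * u₄)) * (S₁ + S₂) := by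
            have e1 : 0 ≤ cF * (u₃ / (u₂ * u₄)) * S₁ := by positivity
            have e2 : 0 ≤ 108 * (cF / c₁) * (u₃ / (u₂ * u₄)) * S₂ := by positivity
            have e3 : (108 * (cF / c₁) + cF) * (u₃ / (u₂ * u₄)) * (S₁ + S₂) =
              108 * ((cF / c₁) * (u₃ / (u₂ * u₄))) * S₁ + (cF * (u₃ / (u₂ * u₄))) * S₂ +
              cF * (u₃ / (u₂ * u₄)) * S₁ + 108 * (cF / c₁) * (u₃ / (u₂ * u₄)) * S₂ := by ring
            linarith
        _ ≤ (108 * (cF / c₁) + cF) * (u₃ / (u₂ * u₄)) * (c' * (L1 * u₂ * u₄ / u₃)) := by gcongr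
        _ = _ := by field_simp
    have t3 : (176 * (cF / c₁) + 1) * (c' * L1) + (108 * (cF / c₁) + cF) * (c' * L1) ≤
        c₀ * L1 := by
      have e1 : (176 * (cF / c₁) + 1) * (c' * L1) + (108 * (cF / c₁) + cF) * (c' * L1) =
          (284 * (cF / c₁) + cF + 1) * c' * L1 := by ring
      rw [e1]
      calc (284 * (cF / c₁) + cF + 1) * c' * L1 ≤
            (284 * (cF / c₁) + cF + 1) * (c₀ / (284 * (cF / c₁) + cF + 1)) * L1 := by gcongr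
        _ = c₀ * L1 := by field_simp
    have t4 := hun (A0 ∪ A1) 𝓛
    have t5 := hun A0 A1
    show ∑ x ∈ (A0 ∪ A1) ∪ 𝓛, wt x ≤ _
    linarith
  have hone𝓛 : (𝓛.card : ℝ) ≤ ∑ x ∈ 𝓛, (x.1 : ℝ) / (Nat.totient x.1 : ℝ) := by
    calc (𝓛.card : ℝ) = ∑ _x ∈ 𝓛, (1 : ℝ) := by rw [sum_const, nsmul_eq_mul, mul_one]
      _ ≤ _ := sum_le_sum fun x hx => one_le_ratio x.1 (h𝓛 x hx).1
  have hLL2 : L1 * u₂ ^ 2 ≤ L1 ^ 2 := by
    have h3 : L1 * u₂ ^ 2 ≤ L1 * u₂ ^ 3 := by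
      have h6 : L1 * u₂ ^ 3 = u₂ * (L1 * u₂ ^ 2) := by ring
      rw [h6]
      have h9 : 1 * (L1 * u₂ ^ 2) ≤ u₂ * (L1 * u₂ ^ 2) :=
        mul_le_mul_of_nonneg_right (by linarith) hLu0
      linarith
    have h7 : L1 * u₂ ^ 3 ≤ L1 * L1 := mul_le_mul_of_nonneg_left hLu3 (by linarith)
    have h8 : L1 ^ 2 = L1 * L1 := by ring
    rw [h8]
    linarith
  have hAcard : ((((A ∪ A') ∪ 𝓛).card : ℕ) : ℝ) ≤ L1 ^ 2 := by
    have hcu : ((((A ∪ A') ∪ 𝓛).card : ℕ) : ℝ) ≤ A.card + A'.card + 𝓛.card := by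
      have e1 := card_union_le (A ∪ A') 𝓛
      have e2 := card_union_le A A'
      exact_mod_cast e1.trans (Nat.add_le_add_right e2 _)
    refine hcu.trans ?_
    have h1 : (A.card : ℝ) ≤ ∑ α ∈ 𝒜, 3 * (K α * Lam X α) := by
      calc (A.card : ℝ) ≤ ((∑ α ∈ 𝒜, ((Icc (-((⌊K α⌋₊ : ℕ) : ℤ)) ((⌊K α⌋₊ : ℕ) : ℤ)).image
            (fun j => (α, j))).card : ℕ) : ℝ) := by
            exact_mod_cast card_biUnion_le
        _ = ∑ α ∈ 𝒜, (((Icc (-((⌊K α⌋₊ : ℕ) : ℤ)) ((⌊K α⌋₊ : ℕ) : ℤ)).image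
            (fun j => (α, j))).card : ℝ) := by push_cast; rfl
        _ ≤ _ := by
          apply sum_le_sum
          intro α hα
          rw [card_image_of_injective _ (hpair α), Int.card_Icc]
          have e0 : (((⌊K α⌋₊ : ℕ) : ℤ) + 1 - -((⌊K α⌋₊ : ℕ) : ℤ)).toNat = 2 * ⌊K α⌋₊ + 1 := by
            omega
          rw [e0]
          push_cast
          have e1 := hLF α hα
          have e2 := (h𝒜 α hα).2.2
          have e3 := one_le_Lam X α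
          have e4 : K α * 1 ≤ K α * Lam X α :=
            mul_le_mul_of_nonneg_left e3 (hKα0 α hα)
          linarith
    have h1' : (A'.card : ℝ) ≤ ∑ w ∈ 𝓦, 3 * H w := by
      calc (A'.card : ℝ) ≤ ((∑ w ∈ 𝓦, ((I0 w).image (fun a => (w.1, a))).card : ℕ) : ℝ) := by
            exact_mod_cast card_biUnion_le
        _ = ∑ w ∈ 𝓦, (((I0 w).image (fun a => (w.1, a))).card : ℝ) := by push_cast; rfl
        _ ≤ _ := by
          apply sum_le_sum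
          intro w hw
          rw [card_image_of_injective _ (hpair w.1), hI0, Int.card_Icc]
          have e0 : (w.2 + ((⌊H w⌋₊ : ℕ) : ℤ) + 1 - (w.2 - ((⌊H w⌋₊ : ℕ) : ℤ))).toNat =
              2 * ⌊H w⌋₊ + 1 := by
            omega
          rw [e0]
          push_cast
          have e1 := hHF w hw
          have e2 := (h𝓦 w hw).2.2.2
          linarith
    rw [← mul_sum] at h1 h1'
    linarith
  have hLpow : L1 ^ (D + 1) + 1 ≤ L1 ^ (D + 2) := by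
    have e1 : L1 ^ (D + 2) = L1 ^ (D + 1) * L1 := pow_succ L1 (D + 1)
    have e2 : 1 ≤ L1 ^ (D + 1) := one_le_pow₀ (by linarith)
    rw [e1]
    nlinarith
  have hL2exp : L1 ^ 2 ≤ Real.exp (L1 ^ (D + 1)) := by
    have h3 : L1 ^ 2 ≤ Real.exp L1 := by
      have h4 := Real.pow_div_factorial_le_exp L1 (by linarith) 3
      have h5 : (Nat.factorial 3 : ℝ) = 6 := by norm_num [Nat.factorial]
      rw [h5] at h4
      refine le_trans ?_ h4
      rw [le_div_iff₀ (by norm_num)]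
      have : 0 ≤ L1 ^ 2 := by positivity
      nlinarith
    have h4 : Real.exp L1 ≤ Real.exp (L1 ^ (D + 1)) := by
      apply Real.exp_le_exp.2
      calc L1 = L1 ^ 1 := (pow_one _).symm
        _ ≤ L1 ^ (D + 1) := pow_le_pow_right₀ (by linarith) (by omega)
    linarith
  have hexp2 : 2 * Real.exp (L1 ^ (D + 1)) ≤ Real.exp (L1 ^ (D + 2)) := by
    have e1 : Real.exp (L1 ^ (D + 1) + 1) ≤ Real.exp (L1 ^ (D + 2)) := Real.exp_le_exp.2 hLpow
    rw [Real.exp_add] at e1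
    have e2 := Real.exp_one_gt_d9
    have e3 := Real.exp_pos (L1 ^ (D + 1))
    nlinarith
  have hAb : ∀ x ∈ (A ∪ A') ∪ 𝓛, 1 ≤ x.1 ∧ Real.log x.1 ≤ L1 ^ (D + 2) ∧
      |(x.2 : ℝ)| ≤ Real.exp (L1 ^ (D + 2)) := by
    intro x hx
    have hE0 := Real.exp_pos (L1 ^ (D + 1))
    rw [mem_union, mem_union] at hx
    rcases hx with (hx | hx) | hx
    · rw [hmemA] at hx
      obtain ⟨hx1, hx2, hx3⟩ := hx
      refine ⟨(h𝒜 _ hx1).1, by linarith [(h𝒜 _ hx1).2.1], ?_⟩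
      have h1 : |(x.2 : ℝ)| ≤ ((⌊K x.1⌋₊ : ℕ) : ℝ) := by
        rw [abs_le]
        constructor
        · have : ((-((⌊K x.1⌋₊ : ℕ) : ℤ) : ℤ) : ℝ) ≤ x.2 := by exact_mod_cast hx2
          push_cast at this
          exact this
        · exact_mod_cast hx3
      have h2 := hLbig x.1 hx1
      linarith
    · rw [hA', mem_biUnion] at hx
      obtain ⟨w, hw, hx⟩ := hx
      rw [mem_image] at hx
      obtain ⟨a, ha, rfl⟩ := hx
      rw [hI0, mem_Icc] at ha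
      obtain ⟨h1, h2, h3, h4⟩ := h𝓦 w hw
      refine ⟨h1, by show Real.log w.1 ≤ _; linarith, ?_⟩
      show |(a : ℝ)| ≤ _
      have e1 : |(a : ℝ) - w.2| ≤ ((⌊H w⌋₊ : ℕ) : ℝ) := by
        rw [abs_le]
        constructor
        · have : ((w.2 - (⌊H w⌋₊ : ℕ) : ℤ) : ℝ) ≤ a := by exact_mod_cast ha.1
          push_cast at this
          linarith
        · have : (a : ℝ) ≤ ((w.2 + (⌊H w⌋₊ : ℕ) : ℤ) : ℝ) := by exact_mod_cast ha.2
          push_cast at this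
          linarith
      have e2 := hHF w hw
      have e3 := hHle w hw
      have e4 : |(a : ℝ)| ≤ |(w.2 : ℝ)| + |(a : ℝ) - w.2| := by
        have : (a : ℝ) = w.2 + (a - w.2) := by ring
        calc |(a : ℝ)| = |(w.2 : ℝ) + (a - w.2)| := by rw [← this]
          _ ≤ _ := abs_add_le _ _
      linarith
    · obtain ⟨h1, h2, h3⟩ := h𝓛 x hx
      exact ⟨h1, by linarith, by linarith⟩
  obtain ⟨n, hn1, hn2, _, hn4⟩ := hass X hX1 ((A ∪ A') ∪ 𝓛) hAcard hAb b' hS z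
  refine ⟨n, hn1, hn2, ?_, ?_, fun x hx => hn4 x (mem_union_right _ hx)⟩
  · intro α hα j hj
    have hjA : (α, j) ∈ A := by
      rw [hmemA]
      refine ⟨hα, ?_⟩
      rw [abs_le] at hj
      have e2 : -j ≤ ⌊K α⌋ := Int.le_floor.2 (by rw [Int.cast_neg]; linarith [hj.1])
      have e4 : j ≤ ⌊K α⌋ := Int.le_floor.2 hj.2
      have e3 : ((⌊K α⌋₊ : ℕ) : ℤ) = ⌊K α⌋ := Int.natCast_floor_eq_floor (hKα0 α hα)
      constructor
      · show -((⌊K α⌋₊ : ℕ) : ℤ) ≤ j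
        linarith
      · show j ≤ ((⌊K α⌋₊ : ℕ) : ℤ)
        linarith
    exact hn4 (α, j) (mem_union_left _ (mem_union_left _ hjA))
  · intro w hw j hj
    have hjA : (w.1, w.2 + j) ∈ A' := by
      rw [hA', mem_biUnion]
      refine ⟨w, hw, mem_image.2 ⟨w.2 + j, ?_, rfl⟩⟩
      rw [hI0, mem_Icc]
      rw [abs_le] at hj
      have e2 : -j ≤ ⌊H w⌋ := Int.le_floor.2 (by rw [Int.cast_neg]; linarith [hj.1])
      have e4 : j ≤ ⌊H w⌋ := Int.le_floor.2 hj.2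
      have e3 : ((⌊H w⌋₊ : ℕ) : ℤ) = ⌊H w⌋ := Int.natCast_floor_eq_floor (hH0 w hw)
      rw [e3]
      constructor <;> linarith
    exact hn4 (w.1, w.2 + j) (mem_union_left _ (mem_union_right _ hjA))

end Pool.Agent.Helper123.SM
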