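import Pool.Agent.Helper123.SM.Sieve2

set_option autoImplicit false
set_option maxHeartbeats 4000000

/-! # Windows around arbitrary values of linear forms, and arbitrary linear forms, at the scale
`log X log log X`, without loss from the prime factors of the leading coefficients of the windows -/

namespace Pool.Agent.Helper123.SM

open Finset Pool.Agent.H318R2.Cr Pool.Agent.H361R2.PA

open scoped Classical

theorem sum_biUnion_le' {ι κ : Type} [DecidableEq κ] (s : Finset ι) (t : ι → Finset κ)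
    (f : κ → ℝ) (hf : ∀ x, 0 ≤ f x) : ∑ x ∈ s.biUnion t, f x ≤ ∑ i ∈ s, ∑ x ∈ t i, f x := by
  induction s using Finset.induction_on with
  | empty => simp
  | insert a s ha ih =>
    rw [biUnion_insert, sum_insert ha]
    have h1 := sum_union_inter (s₁ := t a) (s₂ := s.biUnion t) (f := f)
    have h2 : 0 ≤ ∑ x ∈ t a ∩ s.biUnion t, f x := sum_nonneg fun x _ => hf x
    linarith

theorem windowsA (D : ℕ) : ∃ c : ℝ, 0 < c ∧ ∃ X₀ : ℝ, ∀ X : ℝ, X₀ ≤ X →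
    ∀ (𝓦 : Finset (ℕ × ℤ)) (K : ℕ × ℤ → ℝ),
    (∀ w ∈ 𝓦, 1 ≤ w.1 ∧ Real.log w.1 ≤ (Real.log X) ^ (D + 1) ∧
      |(w.2 : ℝ)| ≤ Real.exp ((Real.log X) ^ (D + 1)) ∧ Real.sqrt (Real.log X) ≤ K w) →
    ∀ 𝓛 : Finset (ℕ × ℤ),
    (∀ x ∈ 𝓛, 1 ≤ x.1 ∧ Real.log x.1 ≤ (Real.log X) ^ (D + 1) ∧
      |(x.2 : ℝ)| ≤ Real.exp ((Real.log X) ^ (D + 1))) →
    ∑ w ∈ 𝓦, K w + ∑ x ∈ 𝓛, (x.1 : ℝ) / (Nat.totient x.1 : ℝ) ≤
      c * (Real.log X * Real.log (Real.log X)) →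
    ∀ z : ℤ, ∃ n : ℤ, (z : ℝ) + X / 4 < n ∧ (n : ℝ) ≤ z + X ∧
      (∀ w ∈ 𝓦, ∀ j : ℤ, |(j : ℝ)| ≤ K w → ¬ Prime ((w.1 : ℤ) * n + (w.2 + j))) ∧
      ∀ x ∈ 𝓛, ¬ Prime ((x.1 : ℤ) * n + x.2) := by
  obtain ⟨c₀, hc₀, X₁, hass⟩ := assembleS (D + 2)
  obtain ⟨c₁, c₂, hc₁, hc₁₂, hV⟩ := cz_bounds
  have hc₂ : 0 < c₂ := hc₁.trans_le hc₁₂
  set c' : ℝ := min (1 / 10) (c₀ / (216 + 2 * c₂)) with hc'
  have hc'0 : 0 < c' := by positivity
  have hc'1 : c' ≤ 1 / 10 := min_le_left _ _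
  have hc'2 : c' ≤ c₀ / (216 + 2 * c₂) := min_le_right _ _
  refine ⟨c', hc'0, max X₁ (Real.exp 10000), ?_⟩
  intro X hX 𝓦 K h𝓦 𝓛 h𝓛 hsum z
  have hX1 : X₁ ≤ X := (le_max_left _ _).trans hX
  have hX2 : Real.exp 10000 ≤ X := (le_max_right _ _).trans hX
  have hX0 : 0 < X := (Real.exp_pos _).trans_le hX2
  have hL : 10000 ≤ Real.log X := by
    rw [← Real.log_exp 10000]
    exact Real.log_le_log (Real.exp_pos _) hX2
  set L := Real.log X with hLdef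
  have hLL0 : 0 < Real.log L := Real.log_pos (by linarith)
  have hLL1 : Real.log L ≤ L := (Real.log_le_sub_one_of_pos (by linarith)).trans (by linarith)
  obtain ⟨hf2, hfl⟩ := log_floor_ge X hL
  rw [← hLdef] at hf2 hfl
  set Y : ℕ := ⌊L / 10⌋₊ with hY
  have hY2 : (2 : ℝ) ≤ Y := by exact_mod_cast hf2
  have hlogY : 0 < Real.log Y := Real.log_pos (by linarith)
  have hYle : (Y : ℝ) ≤ L / 10 := Nat.floor_le (by linarith)
  have hsq100 : 100 ≤ Real.sqrt L := by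
    rw [show (100 : ℝ) = Real.sqrt 10000 by
      rw [show (10000 : ℝ) = 100 ^ 2 by norm_num, Real.sqrt_sq (by norm_num)]]
    exact Real.sqrt_le_sqrt hL
  -- the lengths
  have hKα0 : ∀ w ∈ 𝓦, 0 ≤ K w := fun w hw => by linarith [(h𝓦 w hw).2.2.2]
  have hratio0 : 0 ≤ ∑ x ∈ 𝓛, (x.1 : ℝ) / (Nat.totient x.1 : ℝ) :=
    sum_nonneg fun x _ => by positivity
  have hKsum0 : 0 ≤ ∑ w ∈ 𝓦, K w := sum_nonneg hKα0
  have hL2 : c' * (L * Real.log L) ≤ L ^ 2 / 10 := by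
    have h0 : 0 ≤ L * Real.log L := by positivity
    calc c' * (L * Real.log L) ≤ 1 / 10 * (L * L) := by gcongr
      _ = L ^ 2 / 10 := by ring
  have hKle : ∀ w ∈ 𝓦, K w ≤ L ^ 2 / 10 := by
    intro w hw
    have h1 : K w ≤ ∑ w ∈ 𝓦, K w := single_le_sum hKα0 hw
    linarith
  have hLF : ∀ w ∈ 𝓦, ((⌊K w⌋₊ : ℕ) : ℝ) ≤ K w := fun w hw => Nat.floor_le (hKα0 w hw)
  have hnlow : ∀ w ∈ 𝓦, Real.sqrt Y ≤ (⌊K w⌋₊ : ℝ) ∧ 2 ≤ ⌊K w⌋₊ := by
    intro w hw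
    have h1 : K w < (⌊K w⌋₊ : ℝ) + 1 := Nat.lt_floor_add_one _
    have h2 := (h𝓦 w hw).2.2.2
    have h3 : Real.sqrt Y ≤ Real.sqrt L / 3 := by
      have e1 : Real.sqrt Y ≤ Real.sqrt (L / 9) := Real.sqrt_le_sqrt (by linarith)
      have e2 : Real.sqrt (L / 9) = Real.sqrt L / 3 := by
        rw [Real.sqrt_div (by linarith), show (9 : ℝ) = 3 ^ 2 by norm_num,
          Real.sqrt_sq (by norm_num)]
      linarith
    refine ⟨by linarith, ?_⟩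
    have h4 : (2 : ℝ) ≤ (⌊K w⌋₊ : ℝ) := by linarith
    exact_mod_cast h4
  set I0 : ℕ × ℤ → Finset ℤ := fun w => Icc (w.2 - (⌊K w⌋₊ : ℕ)) (w.2 + (⌊K w⌋₊ : ℕ)) with hI0
  set A : Finset (ℕ × ℤ) := 𝓦.biUnion (fun w => (I0 w).image (fun a => (w.1, a))) with hA
  set J0 : ℕ × ℤ → Finset ℤ := fun w => (I0 w).filter (fun a =>
      ∀ p ∈ (Pz Y).filter (fun p => p ∣ w.1), ¬ (p : ℤ) ∣ a) with hJ0
  set A0 : Finset (ℕ × ℤ) := 𝓦.biUnion (fun w => (J0 w).image (fun a => (w.1, a))) with hA0def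
  have hJ0c : ∀ w ∈ 𝓦, ((J0 w).card : ℝ) *
      ∏ p ∈ (Pz Y).filter (fun p => ¬ p ∣ w.1), (1 - 1 / (p : ℝ)) ≤
      108 * (K w / Real.log Y) := by
    intro w hw
    have h4 := window_int w.1 Y ⌊K w⌋₊ w.2 hf2 (hnlow w hw).1 (hnlow w hw).2
    have h5 : ((⌊K w⌋₊ : ℕ) : ℝ) / Real.log Y ≤ K w / Real.log Y := by
      have := hLF w hw
      gcongr
    refine le_trans h4 ?_
    gcongr
  obtain ⟨b, hb⟩ := presieveW (Pz Y) (fun p hp => (mem_Pz.1 hp).1) (A0 ∪ 𝓛)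
  have hpair : ∀ (α : ℕ), Function.Injective (fun j : ℤ => (α, j)) := by
    intro α a b h
    exact (Prod.mk.inj h).2
  have hYiff : ∀ p : ℕ, p.Prime → ((p : ℝ) ≤ L / 10 ↔ p ∈ Pz Y) := by
    intro p hp
    rw [mem_Pz, hY, Nat.le_floor_iff (by linarith)]
    exact ⟨fun h => ⟨hp, h⟩, fun h => h.2⟩
  have hS : ((((A ∪ 𝓛).filter (fun x => ∀ p : ℕ, p.Prime → (p : ℝ) ≤ L / 10 →
      ¬ (p : ℤ) ∣ (x.1 : ℤ) * (b p : ℤ) + x.2)).card : ℕ) : ℝ) ≤ c₀ * L := by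
    have h1 : ((A ∪ 𝓛).filter (fun x => ∀ p : ℕ, p.Prime → (p : ℝ) ≤ L / 10 →
        ¬ (p : ℤ) ∣ (x.1 : ℤ) * (b p : ℤ) + x.2)) ⊆
        (A0 ∪ 𝓛).filter (fun x => ∀ p ∈ Pz Y, ¬ (p : ℤ) ∣ (x.1 : ℤ) * (b p : ℤ) + x.2) := by
      intro x hx
      rw [mem_filter] at hx
      obtain ⟨hxA, hsur⟩ := hx
      rw [mem_filter]
      refine ⟨?_, fun p hp => hsur p (mem_Pz.1 hp).1 ((hYiff p (mem_Pz.1 hp).1).2 hp)⟩
      rw [mem_union] at hxA ⊢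
      rcases hxA with hxA | hxA
      · left
        rw [hA, mem_biUnion] at hxA
        obtain ⟨w, hw, hx⟩ := hxA
        rw [mem_image] at hx
        obtain ⟨a, ha, rfl⟩ := hx
        rw [hA0def, mem_biUnion]
        refine ⟨w, hw, mem_image.2 ⟨a, ?_, rfl⟩⟩
        rw [hJ0, mem_filter]
        refine ⟨ha, ?_⟩
        intro p hp hpa
        rw [mem_filter] at hp
        apply hsur p (mem_Pz.1 hp.1).1 ((hYiff p (mem_Pz.1 hp.1).1).2 hp.1)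
        have e1 : (p : ℤ) ∣ (w.1 : ℤ) := Int.natCast_dvd_natCast.2 hp.2
        exact dvd_add (e1.mul_right _) hpa
      · right; exact hxA
    have h2 : ((((A ∪ 𝓛).filter (fun x => ∀ p : ℕ, p.Prime → (p : ℝ) ≤ L / 10 →
        ¬ (p : ℤ) ∣ (x.1 : ℤ) * (b p : ℤ) + x.2)).card : ℕ) : ℝ) ≤
        (((A0 ∪ 𝓛).filter (fun x => ∀ p ∈ Pz Y,
          ¬ (p : ℤ) ∣ (x.1 : ℤ) * (b p : ℤ) + x.2)).card : ℝ) := by
      exact_mod_cast card_le_card h1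
    refine h2.trans (hb.trans ?_)
    have hw0 : ∀ x : ℕ × ℤ, 0 ≤ ∏ p ∈ (Pz Y).filter (fun p => ¬ p ∣ x.1), (1 - 1 / (p : ℝ)) :=
      fun x => prod_nonneg fun p hp => (one_sub_inv_pos (mem_Pz.1 (mem_filter.1 hp).1).1).le
    have hun : ∑ x ∈ A0 ∪ 𝓛, ∏ p ∈ (Pz Y).filter (fun p => ¬ p ∣ x.1), (1 - 1 / (p : ℝ)) ≤
        ∑ x ∈ A0, ∏ p ∈ (Pz Y).filter (fun p => ¬ p ∣ x.1), (1 - 1 / (p : ℝ)) +
        ∑ x ∈ 𝓛, ∏ p ∈ (Pz Y).filter (fun p => ¬ p ∣ x.1), (1 - 1 / (p : ℝ)) := by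
      rw [← sum_union_inter (s₁ := A0) (s₂ := 𝓛)]
      have := sum_nonneg (s := A0 ∩ 𝓛)
        (f := fun x => ∏ p ∈ (Pz Y).filter (fun p => ¬ p ∣ x.1), (1 - 1 / (p : ℝ)))
        (fun x _ => hw0 x)
      linarith
    have hVY : V Y ≤ c₂ * (1 / Real.log Y) := by
      rw [mul_one_div, le_div_iff₀ hlogY]
      exact (hV Y hf2).2
    have hV0 : 0 ≤ V Y := (V_pos Y).le
    have hL𝓛 : ∑ x ∈ 𝓛, ∏ p ∈ (Pz Y).filter (fun p => ¬ p ∣ x.1), (1 - 1 / (p : ℝ)) ≤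
        c₂ * (1 / Real.log Y) * ∑ x ∈ 𝓛, (x.1 : ℝ) / (Nat.totient x.1 : ℝ) := by
      calc ∑ x ∈ 𝓛, ∏ p ∈ (Pz Y).filter (fun p => ¬ p ∣ x.1), (1 - 1 / (p : ℝ)) ≤
            ∑ x ∈ 𝓛, V Y * ((x.1 : ℝ) / (Nat.totient x.1 : ℝ)) := by
            apply sum_le_sum
            intro x hx
            exact prodM x.1 Y (by have := (h𝓛 x hx).1; omega)
        _ = V Y * ∑ x ∈ 𝓛, (x.1 : ℝ) / (Nat.totient x.1 : ℝ) := by rw [mul_sum]
        _ ≤ _ := by gcongr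
    have hA0s : ∑ x ∈ A0, ∏ p ∈ (Pz Y).filter (fun p => ¬ p ∣ x.1), (1 - 1 / (p : ℝ)) ≤
        108 * (1 / Real.log Y) * ∑ w ∈ 𝓦, K w := by
      rw [hA0def]
      refine (sum_biUnion_le' _ _ _ hw0).trans ?_
      rw [mul_sum]
      apply sum_le_sum
      intro w hw
      rw [sum_image (fun a _ b _ h => hpair w.1 h)]
      show ∑ _j ∈ J0 w, ∏ p ∈ (Pz Y).filter (fun p => ¬ p ∣ w.1), (1 - 1 / (p : ℝ)) ≤ _
      rw [sum_const, nsmul_eq_mul]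
      refine (hJ0c w hw).trans (le_of_eq ?_)
      ring
    have hYL : 1 / Real.log Y ≤ 2 * (1 / Real.log L) := by
      have e1 : 2 * (1 / Real.log L) = 1 / (Real.log L / 2) := by field_simp
      rw [e1]
      exact one_div_le_one_div_of_le (by linarith) hfl
    set S₁ := ∑ w ∈ 𝓦, K w with hS₁
    set S₂ := ∑ x ∈ 𝓛, (x.1 : ℝ) / (Nat.totient x.1 : ℝ) with hS₂
    calc ∑ x ∈ A0 ∪ 𝓛, ∏ p ∈ (Pz Y).filter (fun p => ¬ p ∣ x.1), (1 - 1 / (p : ℝ)) ≤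
          108 * (1 / Real.log Y) * S₁ + c₂ * (1 / Real.log Y) * S₂ := by linarith
      _ ≤ 108 * (2 * (1 / Real.log L)) * S₁ + c₂ * (2 * (1 / Real.log L)) * S₂ := by
          gcongr
      _ = (1 / Real.log L) * (216 * S₁ + 2 * c₂ * S₂) := by ring
      _ ≤ (1 / Real.log L) * ((216 + 2 * c₂) * (S₁ + S₂)) := by
          apply mul_le_mul_of_nonneg_left _ (by positivity)
          have e1 : 0 ≤ 2 * c₂ * S₁ := by positivity
          linarith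
      _ ≤ (1 / Real.log L) * ((216 + 2 * c₂) * (c' * (L * Real.log L))) := by gcongr
      _ = (216 + 2 * c₂) * c' * L := by field_simp
      _ ≤ (216 + 2 * c₂) * (c₀ / (216 + 2 * c₂)) * L := by
          have : 0 ≤ L := by linarith
          gcongr
      _ = c₀ * L := by field_simp
  have hAcard : (((A ∪ 𝓛).card : ℕ) : ℝ) ≤ L ^ 2 := by
    have hcu : (((A ∪ 𝓛).card : ℕ) : ℝ) ≤ A.card + 𝓛.card := by
      exact_mod_cast card_union_le _ _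
    refine hcu.trans ?_
    have h0 : (𝓛.card : ℝ) ≤ ∑ x ∈ 𝓛, (x.1 : ℝ) / (Nat.totient x.1 : ℝ) := by
      calc (𝓛.card : ℝ) = ∑ _x ∈ 𝓛, (1 : ℝ) := by rw [sum_const, nsmul_eq_mul, mul_one]
        _ ≤ _ := sum_le_sum fun x hx => one_le_ratio x.1 (h𝓛 x hx).1
    have h1 : (A.card : ℝ) ≤ ∑ w ∈ 𝓦, 3 * K w := by
      calc (A.card : ℝ) ≤ ((∑ w ∈ 𝓦, ((I0 w).image (fun a => (w.1, a))).card : ℕ) : ℝ) := by
            exact_mod_cast card_biUnion_le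
        _ = ∑ w ∈ 𝓦, (((I0 w).image (fun a => (w.1, a))).card : ℝ) := by push_cast; rfl
        _ ≤ _ := by
          apply sum_le_sum
          intro w hw
          rw [card_image_of_injective _ (hpair w.1), hI0, Int.card_Icc]
          have e0 : (w.2 + ((⌊K w⌋₊ : ℕ) : ℤ) + 1 - (w.2 - ((⌊K w⌋₊ : ℕ) : ℤ))).toNat =
              2 * ⌊K w⌋₊ + 1 := by
            omega
          rw [e0]
          push_cast
          have e1 := hLF w hw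
          have e2 := (h𝓦 w hw).2.2.2
          linarith
    rw [← mul_sum] at h1
    have h3 : 0 ≤ L ^ 2 := by positivity
    linarith
  have hLpow : L ^ (D + 1) + 1 ≤ L ^ (D + 2) := by
    have e1 : L ^ (D + 2) = L ^ (D + 1) * L := pow_succ L (D + 1)
    have e2 : 1 ≤ L ^ (D + 1) := one_le_pow₀ (by linarith)
    rw [e1]
    nlinarith
  have hL2exp : L ^ 2 ≤ Real.exp (L ^ (D + 1)) := by
    have h3 : L ^ 2 ≤ Real.exp L := by
      have h4 := Real.pow_div_factorial_le_exp L (by linarith) 3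
      have h5 : (Nat.factorial 3 : ℝ) = 6 := by norm_num [Nat.factorial]
      rw [h5] at h4
      refine le_trans ?_ h4
      rw [le_div_iff₀ (by norm_num)]
      have : 0 ≤ L ^ 2 := by positivity
      nlinarith
    have h4 : Real.exp L ≤ Real.exp (L ^ (D + 1)) := by
      apply Real.exp_le_exp.2
      calc L = L ^ 1 := (pow_one _).symm
        _ ≤ L ^ (D + 1) := pow_le_pow_right₀ (by linarith) (by omega)
    linarith
  have hexp2 : 2 * Real.exp (L ^ (D + 1)) ≤ Real.exp (L ^ (D + 2)) := by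
    have e1 : Real.exp (L ^ (D + 1) + 1) ≤ Real.exp (L ^ (D + 2)) := Real.exp_le_exp.2 hLpow
    rw [Real.exp_add] at e1
    have e2 := Real.exp_one_gt_d9
    have e3 := Real.exp_pos (L ^ (D + 1))
    nlinarith
  have hAb : ∀ x ∈ A ∪ 𝓛, 1 ≤ x.1 ∧ Real.log x.1 ≤ L ^ (D + 2) ∧
      |(x.2 : ℝ)| ≤ Real.exp (L ^ (D + 2)) := by
    intro x hx
    have hE0 := Real.exp_pos (L ^ (D + 1))
    rw [mem_union] at hx
    rcases hx with hx | hx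
    swap
    · obtain ⟨h1, h2, h3⟩ := h𝓛 x hx
      exact ⟨h1, by linarith, by linarith⟩
    rw [hA, mem_biUnion] at hx
    obtain ⟨w, hw, hx⟩ := hx
    rw [mem_image] at hx
    obtain ⟨a, ha, rfl⟩ := hx
    rw [hI0, mem_Icc] at ha
    obtain ⟨h1, h2, h3, h4⟩ := h𝓦 w hw
    refine ⟨h1, by show Real.log w.1 ≤ _; linarith, ?_⟩
    show |(a : ℝ)| ≤ _
    have e1 : |(a : ℝ) - w.2| ≤ ((⌊K w⌋₊ : ℕ) : ℝ) := by
      rw [abs_le]
      constructor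
      · have : ((w.2 - (⌊K w⌋₊ : ℕ) : ℤ) : ℝ) ≤ a := by exact_mod_cast ha.1
        push_cast at this
        linarith
      · have : (a : ℝ) ≤ ((w.2 + (⌊K w⌋₊ : ℕ) : ℤ) : ℝ) := by exact_mod_cast ha.2
        push_cast at this
        linarith
    have e2 := hLF w hw
    have e3 := hKle w hw
    have e4 : |(a : ℝ)| ≤ |(w.2 : ℝ)| + |(a : ℝ) - w.2| := by
      have : (a : ℝ) = w.2 + (a - w.2) := by ring
      calc |(a : ℝ)| = |(w.2 : ℝ) + (a - w.2)| := by rw [← this]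
        _ ≤ _ := abs_add_le _ _
    have e5 : 0 ≤ L ^ 2 := by positivity
    linarith
  obtain ⟨n, hn1, hn2, _, hn4⟩ := hass X hX1 (A ∪ 𝓛) hAcard hAb b hS z
  refine ⟨n, hn1, hn2, ?_, fun x hx => hn4 x (mem_union_right _ hx)⟩
  intro w hw j hj
  have hjA : (w.1, w.2 + j) ∈ A := by
    rw [hA, mem_biUnion]
    refine ⟨w, hw, mem_image.2 ⟨w.2 + j, ?_, rfl⟩⟩
    rw [hI0, mem_Icc]
    rw [abs_le] at hj
    have e2 : -j ≤ ⌊K w⌋ := Int.le_floor.2 (by rw [Int.cast_neg]; linarith [hj.1])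
    have e4 : j ≤ ⌊K w⌋ := Int.le_floor.2 hj.2
    have e3 : ((⌊K w⌋₊ : ℕ) : ℤ) = ⌊K w⌋ := Int.natCast_floor_eq_floor (hKα0 w hw)
    rw [e3]
    constructor <;> linarith
  exact hn4 (w.1, w.2 + j) (mem_union_left _ hjA)

end Pool.Agent.Helper123.SM
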