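import Pool.Agent.Helper123.SM.Sieve
import Pool.Agent.Helper123.SM.Win2

set_option autoImplicit false
set_option maxHeartbeats 4000000

/-! # Integers without medium prime factors and without prime factors in a given set

Adapted from `Pool/Agent/H361R2/PA/Med.lean` (team of helper361). -/

namespace Pool.Agent.Helper123.SM

open Finset Filter Pool.Agent.H318R2.Cr Pool.Agent.H398R2.RK Pool.Agent.H361R2.PA

open scoped Classical

theorem card_medT : ∃ y₀ : ℝ, ∀ y : ℝ, y₀ ≤ y → ∀ L : ℕ, y ≤ L → (L : ℝ) ≤ y * (Real.log y) ^ 4 →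
    ∀ T : Finset ℕ, (((NM y L).filter (fun m => ∀ p ∈ T, ¬ p ∣ m)).card : ℝ) ≤
      11 * (L / Real.log y) *
        ∏ p ∈ (Pz ⌊(Real.log y) ^ 4⌋₊).filter (fun p => p ∉ T), (1 - 1 / (p : ℝ))⁻¹ := by
  obtain ⟨y₁, hsm⟩ := smooth_count
  refine ⟨max y₁ (Real.exp (Real.exp 1)), fun y hy L hyL hLy T => ?_⟩
  have hy1 : y₁ ≤ y := (le_max_left _ _).trans hy
  have hy2 : Real.exp (Real.exp 1) ≤ y := (le_max_right _ _).trans hy
  have hy0 : 0 < y := (Real.exp_pos _).trans_le hy2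
  have hly1 : Real.exp 1 ≤ Real.log y := by
    rw [← Real.log_exp (Real.exp 1)]; exact Real.log_le_log (Real.exp_pos _) hy2
  have hly : 2 ≤ Real.log y := by
    have := Real.exp_one_gt_d9
    linarith
  have hyone : 2 ≤ y := by
    have h1 := Real.add_one_le_exp (Real.exp 1)
    have h2 := Real.exp_one_gt_d9
    linarith
  have hL0 : (0 : ℝ) < L := by linarith
  set K : ℕ := ⌊(Real.log y) ^ 4⌋₊ with hK
  have hK1 : 1 ≤ K := by
    rw [hK, Nat.one_le_floor_iff]
    exact one_le_pow₀ (by linarith)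
  set E := ∏ p ∈ (Pz K).filter (fun p => p ∉ T), (1 - 1 / (p : ℝ))⁻¹ with hE
  have hE1 : 1 ≤ E := by
    rw [hE]
    have h1 : ∏ _p ∈ (Pz K).filter (fun p => p ∉ T), (1 : ℝ) ≤
        ∏ p ∈ (Pz K).filter (fun p => p ∉ T), (1 - 1 / (p : ℝ))⁻¹ := by
      apply Finset.prod_le_prod
      · intro p _; exact zero_le_one
      · intro p hp
        have h2 := one_sub_inv_pos (mem_Pz.1 (mem_filter.1 hp).1).1
        rw [one_le_inv₀ h2]
        have h3 : 0 ≤ 1 / (p : ℝ) := by positivity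
        linarith
    rwa [prod_const_one] at h1
  -- decomposition
  have hsub : (NM y L).filter (fun m => ∀ p ∈ T, ¬ p ∣ m) ⊆
      ((Icc 1 L).filter (fun m => ∀ p : ℕ, p.Prime → p ∣ m →
      Real.log p ≤ Real.log y * Real.log (Real.log (Real.log y)) /
        (10 * Real.log (Real.log y)))) ∪
      (RT T K).biUnion (fun k => ((Icc 1 (L / k)).filter (fun q : ℕ => q.Prime ∧ y < q)).image
        (fun q => q * k)) := by
    intro m hm
    rw [mem_filter, NM, mem_filter] at hm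
    obtain ⟨⟨hmI, hfac⟩, hmT⟩ := hm
    rw [mem_Icc] at hmI
    rw [mem_union]
    by_cases hall : ∀ p : ℕ, p.Prime → p ∣ m → Real.log p ≤ WW y
    · left
      rw [mem_filter, mem_Icc]
      exact ⟨hmI, hall⟩
    · right
      push Not at hall
      obtain ⟨q, hq, hqm, hqW⟩ := hall
      have hqy : y < q := (hfac q hq hqm).resolve_right (not_le.2 hqW)
      obtain ⟨k, rfl⟩ := hqm
      have hk1 : 1 ≤ k := by
        rcases Nat.eq_zero_or_pos k with rfl | h
        · simp at hmI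
        · exact h
      have hk0 : (0 : ℝ) < k := by exact_mod_cast hk1
      have hkK : k ≤ K := by
        rw [hK, Nat.le_floor_iff (by positivity)]
        have h7 : (q : ℝ) * k ≤ L := by exact_mod_cast hmI.2
        have h9 : y * k ≤ y * (Real.log y) ^ 4 := by
          calc y * k ≤ q * k := by gcongr
            _ ≤ L := h7
            _ ≤ _ := hLy
        exact le_of_mul_le_mul_left h9 hy0
      rw [mem_biUnion]
      refine ⟨k, ?_, ?_⟩
      · unfold RT
        rw [mem_filter, mem_Icc]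
        exact ⟨⟨hk1, hkK⟩, fun p hp hpk => hmT p hp (hpk.mul_left q)⟩
      · rw [mem_image]
        refine ⟨q, ?_, rfl⟩
        rw [mem_filter, mem_Icc]
        refine ⟨⟨hq.pos, ?_⟩, hq, hqy⟩
        rw [Nat.le_div_iff_mul_le (by omega)]
        exact hmI.2
  have h1 : (((NM y L).filter (fun m => ∀ p ∈ T, ¬ p ∣ m)).card : ℝ) ≤
      (((Icc 1 L).filter (fun m => ∀ p : ℕ, p.Prime → p ∣ m →
      Real.log p ≤ Real.log y * Real.log (Real.log (Real.log y)) /
        (10 * Real.log (Real.log y)))).card : ℝ) +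
      ∑ k ∈ RT T K, (((Icc 1 (L / k)).filter (fun q : ℕ => q.Prime ∧ y < q)).card : ℝ) := by
    have h2 := (card_le_card hsub).trans (card_union_le _ _)
    have h3 : ((RT T K).biUnion (fun k => ((Icc 1 (L / k)).filter
        (fun q : ℕ => q.Prime ∧ y < q)).image (fun q => q * k))).card ≤
        ∑ k ∈ RT T K, ((Icc 1 (L / k)).filter (fun q : ℕ => q.Prime ∧ y < q)).card := by
      refine card_biUnion_le.trans (sum_le_sum fun k _ => card_image_le)
    exact_mod_cast h2.trans (Nat.add_le_add_left h3 _)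
  have h2 := hsm y hy1 L hyL
  have h3 : ∀ k ∈ RT T K, (((Icc 1 (L / k)).filter (fun q : ℕ => q.Prime ∧ y < q)).card : ℝ) ≤
      10 * L / Real.log y * ((k : ℝ))⁻¹ := by
    intro k hk
    unfold RT at hk
    rw [mem_filter, mem_Icc] at hk
    have hk0 : (0 : ℝ) < k := by exact_mod_cast (by omega : 0 < k)
    by_cases hLk : y < ((L / k : ℕ) : ℝ)
    · have h4 : 2 ≤ L / k := by
        have : (2 : ℝ) < ((L / k : ℕ) : ℝ) := by linarith
        have h5 : 2 < L / k := by exact_mod_cast this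
        omega
      have h5 := primes_le (L / k) h4
      have h6 : (((Icc 1 (L / k)).filter (fun q : ℕ => q.Prime ∧ y < q)).card : ℝ) ≤
          (((Icc 1 (L / k)).filter Nat.Prime).card : ℝ) := by
        exact_mod_cast card_le_card (fun q hq => by
          rw [mem_filter] at hq ⊢
          exact ⟨hq.1, hq.2.1⟩)
      have h7 : ((L / k : ℕ) : ℝ) ≤ (L : ℝ) / k := Nat.cast_div_le
      have h8 : Real.log y ≤ Real.log ((L / k : ℕ) : ℝ) := Real.log_le_log hy0 hLk.le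
      calc _ ≤ 10 * ((L / k : ℕ) : ℝ) / Real.log ((L / k : ℕ) : ℝ) := h6.trans h5
        _ ≤ 10 * ((L : ℝ) / k) / Real.log y := by
          have e1 : 10 * ((L / k : ℕ) : ℝ) ≤ 10 * ((L : ℝ) / k) := by linarith
          have e2 : (0 : ℝ) ≤ 10 * ((L : ℝ) / k) := by positivity
          have e3 : (0 : ℝ) < Real.log y := by linarith
          exact div_le_div₀ e2 e1 e3 h8
        _ = _ := by ring
    · have h4 : (Icc 1 (L / k)).filter (fun q : ℕ => q.Prime ∧ y < q) = ∅ := by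
        rw [filter_eq_empty_iff]
        intro q hq h5
        rw [mem_Icc] at hq
        have h6 : (q : ℝ) ≤ ((L / k : ℕ) : ℝ) := by exact_mod_cast hq.2
        linarith [h5.2]
      rw [h4]
      simp only [card_empty, Nat.cast_zero]
      positivity
  have h4 := sum_le_sum h3
  rw [← mul_sum] at h4
  have h5 := sum_inv_le T K
  rw [← hE] at h5
  have h7 : 10 * (L : ℝ) / Real.log y * ∑ k ∈ RT T K, ((k : ℝ))⁻¹ ≤
      10 * L / Real.log y * E := by
    apply mul_le_mul_of_nonneg_left h5 (by positivity)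
  have h8 : (L : ℝ) / (Real.log y) ^ 3 ≤ L / Real.log y * E := by
    calc (L : ℝ) / (Real.log y) ^ 3 ≤ L / Real.log y := by
          apply div_le_div_of_nonneg_left hL0.le (by linarith)
          calc Real.log y = (Real.log y) ^ 1 := (pow_one _).symm
            _ ≤ (Real.log y) ^ 3 := pow_le_pow_right₀ (by linarith) (by norm_num)
      _ = L / Real.log y * 1 := (mul_one _).symm
      _ ≤ L / Real.log y * E := by gcongr
  have h9 : 11 * (L / Real.log y) * E = 10 * L / Real.log y * E + L / Real.log y * E := by ring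
  rw [h9]
  linarith

/-- the loss factor of a multiplier `α` -/
noncomputable def Lam (X : ℝ) (α : ℕ) : ℝ :=
  ∏ p ∈ α.primeFactors.filter (fun p : ℕ => (Real.log (Real.log X)) ^ 3 < p ∧ (p : ℝ) ≤ Real.log X),
    (1 - 1 / (p : ℝ))⁻¹

theorem one_le_Lam (X : ℝ) (α : ℕ) : 1 ≤ Lam X α := by
  unfold Lam
  have h1 : ∏ _p ∈ α.primeFactors.filter
      (fun p : ℕ => (Real.log (Real.log X)) ^ 3 < p ∧ (p : ℝ) ≤ Real.log X), (1 : ℝ) ≤
      ∏ p ∈ α.primeFactors.filter
      (fun p : ℕ => (Real.log (Real.log X)) ^ 3 < p ∧ (p : ℝ) ≤ Real.log X),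
        (1 - 1 / (p : ℝ))⁻¹ := by
    apply Finset.prod_le_prod
    · intro p _; exact zero_le_one
    · intro p hp
      have h2 := one_sub_inv_pos (Nat.prime_of_mem_primeFactors (mem_filter.1 hp).1)
      rw [one_le_inv₀ h2]
      have h3 : 0 ≤ 1 / (p : ℝ) := by positivity
      linarith
  rwa [prod_const_one] at h1

/-- the products over the small primes -/
theorem prod_small (X : ℝ) (α k v : ℕ) (hα : 1 ≤ α) (hkv : k ≤ v) (hvX : (v : ℝ) ≤ Real.log X)
    (hk : (Real.log (Real.log X)) ^ 3 ≤ k) :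
    (∏ p ∈ (Pz k).filter (fun p => p ∉ (Pz v).filter (fun p => p ∣ α)), (1 - 1 / (p : ℝ))⁻¹) *
      (∏ p ∈ (Pz v).filter (fun p => ¬ p ∣ α), (1 - 1 / (p : ℝ))) * V k ≤ V v * Lam X α := by
  have hpos : ∀ m : ℕ, ∀ p ∈ Pz m, (0 : ℝ) < 1 - 1 / (p : ℝ) := fun m p hp =>
    one_sub_inv_pos (mem_Pz.1 hp).1
  have hle1 : ∀ p : ℕ, (1 : ℝ) - 1 / (p : ℝ) ≤ 1 := by
    intro p
    have h7 : 0 ≤ 1 / (p : ℝ) := by positivity
    linarith
  set T := (Pz v).filter (fun p => p ∣ α) with hT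
  set W := ∏ p ∈ (Pz v).filter (fun p => ¬ p ∣ α), (1 - 1 / (p : ℝ)) with hW
  have hW0 : 0 < W := prod_pos fun p hp => hpos v p (mem_filter.1 hp).1
  have hsame : (Pz k).filter (fun p => p ∉ T) = (Pz k).filter (fun p => ¬ p ∣ α) := by
    apply filter_congr
    intro p hp
    rw [mem_Pz] at hp
    rw [hT, mem_filter, mem_Pz]
    constructor
    · intro h h2
      exact h ⟨⟨hp.1, hp.2.trans hkv⟩, h2⟩
    · intro h h2
      exact h h2.2
  have e1 : V k = (∏ p ∈ (Pz k).filter (fun p => p ∣ α), (1 - 1 / (p : ℝ))) *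
      ∏ p ∈ (Pz k).filter (fun p => ¬ p ∣ α), (1 - 1 / (p : ℝ)) := by
    unfold V
    rw [prod_filter_mul_prod_filter_not]
  have e2 : (∏ p ∈ (Pz k).filter (fun p => ¬ p ∣ α), (1 - 1 / (p : ℝ))⁻¹) *
      ∏ p ∈ (Pz k).filter (fun p => ¬ p ∣ α), (1 - 1 / (p : ℝ)) = 1 := by
    rw [← prod_mul_distrib]
    apply prod_eq_one
    intro p hp
    exact inv_mul_cancel₀ (hpos k p (mem_filter.1 hp).1).ne'
  have e3 : V v = (∏ p ∈ T, (1 - 1 / (p : ℝ))) * W := by
    unfold V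
    rw [hW, hT, prod_filter_mul_prod_filter_not]
  set F := α.primeFactors.filter
    (fun p : ℕ => (Real.log (Real.log X)) ^ 3 < p ∧ (p : ℝ) ≤ Real.log X) with hF
  set A := (Pz k).filter (fun p => p ∣ α) with hA
  have hLam : Lam X α = ∏ p ∈ F, (1 - 1 / (p : ℝ))⁻¹ := rfl
  have hFpos : ∀ p ∈ F, (0 : ℝ) < 1 - 1 / (p : ℝ) := fun p hp =>
    one_sub_inv_pos (Nat.prime_of_mem_primeFactors (mem_filter.1 hp).1)
  have hApos : ∀ p ∈ A, (0 : ℝ) < 1 - 1 / (p : ℝ) := fun p hp => hpos k p (mem_filter.1 hp).1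
  have e4 : (∏ p ∈ F, (1 - 1 / (p : ℝ))) * Lam X α = 1 := by
    rw [hLam, ← prod_mul_distrib]
    apply prod_eq_one
    intro p hp
    exact mul_inv_cancel₀ (hFpos p hp).ne'
  have hsubT : T ⊆ A ∪ F := by
    intro p hp
    rw [hT, mem_filter, mem_Pz] at hp
    rw [mem_union, hA, mem_filter, mem_Pz, hF, mem_filter, Nat.mem_primeFactors]
    by_cases h : p ≤ k
    · left; exact ⟨⟨hp.1.1, h⟩, hp.2⟩
    · right
      push Not at h
      have h2 : (k : ℝ) < p := by exact_mod_cast h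
      have h3 : (p : ℝ) ≤ v := by exact_mod_cast hp.1.2
      exact ⟨⟨hp.1.1, hp.2, by omega⟩, by linarith, by linarith⟩
  have e5 : (∏ p ∈ A, (1 - 1 / (p : ℝ))) * (∏ p ∈ F, (1 - 1 / (p : ℝ))) ≤
      ∏ p ∈ T, (1 - 1 / (p : ℝ)) := by
    have h1 := prod_union_inter (s₁ := A) (s₂ := F) (f := fun p : ℕ => (1 - 1 / (p : ℝ)))
    have h2 : ∏ p ∈ A ∩ F, (1 - 1 / (p : ℝ)) ≤ 1 :=
      prod_le_one (fun p hp => (hApos p (mem_inter.1 hp).1).le) (fun p _ => hle1 p)
    have h3 : 0 ≤ ∏ p ∈ A ∪ F, (1 - 1 / (p : ℝ)) := prod_nonneg fun p hp => by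
      rcases mem_union.1 hp with h | h
      · exact (hApos p h).le
      · exact (hFpos p h).le
    have h4 : ∏ p ∈ A ∪ F, (1 - 1 / (p : ℝ)) ≤ ∏ p ∈ T, (1 - 1 / (p : ℝ)) := by
      apply Finset.prod_le_prod_of_subset_of_le_one hsubT
      · intro p hp
        rcases mem_union.1 hp with h | h
        · exact (hApos p h).le
        · exact (hFpos p h).le
      · intro p _ _
        exact hle1 p
    rw [← h1]
    calc (∏ p ∈ A ∪ F, (1 - 1 / (p : ℝ))) * ∏ p ∈ A ∩ F, (1 - 1 / (p : ℝ)) ≤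
          (∏ p ∈ A ∪ F, (1 - 1 / (p : ℝ))) * 1 := by gcongr
      _ ≤ _ := by rw [mul_one]; exact h4
  have hLam0 : 0 ≤ Lam X α := by linarith [one_le_Lam X α]
  rw [hsame, e1, e3]
  calc (∏ p ∈ (Pz k).filter (fun p => ¬ p ∣ α), (1 - 1 / (p : ℝ))⁻¹) * W *
        ((∏ p ∈ A, (1 - 1 / (p : ℝ))) *
          ∏ p ∈ (Pz k).filter (fun p => ¬ p ∣ α), (1 - 1 / (p : ℝ))) =
        ((∏ p ∈ (Pz k).filter (fun p => ¬ p ∣ α), (1 - 1 / (p : ℝ))⁻¹) *
          ∏ p ∈ (Pz k).filter (fun p => ¬ p ∣ α), (1 - 1 / (p : ℝ))) *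
        (∏ p ∈ A, (1 - 1 / (p : ℝ))) * W := by ring
    _ = (∏ p ∈ A, (1 - 1 / (p : ℝ))) * ((∏ p ∈ F, (1 - 1 / (p : ℝ))) * Lam X α) * W := by
        rw [e2, e4]
        ring
    _ = ((∏ p ∈ A, (1 - 1 / (p : ℝ))) * (∏ p ∈ F, (1 - 1 / (p : ℝ)))) * Lam X α * W := by ring
    _ ≤ (∏ p ∈ T, (1 - 1 / (p : ℝ))) * Lam X α * W := by gcongr
    _ = _ := by ring

end Pool.Agent.Helper123.SM
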