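import Pool.Agent.H361R2.PA.MultA

set_option autoImplicit false
set_option maxHeartbeats 4000000

/-! # Classes modulo the small primes for a set of linear forms -/

namespace Pool.Agent.Helper123.SM

open Finset Filter Pool.Agent.H318R2.Cr Pool.Agent.H361R2.PA

open scoped Classical

/-- the number of classes `c` modulo `p` missed by the form `α n + a` -/
theorem card_miss (p : ℕ) (hp : p.Prime) (x : ℕ × ℤ) (hx : ¬ p ∣ x.1) :
    (((range p).filter (fun c : ℕ => ¬ (p : ℤ) ∣ (x.1 : ℤ) * (c : ℤ) + x.2)).card : ℝ) ≤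
      p - 1 := by
  have hp0 : 0 < p := hp.pos
  obtain ⟨β, hβ⟩ := solveM p x.1 (-x.2) hp hx
  have hlt : β % p < p := Nat.mod_lt _ hp0
  have h1 : ((range p).filter (fun c : ℕ => ¬ (p : ℤ) ∣ (x.1 : ℤ) * (c : ℤ) + x.2)) ⊆
      (range p).erase (β % p) := by
    intro c hc
    rw [mem_filter] at hc
    rw [mem_erase]
    refine ⟨?_, hc.1⟩
    intro h
    apply hc.2
    rw [h]
    have h2 : (β : ℤ) = ((β % p : ℕ) : ℤ) + p * ((β / p : ℕ) : ℤ) := by
      exact_mod_cast (Nat.mod_add_div β p).symm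
    have h3 : (p : ℤ) ∣ (x.1 : ℤ) * (p * ((β / p : ℕ) : ℤ)) :=
      ⟨(x.1 : ℤ) * ((β / p : ℕ) : ℤ), by ring⟩
    have h4 := dvd_sub hβ h3
    refine h4.trans (dvd_of_eq ?_)
    rw [h2]
    ring
  have h2 := card_le_card h1
  rw [card_erase_of_mem (mem_range.2 hlt), card_range] at h2
  have h3 : ((p - 1 : ℕ) : ℝ) = (p : ℝ) - 1 := by
    rw [Nat.cast_sub hp.one_lt.le]
    norm_num
  rw [← h3]
  exact_mod_cast h2

/-- one class modulo `p` for a weighted set of forms -/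
theorem one_classW (p : ℕ) (hp : p.Prime) (A : Finset (ℕ × ℤ)) (w : ℕ × ℤ → ℝ)
    (hw : ∀ x ∈ A, 0 ≤ w x) : ∃ c : ℕ,
    ∑ x ∈ A.filter (fun x => ¬ (p : ℤ) ∣ (x.1 : ℤ) * (c : ℤ) + x.2), w x ≤
      ∑ x ∈ A, w x * (if p ∣ x.1 then 1 else 1 - 1 / (p : ℝ)) := by
  have hp0 : (0 : ℝ) < p := by exact_mod_cast hp.pos
  have key : ∑ c ∈ range p,
      ∑ x ∈ A.filter (fun x => ¬ (p : ℤ) ∣ (x.1 : ℤ) * (c : ℤ) + x.2), w x ≤
      ∑ _c ∈ range p, ∑ x ∈ A, w x * (if p ∣ x.1 then 1 else 1 - 1 / (p : ℝ)) := by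
    rw [sum_const, card_range, nsmul_eq_mul, mul_sum]
    have h1 : ∀ c ∈ range p,
        ∑ x ∈ A.filter (fun x => ¬ (p : ℤ) ∣ (x.1 : ℤ) * (c : ℤ) + x.2), w x =
        ∑ x ∈ A, (if ¬ (p : ℤ) ∣ (x.1 : ℤ) * (c : ℤ) + x.2 then w x else 0) := by
      intro c _
      rw [sum_filter]
    rw [sum_congr rfl h1, sum_comm]
    apply sum_le_sum
    intro x hx
    have h2 : ∑ c ∈ range p, (if ¬ (p : ℤ) ∣ (x.1 : ℤ) * (c : ℤ) + x.2 then w x else 0) =
        (((range p).filter (fun c : ℕ => ¬ (p : ℤ) ∣ (x.1 : ℤ) * (c : ℤ) + x.2)).card : ℝ) *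
          w x := by
      rw [← sum_filter, sum_const, nsmul_eq_mul]
    rw [h2]
    by_cases h : p ∣ x.1
    · rw [if_pos h]
      have h3 : (((range p).filter
          (fun c : ℕ => ¬ (p : ℤ) ∣ (x.1 : ℤ) * (c : ℤ) + x.2)).card : ℝ) ≤ p := by
        have h4 := card_le_card (filter_subset
          (fun c : ℕ => ¬ (p : ℤ) ∣ (x.1 : ℤ) * (c : ℤ) + x.2) (range p))
        rw [card_range] at h4
        exact_mod_cast h4
      have := mul_le_mul_of_nonneg_right h3 (hw x hx)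
      linarith
    · rw [if_neg h]
      have h3 := mul_le_mul_of_nonneg_right (card_miss p hp x h) (hw x hx)
      have h4 : (p : ℝ) * (w x * (1 - 1 / (p : ℝ))) = (p - 1) * w x := by
        field_simp
      rw [h4]
      exact h3
  obtain ⟨c, _, hc⟩ := exists_le_of_sum_le ⟨0, mem_range.2 hp.pos⟩ key
  exact ⟨c, hc⟩

/-- classes modulo the primes of `S` for a set of forms: on average a form `α n + a` survives
with weight the product of `1 - 1/p` over the primes of `S` not dividing `α` -/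
theorem presieveW (S : Finset ℕ) (hS : ∀ p ∈ S, p.Prime) : ∀ A : Finset (ℕ × ℤ), ∃ b : ℕ → ℕ,
    ((A.filter (fun x => ∀ p ∈ S, ¬ (p : ℤ) ∣ (x.1 : ℤ) * (b p : ℤ) + x.2)).card : ℝ) ≤
      ∑ x ∈ A, ∏ p ∈ S.filter (fun p => ¬ p ∣ x.1), (1 - 1 / (p : ℝ)) := by
  induction S using Finset.induction_on with
  | empty => intro A; exact ⟨fun _ => 0, by simp⟩
  | insert p S hpS ih =>
    intro A
    have hp := hS p (mem_insert_self _ _)
    have hS' : ∀ q ∈ S, q.Prime := fun q hq => hS q (mem_insert_of_mem hq)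
    obtain ⟨c, hc⟩ := one_classW p hp A
      (fun x => ∏ q ∈ S.filter (fun q => ¬ q ∣ x.1), (1 - 1 / (q : ℝ)))
      (fun x _ => prod_nonneg fun q hq => (one_sub_inv_pos (hS' q (mem_filter.1 hq).1)).le)
    obtain ⟨b, hb⟩ := ih hS'
      (A.filter (fun x => ¬ (p : ℤ) ∣ (x.1 : ℤ) * (c : ℤ) + x.2))
    refine ⟨Function.update b p c, ?_⟩
    have h8 : A.filter (fun x => ∀ q ∈ insert p S,
          ¬ (q : ℤ) ∣ (x.1 : ℤ) * (Function.update b p c q : ℤ) + x.2) ⊆
        (A.filter (fun x => ¬ (p : ℤ) ∣ (x.1 : ℤ) * (c : ℤ) + x.2)).filter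
          (fun x => ∀ q ∈ S, ¬ (q : ℤ) ∣ (x.1 : ℤ) * (b q : ℤ) + x.2) := by
      intro x hx
      rw [mem_filter] at hx
      rw [mem_filter, mem_filter]
      refine ⟨⟨hx.1, ?_⟩, ?_⟩
      · have := hx.2 p (mem_insert_self _ _)
        rwa [Function.update_self] at this
      · intro q hq
        have h9 : q ≠ p := fun h => hpS (h ▸ hq)
        have := hx.2 q (mem_insert_of_mem hq)
        rwa [Function.update_of_ne h9] at this
    refine le_trans (Nat.cast_le.2 (card_le_card h8)) (hb.trans (hc.trans (le_of_eq ?_)))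
    apply sum_congr rfl
    intro x _
    by_cases h : p ∣ x.1
    · rw [if_pos h, mul_one, filter_insert, if_neg (not_not.2 h)]
    · rw [if_neg h, filter_insert, if_pos h, prod_insert (fun h1 => hpS (mem_filter.1 h1).1)]
      ring

end Pool.Agent.Helper123.SM
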