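import Pool.Agent.H256R2.SC.R
import Pool.Agent.H256R2.SC.G3
import Pool.Agent.H361R2.PA.CovD
import Pool.Agent.H361R2.PA.Asm

set_option autoImplicit false
set_option maxHeartbeats 4000000

/-! # Translates without primes, coprime to a given integer

Adapted from `Pool/Agent/H256R2/SC/G3.lean`. -/

namespace Pool.Agent.Helper123.SM.Prog

open Finset Pool.Agent.H256R2.SC.G3

open scoped Classical

theorem coverH (A : ℕ) : ∃ c : ℝ, 0 < c ∧ ∃ X₀ : ℕ, ∀ X : ℕ, X₀ ≤ X →
    ∀ D : ℕ, D ≠ 0 → (D.primeFactors.card : ℝ) ≤ Real.log X / 20 →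
    ∀ H : Finset ℕ, (∀ h ∈ H, Real.log h ≤ (Real.log X) ^ A) →
    (H.card : ℝ) ≤ c * ((Nat.totient D : ℝ) / D) * (Real.log X * Real.log (Real.log X)) →
    ∃ a : ℕ, (X : ℝ) / 2 ≤ a ∧ a < X ∧ Nat.Coprime a D ∧ ∀ h ∈ H, ¬ (a + h).Prime := by
  obtain ⟨c₁', hc₁', X₀, hcov⟩ := Pool.Agent.H361R2.PA.coveringD (A + 3) (by omega)
  set c₁ : ℝ := min c₁' 1 with hc₁def
  have hc₁ : 0 < c₁ := lt_min hc₁' one_pos
  have hc₁le : c₁ ≤ c₁' := min_le_left _ _
  have hc₁1 : c₁ ≤ 1 := min_le_right _ _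
  obtain ⟨C, hC0, hC⟩ := mertens_prod
  obtain ⟨D₂, hD₂⟩ : ∃ D₂ : ℕ, Real.exp 400 ≤ D₂ := exists_nat_ge _
  obtain ⟨D₃, hD₃⟩ : ∃ D₃ : ℕ, X₀ ≤ D₃ := exists_nat_ge _
  set c' : ℝ := min 1 (c₁ * Real.exp (-C) / 2) with hc'
  have hc'0 : 0 < c' := by rw [hc']; exact lt_min one_pos (by positivity)
  have hc'1 : c' ≤ 1 := min_le_left _ _
  have hc'2 : 2 * c' * Real.exp C ≤ c₁ := by
    have h1 : c' ≤ c₁ * Real.exp (-C) / 2 := min_le_right _ _
    have h2 : Real.exp (-C) * Real.exp C = 1 := by rw [← Real.exp_add]; simp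
    have h3 := mul_le_mul_of_nonneg_right h1 (Real.exp_pos C).le
    nlinarith
  refine ⟨c', by positivity, max D₂ D₃, fun d hd D hD0 hDω H hH hHc => ?_⟩
  have hd2 : D₂ ≤ d := (le_max_left _ _).trans hd
  have hd3 : D₃ ≤ d := (le_max_right _ _).trans hd
  have hX0 : X₀ ≤ d := hD₃.trans (by exact_mod_cast hd3)
  have hexp : Real.exp 400 ≤ d := hD₂.trans (by exact_mod_cast hd2)
  have hdpos : (0 : ℝ) < d := (Real.exp_pos _).trans_le hexp
  have hd0 : d ≠ 0 := by
    intro h; rw [h] at hdpos; simp at hdpos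
  have hl : 400 ≤ Real.log d := by
    rw [Real.le_log_iff_exp_le hdpos]; exact hexp
  have hdr1 : (1 : ℝ) ≤ d := by
    have := Real.add_one_le_exp 400
    linarith
  obtain ⟨s1, s2, s3, s4⟩ := sizes (Real.log d) hl
  set l := Real.log d with hldef
  set Ny := ⌊l / 10⌋₊ with hNy
  have hNyle : (Ny : ℝ) ≤ l / 10 := Nat.floor_le (by linarith)
  set pf := D.primeFactors with hpf
  have hom : (2 : ℝ) ^ pf.card ≤ (d : ℝ) ^ (1 / 20 : ℝ) := by
    have h2 : (2 : ℝ) ^ pf.card = Real.exp (pf.card * Real.log 2) := by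
      rw [← Real.rpow_natCast, Real.rpow_def_of_pos (by norm_num)]
      ring_nf
    rw [h2, Real.rpow_def_of_pos hdpos, ← hldef]
    apply Real.exp_le_exp.2
    have h5 := Real.log_two_lt_d9
    have h6 := Real.log_two_gt_d9
    have h7 : (0 : ℝ) ≤ (pf.card : ℝ) := by positivity
    nlinarith
  set S := ((Finset.Icc 1 Ny).filter Nat.Prime) \ pf with hS
  have hSp : ∀ p ∈ S, p.Prime := by
    intro p hp
    rw [hS, Finset.mem_sdiff, Finset.mem_filter] at hp
    exact hp.1.2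
  have hSle : ∀ p ∈ S, p ≤ Ny := by
    intro p hp
    rw [hS, Finset.mem_sdiff, Finset.mem_filter, Finset.mem_Icc] at hp
    exact hp.1.1.2
  have hSd : ∀ p ∈ S, ¬ p ∣ D := by
    intro p hp hpd
    have h1 := hSp p hp
    rw [hS, Finset.mem_sdiff] at hp
    exact hp.2 (Nat.mem_primeFactors.2 ⟨h1, hpd, hD0⟩)
  set P := ∏ p ∈ S, p with hP
  have hPpos : 0 < P := Finset.prod_pos fun p hp => (hSp p hp).pos
  have hPd : Nat.Coprime P D := by
    rw [hP]
    apply Nat.Coprime.prod_left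
    intro p hp
    exact (Nat.Prime.coprime_iff_not_dvd (hSp p hp)).2 (hSd p hp)
  have hPle : P ≤ 4 ^ Ny := by
    refine le_trans ?_ (primorial_le_four_pow Ny)
    unfold primorial
    apply Finset.prod_le_prod_of_subset_of_one_le'
    · intro p hp
      rw [Finset.mem_filter, Finset.mem_range]
      exact ⟨Nat.lt_succ_of_le (hSle p hp), hSp p hp⟩
    · intro p hp _
      rw [Finset.mem_filter] at hp
      exact hp.2.one_lt.le
  have hPr : (P : ℝ) ≤ (d : ℝ) ^ (7 / 50 : ℝ) := by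
    have h1 : (P : ℝ) ≤ (4 : ℝ) ^ Ny := by exact_mod_cast hPle
    have h2 : (4 : ℝ) ^ Ny = Real.exp (Ny * Real.log 4) := by
      rw [← Real.rpow_natCast, Real.rpow_def_of_pos (by norm_num)]
      ring_nf
    have h3 : (d : ℝ) ^ (7 / 50 : ℝ) = Real.exp (l * (7 / 50)) := by
      rw [Real.rpow_def_of_pos hdpos]
    rw [h3]
    rw [h2] at h1
    refine h1.trans (Real.exp_le_exp.2 ?_)
    have h4 : Real.log 4 = 2 * Real.log 2 := by
      rw [show (4 : ℝ) = 2 ^ 2 by norm_num, Real.log_pow]; push_cast; ring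
    have h5 := Real.log_two_lt_d9
    have h6 : Real.log 4 ≤ 7 / 5 := by linarith
    have h7 : 0 ≤ Real.log 4 := by rw [h4]; have := Real.log_two_gt_d9; linarith
    nlinarith
  obtain ⟨b, hb1, hb2⟩ := Pool.Agent.H256R2.SC.greedy_all S hSp H
  set U := H.filter (fun k => ∀ p ∈ S, ¬ k ≡ b p [MOD p]) with hU
  have hUcard : (U.card : ℝ) ≤ c₁ * l := by
    refine hb2.trans ?_
    have h1 := hC Ny s1 pf (fun p hp => Nat.prime_of_mem_primeFactors hp)
    rw [← totient_div D hD0] at h1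
    have h2 : Real.exp C / Real.log Ny ≤ 2 * Real.exp C / Real.log l := by
      rw [div_le_div_iff₀ (by linarith) (by linarith)]
      have := Real.exp_pos C
      nlinarith
    have h3 : 0 ≤ ∏ p ∈ S, (1 - 1 / (p : ℝ)) := by
      apply Finset.prod_nonneg
      intro p hp
      have : (1 : ℝ) < p := by exact_mod_cast (hSp p hp).one_lt
      have : 1 / (p : ℝ) < 1 := by rw [div_lt_one (by linarith)]; exact this
      linarith
    have hll : 0 < Real.log l := by linarith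
    calc (H.card : ℝ) * ∏ p ∈ S, (1 - 1 / (p : ℝ)) ≤
          (c' * ((Nat.totient D : ℝ) / D) * (l * Real.log l)) * ∏ p ∈ S, (1 - 1 / (p : ℝ)) :=
          mul_le_mul_of_nonneg_right hHc h3
      _ = (c' * l * Real.log l) * ((∏ p ∈ S, (1 - 1 / (p : ℝ))) * ((Nat.totient D : ℝ) / D)) := by
          ring
      _ ≤ (c' * l * Real.log l) * (2 * Real.exp C / Real.log l) := by
          apply mul_le_mul_of_nonneg_left (h1.trans h2)
          have : 0 ≤ l := by linarith
          positivity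
      _ = (2 * c' * Real.exp C) * l := by
          field_simp
      _ ≤ c₁ * l := by
          apply mul_le_mul_of_nonneg_right hc'2 (by linarith)
  have hUl : (U.card : ℝ) ≤ l := by nlinarith
  -- the residue class modulo the small primes
  obtain ⟨b0, hb0, hb0'⟩ := crt_small S hSp (fun p => b p)
  rw [← hP] at hb0
  have hl3 : l ≤ l ^ (A + 3) := by
    calc l = l ^ 1 := (pow_one l).symm
      _ ≤ l ^ (A + 3) := pow_le_pow_right₀ (by linarith) (by omega)
  -- residues modulo the large primes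
  have hinv : ∀ p : ℕ, p.Prime → l ^ (A + 3) < p → ∃ u : ℤ, (p : ℤ) ∣ P * u - 1 := by
    intro p hp hpl
    have h1 : Nat.Coprime P p := by
      rw [hP]
      apply Nat.Coprime.prod_left
      intro r hr
      rw [Nat.coprime_primes (hSp r hr) hp]
      rintro rfl
      have h2 : (r : ℝ) ≤ l / 10 := (by exact_mod_cast hSle r hr : (r : ℝ) ≤ Ny).trans hNyle
      linarith
    obtain ⟨u, w, huw⟩ := Nat.isCoprime_iff_coprime.2 h1
    refine ⟨u, -w, ?_⟩
    linear_combination huw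
  choose! inv hinv using hinv
  set res : ℕ → {k // k ∈ U} → ℤ := fun p k => -((b0 : ℤ) + (k.1 : ℤ)) * inv p with hres
  -- the set of candidates
  set m0 : ℤ := (d / (2 * P) : ℕ) + 1 with hm0
  set Ln : ℕ := d / P - (d / (2 * P) + 1) with hLn
  set 𝒜 := (Finset.Ico m0 (m0 + Ln)).filter (fun x => IsCoprime ((b0 : ℤ) + P * x) (D : ℤ)) with h𝒜
  -- the exceptional primes
  set B0 : Finset ℕ := (U ×ˢ U).biUnion (fun x =>
    (((x.1 : ℤ) - x.2).natAbs.primeFactors).filter (fun p : ℕ => l ^ (A + 3) < p)) with hB0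
  set B : Finset ℕ := B0 ∪ pf with hB
  have ht1 : (1:ℝ) ≤ l ^ (A + 3) := one_le_pow₀ (by linarith)
  have hlog1 : 1 ≤ Real.log (l ^ (A + 3)) := by
    have h3 : Real.exp 1 ≤ l ^ (A + 3) := by
      have := Real.exp_one_lt_d9
      linarith
    calc (1:ℝ) = Real.log (Real.exp 1) := (Real.log_exp 1).symm
      _ ≤ _ := Real.log_le_log (Real.exp_pos 1) h3
  have hBcard : 2 * (B.card : ℝ) ≤ l ^ (A + 3) := by
    have hone : ∀ x ∈ U ×ˢ U, (((((x.1 : ℤ) - x.2).natAbs.primeFactors).filter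
        (fun p : ℕ => l ^ (A + 3) < p)).card : ℝ) ≤ l ^ A := by
      intro x hx
      rw [mem_product] at hx
      have hl0 : 0 ≤ l ^ A := by positivity
      by_cases h0 : ((x.1 : ℤ) - x.2).natAbs = 0
      · rw [h0]
        simp only [Nat.primeFactors_zero, filter_empty, card_empty, Nat.cast_zero]
        exact hl0
      · have h1 := Pool.Agent.H361R2.PA.card_large_factors _ h0 _ ht1
        have h3 : Real.log (((x.1 : ℤ) - x.2).natAbs : ℝ) ≤ l ^ A := by
          have e1 : ((x.1 : ℤ) - x.2).natAbs ≤ x.1 ∨ ((x.1 : ℤ) - x.2).natAbs ≤ x.2 := by omega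
          have e0 : (0 : ℝ) < (((x.1 : ℤ) - x.2).natAbs : ℝ) := by
            exact_mod_cast Nat.pos_of_ne_zero h0
          rcases e1 with e | e
          · refine (Real.log_le_log e0 ?_).trans (hH x.1 (mem_filter.1 hx.1).1)
            exact_mod_cast e
          · refine (Real.log_le_log e0 ?_).trans (hH x.2 (mem_filter.1 hx.2).1)
            exact_mod_cast e
        have h4 : (0:ℝ) ≤ (((((x.1 : ℤ) - x.2).natAbs.primeFactors).filter
          (fun p : ℕ => l ^ (A + 3) < p)).card : ℝ) := Nat.cast_nonneg _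
        nlinarith
    have h1 : (B0.card : ℝ) ≤ ∑ x ∈ U ×ˢ U, l ^ A := by
      calc (B0.card : ℝ) ≤ ((∑ x ∈ U ×ˢ U,
            ((((x.1 : ℤ) - x.2).natAbs.primeFactors).filter
            (fun p : ℕ => l ^ (A + 3) < p)).card : ℕ) : ℝ) := Nat.cast_le.2 card_biUnion_le
        _ = ∑ x ∈ U ×ˢ U, (((((x.1 : ℤ) - x.2).natAbs.primeFactors).filter
            (fun p : ℕ => l ^ (A + 3) < p)).card : ℝ) := Nat.cast_sum _ _
        _ ≤ _ := sum_le_sum hone
    rw [sum_const, nsmul_eq_mul, card_product] at h1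
    push_cast at h1
    have hcQ0 : (0:ℝ) ≤ U.card := Nat.cast_nonneg _
    have hLD1 : (1:ℝ) ≤ l ^ A := one_le_pow₀ (by linarith)
    have h2 : (U.card : ℝ) * U.card * l ^ A ≤ l * l * l ^ A := by
      apply mul_le_mul_of_nonneg_right _ (by positivity)
      exact mul_le_mul hUl hUl hcQ0 (by linarith)
    have h7 : (B.card : ℝ) ≤ (B0.card : ℝ) + (pf.card : ℝ) := by
      exact_mod_cast card_union_le _ _
    have h8 : l ^ (A + 3) = l * (l * l * l ^ A) := by ring
    have h9 : l ≤ l * l * l ^ A := by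
      have h10 : l * l ≤ l * l * l ^ A := by nlinarith [mul_nonneg (by linarith : (0:ℝ) ≤ l) (by linarith : (0:ℝ) ≤ l)]
      nlinarith
    have h11 : 4 * (l * l * l ^ A) ≤ l * (l * l * l ^ A) := by
      apply mul_le_mul_of_nonneg_right (by linarith)
      positivity
    rw [h8]
    linarith
  -- size of the interval
  have hPr0 : (0 : ℝ) < P := by exact_mod_cast hPpos
  have hdP : (d : ℝ) ^ (43 / 50 : ℝ) ≤ d / P := by
    rw [le_div_iff₀ hPr0]
    calc (d : ℝ) ^ (43 / 50 : ℝ) * P ≤ (d : ℝ) ^ (43 / 50 : ℝ) * (d : ℝ) ^ (7 / 50 : ℝ) :=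
          mul_le_mul_of_nonneg_left hPr (by positivity)
      _ = d := by rw [← Real.rpow_add hdpos]; norm_num
  have hbig : ∀ e : ℝ, 1 / 50 ≤ e → 16 ≤ (d : ℝ) ^ e := by
    intro e he
    rw [Real.rpow_def_of_pos hdpos]
    have h1 : (8 : ℝ) ≤ l * e := by nlinarith
    have h2 := Real.exp_le_exp.2 h1
    have h3 : (16 : ℝ) ≤ Real.exp 8 := by
      have h4 : Real.exp 8 = Real.exp 1 ^ 8 := by
        rw [← Real.exp_nat_mul]; norm_num
      have h5 := Real.exp_one_gt_d9
      rw [h4]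
      calc (16 : ℝ) ≤ 2 ^ 8 := by norm_num
        _ ≤ Real.exp 1 ^ 8 := pow_le_pow_left₀ (by norm_num) (by linarith) 8
    exact h3.trans h2
  have hLr : (d : ℝ) / P / 4 ≤ Ln := by
    have h1 : (d : ℝ) / P < (d / P : ℕ) + 1 := by
      rw [div_lt_iff₀ hPr0]
      have : d < (d / P + 1) * P := by
        have := Nat.lt_mul_div_succ d hPpos
        linarith [this]
      exact_mod_cast this
    have h2 : ((d / (2 * P) : ℕ) : ℝ) ≤ (d : ℝ) / P / 2 := by
      have := @Nat.cast_div_le ℝ _ _ _ d (2 * P)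
      refine this.trans ?_
      push_cast
      apply le_of_eq
      field_simp
    have h3 : (16 : ℝ) ≤ d / P := (hbig (43 / 50) (by norm_num)).trans hdP
    have h4 : ((d / P : ℕ) : ℝ) ≤ Ln + ((d / (2 * P) : ℕ) + 1 : ℝ) := by
      have : d / P ≤ Ln + (d / (2 * P) + 1) := by omega
      exact_mod_cast this
    linarith
  have hN : (d : ℝ) ^ (1 / 2 : ℝ) ≤ Ln * ((Nat.totient D : ℕ) : ℝ) / D := by
    have h1 : (d : ℝ) ^ (-(1 / 20) : ℝ) ≤ (Nat.totient D : ℝ) / D := by
      rw [totient_div D hD0]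
      refine le_trans ?_ (prod_ge_half D)
      rw [Real.rpow_neg hdpos.le, one_div_pow, ← one_div]
      exact one_div_le_one_div_of_le (by positivity) hom
    have h2 : (d : ℝ) ^ (43 / 50 : ℝ) / 4 ≤ Ln := by
      have : (d : ℝ) ^ (43 / 50 : ℝ) / 4 ≤ d / P / 4 := by linarith
      linarith
    have h3 : (4 : ℝ) ≤ (d : ℝ) ^ (31 / 100 : ℝ) := by
      have := hbig (31 / 100) (by norm_num)
      linarith
    have h4 : (d : ℝ) ^ (43 / 50 : ℝ) * (d : ℝ) ^ (-(1 / 20) : ℝ) =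
        (d : ℝ) ^ (31 / 100 : ℝ) * (d : ℝ) ^ (1 / 2 : ℝ) := by
      rw [← Real.rpow_add hdpos, ← Real.rpow_add hdpos]
      norm_num
    have h5 : (0 : ℝ) < (d : ℝ) ^ (1 / 2 : ℝ) := by positivity
    calc (d : ℝ) ^ (1 / 2 : ℝ) ≤ (d : ℝ) ^ (31 / 100 : ℝ) * (d : ℝ) ^ (1 / 2 : ℝ) / 4 := by
          nlinarith
      _ = (d : ℝ) ^ (43 / 50 : ℝ) / 4 * (d : ℝ) ^ (-(1 / 20) : ℝ) := by
          rw [← h4]; ring
      _ ≤ Ln * ((Nat.totient D : ℝ) / D) :=
          mul_le_mul h2 h1 (by positivity) (by positivity)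
      _ = _ := by ring
  have hErr : (2 : ℝ) ^ pf.card ≤ (d : ℝ) ^ (1 / 10 : ℝ) :=
    hom.trans (Real.rpow_le_rpow_of_exponent_le hdr1 (by norm_num))
  -- apply the covering theorem
  obtain ⟨x, hxA, hx⟩ := hcov d hX0 B hBcard {k // k ∈ U}
    (by
      rw [Fintype.card_coe]
      refine hUcard.trans ?_
      exact mul_le_mul_of_nonneg_right hc₁le (by linarith)) res (by
      intro p hp hpl _ hpB k k' hkk' hdvd
      have h1 := hinv p hp hpl
      have hpi : Prime (p : ℤ) := Nat.prime_iff_prime_int.1 hp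
      have h2 : res p k - res p k' = -(((k.1 : ℤ) - k'.1) * inv p) := by
        simp only [hres]; ring
      rw [h2, dvd_neg] at hdvd
      rcases hpi.dvd_or_dvd hdvd with h4 | h3
      · -- p | k - k'
        apply hpB
        rw [hB, mem_union, hB0]
        left
        rw [mem_biUnion]
        refine ⟨(k.1, k'.1), mem_product.2 ⟨k.2, k'.2⟩, ?_⟩
        rw [mem_filter, Nat.mem_primeFactors]
        refine ⟨⟨hp, Int.natCast_dvd.1 h4, ?_⟩, hpl⟩
        intro h0
        apply hkk'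
        apply Subtype.ext
        have h5 : ((k.1 : ℤ) - k'.1) = 0 := Int.natAbs_eq_zero.1 h0
        omega
      · -- p | inv p
        have h6 : (p : ℤ) ∣ 1 := by
          have h7 : (p : ℤ) ∣ P * inv p := Dvd.dvd.mul_left h3 _
          have := dvd_sub h7 h1
          simpa using this
        exact hpi.not_isUnit (isUnit_of_dvd_one h6))
    𝒜 (Ln * ((Nat.totient D : ℕ) : ℝ) / D) (2 ^ pf.card) hN (by positivity) hErr (by
      intro q hq _ hqp r
      have hqpos : 0 < q := Nat.pos_of_ne_zero hq.ne_zero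
      have hqd : Nat.Coprime q D := by
        rw [Nat.coprime_iff_gcd_eq_one]
        by_contra hg
        obtain ⟨p, hp, hpg⟩ := Nat.exists_prime_and_dvd hg
        have h1 : p ∣ q := hpg.trans (Nat.gcd_dvd_left _ _)
        have h2 : p ∣ D := hpg.trans (Nat.gcd_dvd_right _ _)
        exact (hqp p (Nat.mem_primeFactors.2 ⟨hp, h1, hqpos.ne'⟩)).2
          (mem_union_right _ (Nat.mem_primeFactors.2 ⟨hp, h2, hD0⟩))
      have h5 := count_main D P q hD0 hqpos hPd hqd b0 m0 r Ln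
      convert h5 using 6)
  rw [h𝒜, Finset.mem_filter, Finset.mem_Ico] at hxA
  obtain ⟨⟨hx1, hx2⟩, hxc⟩ := hxA
  -- the residue class
  have hx0 : 0 ≤ x := by
    have : (0 : ℤ) ≤ (d / (2 * P) : ℕ) := by positivity
    omega
  obtain ⟨xn, rfl⟩ := Int.eq_ofNat_of_zero_le hx0
  set a := b0 + P * xn with ha
  have haz : ((a : ℕ) : ℤ) = (b0 : ℤ) + P * (xn : ℤ) := by rw [ha]; push_cast; ring
  have hxlow : d / (2 * P) + 1 ≤ xn := by
    have : m0 ≤ (xn : ℤ) := hx1
    rw [hm0] at this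
    exact_mod_cast this
  have hxup : xn < d / P := by
    have h1 : (xn : ℤ) < m0 + Ln := hx2
    rw [hm0] at h1
    have h2 : xn < d / (2 * P) + 1 + Ln := by exact_mod_cast h1
    omega
  have had : a < d := by
    calc a < P + P * xn := by rw [ha]; omega
      _ = P * (xn + 1) := by ring
      _ ≤ P * (d / P) := Nat.mul_le_mul_left _ hxup
      _ ≤ d := Nat.mul_div_le d P
  have halow : (d : ℝ) / 2 ≤ a := by
    have h1 : d < 2 * P * (d / (2 * P) + 1) := Nat.lt_mul_div_succ d (by omega)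
    have h2 : 2 * P * (d / (2 * P) + 1) ≤ 2 * P * xn := Nat.mul_le_mul_left _ hxlow
    have h3 : d ≤ 2 * a := by
      rw [ha]
      nlinarith
    have h4 : (d : ℝ) ≤ 2 * a := by exact_mod_cast h3
    linarith
  have hacop : Nat.Coprime a D := by
    rw [← Nat.isCoprime_iff_coprime]
    rw [haz]
    exact hxc
  have hlr : l ≤ d := by
    have := Real.log_le_sub_one_of_pos hdpos
    linarith
  refine ⟨a, halow, had, hacop, fun k hkH hp => ?_⟩
  have hap : (a : ℝ) ≤ ((a + k : ℕ) : ℝ) := by exact_mod_cast Nat.le_add_right a k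
  by_cases hkU : k ∈ U
  · obtain ⟨r, hr, hrl, hrX, hrB, hrd⟩ := hx ⟨k, hkU⟩
    have h1 := hinv r hr hrl
    have h2 : (r : ℤ) ∣ ((a + k : ℕ) : ℤ) := by
      have e : ((a + k : ℕ) : ℤ) = P * ((xn : ℤ) - res r ⟨k, hkU⟩) -
          ((b0 : ℤ) + k) * (P * inv r - 1) := by
        simp only [hres]
        push_cast
        rw [haz]
        ring
      rw [e]
      exact dvd_sub (Dvd.dvd.mul_left hrd _) (Dvd.dvd.mul_left h1 _)
    have h3 : r ∣ a + k := by exact_mod_cast h2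
    have h4 : r = a + k := (Nat.prime_dvd_prime_iff_eq hr hp).1 h3
    have h5 : (d : ℝ) / 2 ≤ (d : ℝ) ^ (1 / 100 : ℝ) := by
      refine halow.trans (hap.trans ?_)
      rw [← h4]
      exact hrX
    have h6 : (d : ℝ) = (d : ℝ) ^ (99 / 100 : ℝ) * (d : ℝ) ^ (1 / 100 : ℝ) := by
      rw [← Real.rpow_add hdpos]; norm_num
    have h7 := hbig (99 / 100) (by norm_num)
    have h8 : (0 : ℝ) < (d : ℝ) ^ (1 / 100 : ℝ) := by positivity
    nlinarith
  · have h1 : ∃ r ∈ S, k ≡ b r [MOD r] := by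
      by_contra hcon
      push Not at hcon
      exact hkU (Finset.mem_filter.2 ⟨hkH, hcon⟩)
    obtain ⟨r, hr, hkr⟩ := h1
    have h2 : r ∣ b0 + b r := hb0' r hr
    have h3 : r ∣ P := Finset.dvd_prod_of_mem _ hr
    have h4 : a + k ≡ 0 [MOD r] := by
      rw [ha]
      have e1 : b0 + P * xn + k ≡ b0 + 0 + b r [MOD r] := by
        apply Nat.ModEq.add
        · apply Nat.ModEq.add_left
          exact Nat.modEq_zero_iff_dvd.2 (Dvd.dvd.mul_right h3 _)
        · exact hkr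
      refine e1.trans ?_
      rw [add_zero]
      exact Nat.modEq_zero_iff_dvd.2 h2
    have h5 : r ∣ a + k := Nat.modEq_zero_iff_dvd.1 h4
    have h6 : r = a + k := (Nat.prime_dvd_prime_iff_eq (hSp r hr) hp).1 h5
    have h7 : ((a + k : ℕ) : ℝ) ≤ l / 10 := by
      rw [← h6]
      exact (by exact_mod_cast hSle r hr : (r : ℝ) ≤ Ny).trans hNyle
    linarith

/-- least primes in one class modulo many moduli at once -/
theorem many_moduli (A : ℕ) : ∃ c : ℝ, 0 < c ∧ ∃ X₀ : ℕ, ∀ X : ℕ, X₀ ≤ X →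
    ∀ 𝒬 : Finset ℕ, (∀ q ∈ 𝒬, X ≤ q ∧ Real.log q ≤ (Real.log X) ^ A) →
    ((∏ q ∈ 𝒬, q).primeFactors.card : ℝ) ≤ Real.log X / 20 →
    ∀ M : ℕ → ℕ, (∑ q ∈ 𝒬, (M q : ℝ)) ≤
      c * ((Nat.totient (∏ q ∈ 𝒬, q) : ℝ) / ((∏ q ∈ 𝒬, q : ℕ) : ℝ)) *
        (Real.log X * Real.log (Real.log X)) →
    ∃ a : ℕ, (X : ℝ) / 2 ≤ a ∧ a < X ∧ ∀ q ∈ 𝒬, Nat.Coprime a q ∧
      ∀ p : ℕ, p.Prime → p ≡ a [MOD q] → M q * q < p := by
  obtain ⟨c, hc, X₀, h⟩ := coverH (A + 2)
  obtain ⟨X₁, hX₁⟩ : ∃ X₁ : ℕ, Real.exp 400 ≤ X₁ := exists_nat_ge _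
  refine ⟨min c 1, lt_min hc one_pos, max X₀ X₁, ?_⟩
  intro X hX 𝒬 h𝒬 hω M hM
  have hX0 : X₀ ≤ X := (le_max_left _ _).trans hX
  have hX1 : X₁ ≤ X := (le_max_right _ _).trans hX
  have hexp : Real.exp 400 ≤ X := hX₁.trans (by exact_mod_cast hX1)
  have hXpos : (0 : ℝ) < X := (Real.exp_pos _).trans_le hexp
  have hl : 400 ≤ Real.log X := by
    rw [Real.le_log_iff_exp_le hXpos]; exact hexp
  obtain ⟨_, _, s3, s4⟩ := sizes (Real.log X) hl
  set l := Real.log X with hldef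
  have hq0 : ∀ q ∈ 𝒬, 0 < q := by
    intro q hq
    have h1 : (0 : ℝ) < q := lt_of_lt_of_le hXpos (by exact_mod_cast (h𝒬 q hq).1)
    exact_mod_cast h1
  have hD0 : (∏ q ∈ 𝒬, q) ≠ 0 := (Finset.prod_pos fun q hq => hq0 q hq).ne'
  set D : ℕ := ∏ q ∈ 𝒬, q with hD
  have hDpos : (0 : ℝ) < D := by exact_mod_cast Nat.pos_of_ne_zero hD0
  have hphi1 : (Nat.totient D : ℝ) / D ≤ 1 := by
    rw [div_le_one hDpos]
    exact_mod_cast Nat.totient_le D
  have hphi0 : 0 ≤ (Nat.totient D : ℝ) / D := by positivity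
  set H : Finset ℕ := 𝒬.biUnion (fun q => (range (M q)).image (fun k => k * q)) with hH
  have hHcard : (H.card : ℝ) ≤ ∑ q ∈ 𝒬, (M q : ℝ) := by
    have h1 : H.card ≤ ∑ q ∈ 𝒬, M q := by
      refine card_biUnion_le.trans (sum_le_sum fun q _ => ?_)
      exact card_image_le.trans (card_range _).le
    exact_mod_cast h1
  have hll : 0 ≤ l * Real.log l := by
    have : 0 ≤ Real.log l := by linarith
    have : 0 ≤ l := by linarith
    positivity
  have hMl : ∀ q ∈ 𝒬, (M q : ℝ) ≤ l ^ 2 := by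
    intro q hq
    have h1 : (M q : ℝ) ≤ ∑ q ∈ 𝒬, (M q : ℝ) :=
      single_le_sum (f := fun q => (M q : ℝ)) (fun q _ => Nat.cast_nonneg _) hq
    have h2 : min c 1 * ((Nat.totient D : ℝ) / D) ≤ 1 := by
      have h3 : min c 1 ≤ 1 := min_le_right _ _
      have h4 : 0 < min c 1 := lt_min hc one_pos
      nlinarith
    have h3 : l * Real.log l ≤ l ^ 2 := by nlinarith
    nlinarith
  obtain ⟨a, ha1, ha2, ha3, ha4⟩ := h X hX0 D hD0 hω H (by
    intro x hx
    rw [hH, mem_biUnion] at hx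
    obtain ⟨q, hq, hx⟩ := hx
    rw [mem_image] at hx
    obtain ⟨k, hk, rfl⟩ := hx
    rw [mem_range] at hk
    have hq1 := h𝒬 q hq
    by_cases hk0 : k = 0
    · rw [hk0]
      simp only [zero_mul, Nat.cast_zero, Real.log_zero]
      positivity
    · have hkpos : (0 : ℝ) < k := by exact_mod_cast Nat.pos_of_ne_zero hk0
      have hqpos : (0 : ℝ) < q := by exact_mod_cast hq0 q hq
      push_cast
      rw [Real.log_mul hkpos.ne' hqpos.ne']
      have e1 : Real.log k ≤ l ^ 2 := by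
        have h1 : Real.log k ≤ k := by
          have := Real.log_le_sub_one_of_pos hkpos
          linarith
        have h2 : (k : ℝ) ≤ M q := by exact_mod_cast hk.le
        linarith [hMl q hq]
      have e2 : l ^ 2 ≤ l ^ 2 * l ^ A := by
        have : (1 : ℝ) ≤ l ^ A := one_le_pow₀ (by linarith)
        have h3 : 0 ≤ l ^ 2 := by positivity
        nlinarith
      have e3 : 2 * l ^ A ≤ l ^ 2 * l ^ A := by
        apply mul_le_mul_of_nonneg_right _ (by positivity)
        nlinarith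
      have e4 : l ^ (A + 2) = l ^ 2 * l ^ A := by ring
      have e5 : Real.log k ≤ l ^ 2 * l ^ A / 2 := by
        have h1 : Real.log k ≤ 2 * l := by
          have h2 : (k : ℝ) ≤ l ^ 2 := by
            have h2 : (k : ℝ) ≤ M q := by exact_mod_cast hk.le
            linarith [hMl q hq]
          have h3 := Real.log_le_log hkpos h2
          rw [Real.log_pow] at h3
          push_cast at h3
          linarith
        have h2 : 4 * l ≤ l ^ 2 := by nlinarith
        linarith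
      rw [e4]
      linarith [hq1.2]) (by
    refine hHcard.trans (hM.trans ?_)
    apply mul_le_mul_of_nonneg_right _ hll
    exact mul_le_mul_of_nonneg_right (min_le_left _ _) hphi0)
  refine ⟨a, ha1, ha2, fun q hq => ?_⟩
  have hqD : q ∣ D := Finset.dvd_prod_of_mem _ hq
  refine ⟨Nat.Coprime.coprime_dvd_right hqD ha3, fun p hp hpa => ?_⟩
  have hXq := (h𝒬 q hq).1
  have haq : a < q := lt_of_lt_of_le ha2 hXq
  have ha0 : 0 < a := by
    have : (0 : ℝ) < a := by linarith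
    exact_mod_cast this
  have h1 : p % q = a := by
    have h2 : p % q = a % q := hpa
    rw [h2, Nat.mod_eq_of_lt haq]
  have hpk : p = a + (p / q) * q := by
    have := Nat.mod_add_div p q
    rw [h1] at this
    linarith [mul_comm (p / q) q]
  have hMk : M q ≤ p / q := by
    by_contra hlt
    push Not at hlt
    have h2 : (p / q) * q ∈ H := by
      rw [hH, mem_biUnion]
      exact ⟨q, hq, mem_image.2 ⟨p / q, mem_range.2 hlt, rfl⟩⟩
    apply ha4 _ h2
    rw [← hpk]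
    exact hp
  calc M q * q ≤ (p / q) * q := Nat.mul_le_mul_right _ hMk
    _ < a + (p / q) * q := by omega
    _ = p := hpk.symm

end Pool.Agent.Helper123.SM.Prog
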