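import Pool.Agent.Helper123.SM.Win

set_option autoImplicit false
set_option maxHeartbeats 4000000

/-! # Prime-free neighbourhoods of all real multiples -/

namespace Pool.Agent.Helper123.SM

open Finset Pool.Agent.H318R2.Cr Pool.Agent.H361R2.PA

open scoped Classical

/-- Dirichlet's theorem on simultaneous approximation -/
theorem dirichlet (r q : ℕ) (hq : 1 ≤ q) (θ : Fin r → ℝ) : ∃ w₀ : ℕ, ∃ w : Fin r → ℤ,
    1 ≤ w₀ ∧ w₀ ≤ q ^ r ∧ ∀ i, |θ i * w₀ - w i| < 1 / q := by
  have hq0 : (0 : ℝ) < q := by exact_mod_cast hq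
  set f : ℕ → Fin r → ℕ := fun m i => ⌊q * Int.fract (θ i * m)⌋₊ with hf
  obtain ⟨a, ha, b, hb, hab, hfab⟩ := Finset.exists_ne_map_eq_of_card_lt_of_maps_to
    (s := range (q ^ r + 1)) (t := Fintype.piFinset (fun _ : Fin r => range q)) (f := f) (by
      rw [Fintype.card_piFinset_const, card_range, card_range]
      omega) (by
      intro m _
      rw [mem_coe, Fintype.mem_piFinset]
      intro i
      rw [mem_range, hf]
      have h1 := Int.fract_lt_one (θ i * m)
      have h2 := Int.fract_nonneg (θ i * m)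
      have h3 : q * Int.fract (θ i * m) < q := by nlinarith
      exact (Nat.floor_lt (by positivity)).2 h3)
  wlog hlt : a < b generalizing a b
  · exact this b hb a ha hab.symm hfab.symm (by omega)
  rw [mem_range] at ha hb
  refine ⟨b - a, fun i => ⌊θ i * b⌋ - ⌊θ i * a⌋, by omega, by omega, fun i => ?_⟩
  have h1 : ⌊q * Int.fract (θ i * a)⌋₊ = ⌊q * Int.fract (θ i * b)⌋₊ := congrFun hfab i
  have ha0 : 0 ≤ q * Int.fract (θ i * a) := mul_nonneg hq0.le (Int.fract_nonneg _)
  have hb0 : 0 ≤ q * Int.fract (θ i * b) := mul_nonneg hq0.le (Int.fract_nonneg _)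
  have e1 := Nat.floor_le ha0
  have e2 := Nat.lt_floor_add_one (q * Int.fract (θ i * a))
  have e3 := Nat.floor_le hb0
  have e4 := Nat.lt_floor_add_one (q * Int.fract (θ i * b))
  rw [h1] at e1 e2
  have h2 : |q * (Int.fract (θ i * b) - Int.fract (θ i * a))| < 1 := by
    rw [abs_lt]
    constructor <;> linarith
  rw [abs_mul, abs_of_pos hq0] at h2
  rw [lt_div_iff₀ hq0, mul_comm]
  have h3 : θ i * ((b - a : ℕ) : ℝ) - ((⌊θ i * b⌋ - ⌊θ i * a⌋ : ℤ) : ℝ) =
      Int.fract (θ i * b) - Int.fract (θ i * a) := by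
    rw [Nat.cast_sub hlt.le]
    push_cast
    unfold Int.fract
    ring
  rw [h3]
  exact h2

theorem realsY (D : ℕ) : ∃ c : ℝ, 0 < c ∧ ∃ Y₀ : ℝ, ∀ Y : ℝ, Y₀ ≤ Y → ∀ r : ℕ,
    ((r : ℝ) + 1) ^ 2 ≤ Real.log Y → ∀ θ : Fin r → ℝ,
    (∀ i, |θ i| ≤ Real.exp ((Real.log Y) ^ D)) →
    ∃ N : ℕ, 1 ≤ N ∧ (N : ℝ) ≤ (2 * Y) ^ (r + 1) ∧
      (∀ p : ℕ, p.Prime → c * (Real.log Y * Real.log (Real.log Y)) / (r + 1) < |(p : ℝ) - N|) ∧
      ∀ i, 1 ≤ |θ i * N| → ∀ p : ℕ, p.Prime →
        c * (Real.log Y * Real.log (Real.log Y)) / (r + 1) < |(p : ℝ) - θ i * N| := by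
  obtain ⟨c, hc, X₀, hwin⟩ := windowsS (D + 2)
  set c₁ : ℝ := min c 1 with hc₁
  have hc₁0 : 0 < c₁ := lt_min hc one_pos
  have hc₁c : c₁ ≤ c := min_le_left _ _
  refine ⟨c₁ / 2, by positivity, max X₀ (Real.exp (Real.exp (10000 / c₁))), ?_⟩
  intro Y hY r hr θ hθ
  have hY1 : X₀ ≤ Y := (le_max_left _ _).trans hY
  have hY2 : Real.exp (Real.exp (10000 / c₁)) ≤ Y := (le_max_right _ _).trans hY
  have hY0 : 0 < Y := (Real.exp_pos _).trans_le hY2
  set L := Real.log Y with hLdef
  have hLe : Real.exp (10000 / c₁) ≤ L := by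
    rw [hLdef, ← Real.log_exp (Real.exp (10000 / c₁))]
    exact Real.log_le_log (Real.exp_pos _) hY2
  have hL0 : 0 < L := (Real.exp_pos _).trans_le hLe
  have hLL : 10000 / c₁ ≤ Real.log L := by
    rw [← Real.log_exp (10000 / c₁)]
    exact Real.log_le_log (Real.exp_pos _) hLe
  have hc1 : c₁ ≤ 1 := min_le_right _ _
  have hdiv : 10000 ≤ 10000 / c₁ := by
    rw [le_div_iff₀ hc₁0]
    nlinarith
  have hLLc : 10000 ≤ c₁ * Real.log L := by
    rw [div_le_iff₀ hc₁0] at hLL
    linarith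
  have hL : 10000 ≤ L := by
    have := Real.add_one_le_exp (10000 / c₁)
    linarith
  have hr0 : (0 : ℝ) < (r : ℝ) + 1 := by positivity
  have hrL : (r : ℝ) + 1 ≤ Real.sqrt L := Real.le_sqrt_of_sq_le hr
  have hsL : Real.sqrt L * Real.sqrt L = L := Real.mul_self_sqrt hL0.le
  have hsL1 : 100 ≤ Real.sqrt L := by
    rw [show (100 : ℝ) = Real.sqrt 10000 by
      rw [show (10000 : ℝ) = 100 ^ 2 by norm_num, Real.sqrt_sq (by norm_num)]]
    exact Real.sqrt_le_sqrt hL
  set q : ℕ := ⌈Y⌉₊ with hq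
  have hYq : Y ≤ q := Nat.le_ceil Y
  have hY1' : 10001 ≤ Y := by
    have h1 := Real.add_one_le_exp (Real.exp (10000 / c₁))
    have h2 := Real.add_one_le_exp (10000 / c₁)
    linarith
  have hq1 : 1 ≤ q := by
    have : (1 : ℝ) ≤ q := by linarith
    exact_mod_cast this
  have hq0 : (0 : ℝ) < q := by linarith
  have hq2 : (q : ℝ) ≤ 2 * Y := by
    have := Nat.ceil_lt_add_one hY0.le
    linarith
  obtain ⟨w₀, w, hw1, hw2, hw⟩ := dirichlet r q hq1 θ
  have hw0r : (1 : ℝ) ≤ w₀ := by exact_mod_cast hw1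
  have hw₀Y : (w₀ : ℝ) ≤ (2 * Y) ^ r := by
    calc (w₀ : ℝ) ≤ (q : ℝ) ^ r := by exact_mod_cast hw2
      _ ≤ _ := by gcongr
  -- the length
  set K : ℝ := c₁ * (L * Real.log L) / (r + 1) with hK
  have hKbig : 10000 * Real.sqrt L ≤ K := by
    rw [hK, le_div_iff₀ hr0]
    calc 10000 * Real.sqrt L * (r + 1) ≤ 10000 * Real.sqrt L * Real.sqrt L := by gcongr
      _ = 10000 * L := by rw [mul_assoc, hsL]
      _ ≤ c₁ * Real.log L * L := by gcongr
      _ = _ := by ring
  -- the multipliers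
  set 𝒜 : Finset ℕ := insert w₀ (((univ : Finset (Fin r)).filter (fun i => w i ≠ 0)).image
    (fun i => (w i).natAbs)) with h𝒜
  have h𝒜card : (𝒜.card : ℝ) ≤ r + 1 := by
    have h1 : 𝒜.card ≤ r + 1 := by
      refine (card_insert_le _ _).trans ?_
      have h2 := card_image_le (s := (univ : Finset (Fin r)).filter (fun i => w i ≠ 0))
        (f := fun i => (w i).natAbs)
      have h3 := card_filter_le (univ : Finset (Fin r)) (fun i => w i ≠ 0)
      rw [card_univ, Fintype.card_fin] at h3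
      omega
    exact_mod_cast h1
  have hlog2Y : Real.log (2 * Y) ≤ 2 * L := by
    rw [Real.log_mul (by norm_num) hY0.ne', ← hLdef]
    have : Real.log 2 ≤ 1 := by
      have := Real.log_two_lt_d9
      linarith
    linarith
  have hL2 : L ^ (D + 3) = L ^ D * L ^ 3 := pow_add L D 3
  have hLD1 : 1 ≤ L ^ D := one_le_pow₀ (by linarith)
  have hsize : r * (2 * L) + L ^ D + 1 ≤ L ^ (D + 3) := by
    have h1 : (r : ℝ) ≤ L := by nlinarith
    have h2 : r * (2 * L) ≤ L * (2 * L) := by gcongr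
    have h3 : L * (2 * L) + L ^ D + 1 ≤ L ^ D * L ^ 3 := by
      have e1 : 2 * L ^ 2 + 2 ≤ L ^ 3 := by nlinarith [sq_nonneg L]
      have e2 : L ^ D * (2 * L ^ 2 + 2) ≤ L ^ D * L ^ 3 := by gcongr
      have e3 : 2 * L ^ 2 ≤ L ^ D * (2 * L ^ 2) := by
        have : 0 ≤ 2 * L ^ 2 := by positivity
        nlinarith
      nlinarith
    rw [hL2]
    linarith
  have hmem : ∀ α ∈ 𝒜, 1 ≤ α ∧ Real.log α ≤ L ^ (D + 2 + 1) ∧ Real.sqrt L ≤ K := by
    intro α hα
    have hKs : Real.sqrt L ≤ K := by linarith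
    rw [h𝒜, mem_insert, mem_image] at hα
    have hpow : Real.log ((2 * Y) ^ r) ≤ r * (2 * L) := by
      rw [Real.log_pow]
      gcongr
    rcases hα with rfl | ⟨i, hi, rfl⟩
    · refine ⟨hw1, ?_, hKs⟩
      have h1 := Real.log_le_log (by linarith) hw₀Y
      have h2 : (0 : ℝ) ≤ L ^ D := by positivity
      have h3 : D + 2 + 1 = D + 3 := by omega
      rw [h3]
      linarith
    · rw [mem_filter] at hi
      have hpos : 1 ≤ (w i).natAbs := Int.natAbs_pos.2 hi.2
      refine ⟨hpos, ?_, hKs⟩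
      have h1 : (((w i).natAbs : ℕ) : ℝ) = |((w i : ℤ) : ℝ)| := by
        rw [Nat.cast_natAbs]
        push_cast
        rfl
      have h2 : |((w i : ℤ) : ℝ)| ≤ Real.exp (r * (2 * L) + L ^ D + 1) := by
        have h3 := hw i
        have h4 : |((w i : ℤ) : ℝ)| ≤ |θ i * w₀| + 1 := by
          have e1 : ((w i : ℤ) : ℝ) = θ i * w₀ - (θ i * w₀ - w i) := by ring
          have e2 : |θ i * w₀ - (θ i * w₀ - w i)| ≤ |θ i * w₀| + |θ i * w₀ - w i| := abs_sub _ _
          have e3 : (1 : ℝ) / q ≤ 1 := by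
            rw [div_le_one hq0]
            exact_mod_cast hq1
          rw [← e1] at e2
          linarith
        have h5 : |θ i * w₀| ≤ Real.exp (L ^ D) * Real.exp (r * (2 * L)) := by
          rw [abs_mul, abs_of_nonneg (by linarith : (0 : ℝ) ≤ w₀)]
          have e1 : (w₀ : ℝ) ≤ Real.exp (r * (2 * L)) := by
            refine hw₀Y.trans ?_
            rw [← Real.log_le_iff_le_exp (by positivity)]
            exact hpow
          exact mul_le_mul (hθ i) e1 (by linarith) (Real.exp_pos _).le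
        have h6 : 1 ≤ Real.exp (L ^ D) * Real.exp (r * (2 * L)) := by
          rw [← Real.exp_add]
          apply Real.one_le_exp
          positivity
        have h7 : Real.exp (r * (2 * L) + L ^ D + 1) =
            Real.exp (L ^ D) * Real.exp (r * (2 * L)) * Real.exp 1 := by
          rw [← Real.exp_add, ← Real.exp_add]
          congr 1
          ring
        have h8 := Real.exp_one_gt_d9
        rw [h7]
        nlinarith
      have h3 : Real.log (((w i).natAbs : ℕ) : ℝ) ≤ r * (2 * L) + L ^ D + 1 := by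
        rw [Real.log_le_iff_le_exp (by exact_mod_cast hpos), h1]
        exact h2
      have h4 : D + 2 + 1 = D + 3 := by omega
      rw [h4]
      linarith
  have hsum : ∑ _α ∈ 𝒜, K + ∑ x ∈ (∅ : Finset (ℕ × ℤ)), (x.1 : ℝ) / (Nat.totient x.1 : ℝ) ≤
      c * (L * Real.log L) := by
    rw [sum_empty, add_zero, sum_const, nsmul_eq_mul]
    have hK0 : 0 ≤ K := by linarith [Real.sqrt_nonneg L]
    have hLL0 : 0 ≤ L * Real.log L := by
      have : 0 ≤ Real.log L := by linarith
      positivity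
    calc (𝒜.card : ℝ) * K ≤ (r + 1) * K := by gcongr
      _ = c₁ * (L * Real.log L) := by
        rw [hK]
        field_simp
      _ ≤ _ := by gcongr
  obtain ⟨n, hn1, hn2, hn3, -⟩ := hwin Y hY1 𝒜 (fun _ => K) hmem ∅ (by simp) hsum 0
  have hn0 : 0 < n := by
    have : (0 : ℝ) < n := by
      push_cast at hn1
      linarith
    exact_mod_cast this
  have hnY : (n : ℝ) ≤ Y := by
    push_cast at hn2
    linarith
  have hnr : (0 : ℝ) < n := by exact_mod_cast hn0
  have hcastn : ((n.toNat : ℕ) : ℤ) = n := Int.toNat_of_nonneg hn0.le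
  have hcastr : ((n.toNat : ℕ) : ℝ) = n := by exact_mod_cast hcastn
  have hKK : c₁ / 2 * (L * Real.log L) / (r + 1) + 1 ≤ K := by
    have h1 : c₁ / 2 * (L * Real.log L) / (r + 1) = K / 2 := by
      rw [hK]
      ring
    rw [h1]
    have := Real.sqrt_nonneg L
    linarith
  refine ⟨n.toNat * w₀, ?_, ?_, ?_, ?_⟩
  · have h1 : 1 ≤ n.toNat := by omega
    exact Nat.mul_le_mul h1 hw1
  · push_cast
    rw [hcastr, pow_succ]
    calc (n : ℝ) * w₀ ≤ Y * (2 * Y) ^ r := by gcongr
      _ ≤ (2 * Y) ^ r * (2 * Y) := by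
        have : 0 ≤ (2 * Y) ^ r := by positivity
        nlinarith
  · intro p hp
    by_contra hcon
    push Not at hcon
    have h1 : Prime (p : ℤ) := Nat.prime_iff_prime_int.1 hp
    apply hn3 w₀ (by rw [h𝒜]; exact mem_insert_self _ _) ((p : ℤ) - w₀ * n) ?_
    · have : (w₀ : ℤ) * n + ((p : ℤ) - w₀ * n) = p := by ring
      rw [this]
      exact h1
    · push_cast at hcon ⊢
      rw [hcastr] at hcon
      have : (p : ℝ) - w₀ * n = p - n * w₀ := by ring
      rw [this]
      linarith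
  · intro i hi p hp
    by_contra hcon
    push Not at hcon
    have h1 : Prime (p : ℤ) := Nat.prime_iff_prime_int.1 hp
    push_cast at hi hcon
    rw [hcastr] at hi hcon
    have hclose : |θ i * (n * w₀) - n * w i| < 1 := by
      have e1 : θ i * (n * w₀) - n * w i = n * (θ i * w₀ - w i) := by ring
      rw [e1, abs_mul, abs_of_pos hnr]
      calc (n : ℝ) * |θ i * w₀ - w i| < n * (1 / q) := by
            have := hw i
            gcongr
        _ ≤ Y * (1 / Y) := by gcongr
        _ = 1 := by field_simp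
    have hwi : w i ≠ 0 := by
      intro h0
      rw [h0] at hclose
      simp only [Int.cast_zero, mul_zero, sub_zero] at hclose
      linarith
    have hmemi : (w i).natAbs ∈ 𝒜 := by
      rw [h𝒜, mem_insert]
      right
      exact mem_image_of_mem (fun i => (w i).natAbs) (mem_filter.2 ⟨mem_univ _, hwi⟩)
    have hpn : |(p : ℝ) - n * w i| ≤ K := by
      have e1 : (p : ℝ) - n * w i = (p - θ i * (n * w₀)) + (θ i * (n * w₀) - n * w i) := by ring
      rw [e1]
      refine (abs_add_le _ _).trans ?_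
      linarith
    rcases le_total 0 (w i) with h0 | h0
    · apply hn3 _ hmemi ((p : ℤ) - n * w i) ?_
      · have e1 : (((w i).natAbs : ℕ) : ℤ) = w i := Int.natAbs_of_nonneg h0
        rw [e1]
        have : w i * n + ((p : ℤ) - n * w i) = p := by ring
        rw [this]
        exact h1
      · push_cast
        exact hpn
    · apply hn3 _ hmemi (-((p : ℤ) - n * w i)) ?_
      · have e1 : (((w i).natAbs : ℕ) : ℤ) = -w i := by
          rw [← Int.natAbs_neg]
          exact Int.natAbs_of_nonneg (by omega)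
        rw [e1]
        have : -w i * n + -((p : ℤ) - n * w i) = -p := by ring
        rw [this]
        exact h1.neg
      · push_cast
        rw [abs_neg]
        exact hpn

end Pool.Agent.Helper123.SM
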