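import Pool.Agent.Helper123.SM.Win2
import Pool.Agent.Helper123.SM.Real

set_option autoImplicit false
set_option maxHeartbeats 4000000

/-! # Prime-free neighbourhoods of all real affine images, in every interval -/

namespace Pool.Agent.Helper123.SM

open Finset Pool.Agent.H318R2.Cr Pool.Agent.H361R2.PA

open scoped Classical

theorem affineY (D : ℕ) : ∃ c : ℝ, 0 < c ∧ ∃ Y₀ : ℝ, ∀ Y : ℝ, Y₀ ≤ Y → ∀ r : ℕ,
    ((r : ℝ) + 1) ^ 2 ≤ Real.log Y → ∀ θ β : Fin r → ℝ,
    (∀ i, 1 / Y ≤ |θ i| ∧ |θ i| ≤ Real.exp ((Real.log Y) ^ D)) →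
    (∀ i, |β i| ≤ Real.exp ((Real.log Y) ^ D)) →
    ∀ M : ℤ, |(M : ℝ)| ≤ Real.exp ((Real.log Y) ^ D) →
    ∃ N : ℤ, M < N ∧ (N : ℝ) ≤ M + (2 * Y) ^ (r + 1) ∧
      (∀ p : ℕ, p.Prime → c * (Real.log Y * Real.log (Real.log Y)) / (r + 1) < |(p : ℝ) - N|) ∧
      ∀ i, ∀ p : ℕ, p.Prime →
        c * (Real.log Y * Real.log (Real.log Y)) / (r + 1) < |(p : ℝ) - (θ i * N + β i)| := by
  obtain ⟨c, hc, X₀, hwin⟩ := windowsA (D + 2)
  set c₁ : ℝ := min c 1 with hc₁
  have hc₁0 : 0 < c₁ := lt_min hc one_pos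
  have hc₁c : c₁ ≤ c := min_le_left _ _
  refine ⟨c₁ / 2, by positivity, max X₀ (Real.exp (Real.exp (10000 / c₁))), ?_⟩
  intro Y hY r hr θ β hθ hβ M hM
  have hY1 : X₀ ≤ Y := (le_max_left _ _).trans hY
  have hY2 : Real.exp (Real.exp (10000 / c₁)) ≤ Y := (le_max_right _ _).trans hY
  have hY0 : 0 < Y := (Real.exp_pos _).trans_le hY2
  set L := Real.log Y with hLdef
  have hLe : Real.exp (10000 / c₁) ≤ L := by
    rw [hLdef, ← Real.log_exp (Real.exp (10000 / c₁))]
    exact Real.log_le_log (Real.exp_pos _) hY2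
  have hL0 : 0 < L := (Real.exp_pos _).trans_le hLe
  have hLL : 10000 / c₁ ≤ Real.log L := by
    rw [← Real.log_exp (10000 / c₁)]
    exact Real.log_le_log (Real.exp_pos _) hLe
  have hc1 : c₁ ≤ 1 := min_le_right _ _
  have hdiv : 10000 ≤ 10000 / c₁ := by
    rw [le_div_iff₀ hc₁0]
    nlinarith
  have hLLc : 10000 ≤ c₁ * Real.log L := by
    rw [div_le_iff₀ hc₁0] at hLL
    linarith
  have hL : 10000 ≤ L := by
    have := Real.add_one_le_exp (10000 / c₁)
    linarith
  have hr0 : (0 : ℝ) < (r : ℝ) + 1 := by positivity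
  have hrL : (r : ℝ) + 1 ≤ Real.sqrt L := Real.le_sqrt_of_sq_le hr
  have hsL : Real.sqrt L * Real.sqrt L = L := Real.mul_self_sqrt hL0.le
  have hsL1 : 100 ≤ Real.sqrt L := by
    rw [show (100 : ℝ) = Real.sqrt 10000 by
      rw [show (10000 : ℝ) = 100 ^ 2 by norm_num, Real.sqrt_sq (by norm_num)]]
    exact Real.sqrt_le_sqrt hL
  set q : ℕ := ⌈Y⌉₊ with hq
  have hYq : Y ≤ q := Nat.le_ceil Y
  have hY1' : 10001 ≤ Y := by
    have h1 := Real.add_one_le_exp (Real.exp (10000 / c₁))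
    have h2 := Real.add_one_le_exp (10000 / c₁)
    linarith
  have hq1 : 1 ≤ q := by
    have : (1 : ℝ) ≤ q := by linarith
    exact_mod_cast this
  have hq0 : (0 : ℝ) < q := by linarith
  have hq2 : (q : ℝ) ≤ 2 * Y := by
    have := Nat.ceil_lt_add_one hY0.le
    linarith
  obtain ⟨w₀, w, hw1, hw2, hw⟩ := dirichlet r q hq1 θ
  have hw0r : (1 : ℝ) ≤ w₀ := by exact_mod_cast hw1
  have hw₀Y : (w₀ : ℝ) ≤ (2 * Y) ^ r := by
    calc (w₀ : ℝ) ≤ (q : ℝ) ^ r := by exact_mod_cast hw2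
      _ ≤ _ := by gcongr
  have hqY : (1 : ℝ) / q ≤ 1 / Y := one_div_le_one_div_of_le hY0 hYq
  have hwne : ∀ i, w i ≠ 0 := by
    intro i h0
    have h1 := hw i
    rw [h0] at h1
    simp only [Int.cast_zero, sub_zero] at h1
    rw [abs_mul, abs_of_nonneg (by linarith : (0 : ℝ) ≤ w₀)] at h1
    have h2 := (hθ i).1
    have h3 : |θ i| * 1 ≤ |θ i| * w₀ := mul_le_mul_of_nonneg_left hw0r (abs_nonneg _)
    linarith
  -- the length
  set K : ℝ := c₁ * (L * Real.log L) / (r + 1) with hK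
  have hKbig : 10000 * Real.sqrt L ≤ K := by
    rw [hK, le_div_iff₀ hr0]
    calc 10000 * Real.sqrt L * (r + 1) ≤ 10000 * Real.sqrt L * Real.sqrt L := by gcongr
      _ = 10000 * L := by rw [mul_assoc, hsL]
      _ ≤ c₁ * Real.log L * L := by gcongr
      _ = _ := by ring
  -- the forms
  set γ : Fin r → ℤ := fun i => ⌊θ i * M + β i⌋ with hγ
  set W : Fin r → ℕ × ℤ := fun i => if 0 ≤ w i then ((w i).natAbs, γ i)
    else ((w i).natAbs, -γ i) with hW
  have hW1 : ∀ i, (W i).1 = (w i).natAbs := by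
    intro i
    rw [hW]
    by_cases h : 0 ≤ w i
    · simp only [h, if_true]
    · simp only [h, if_false]
  have hW2 : ∀ i, |(((W i).2 : ℤ) : ℝ)| = |((γ i : ℤ) : ℝ)| := by
    intro i
    rw [hW]
    by_cases h : 0 ≤ w i
    · simp only [h, if_true]
    · simp only [h, if_false, Int.cast_neg, abs_neg]
  set 𝓦 : Finset (ℕ × ℤ) := insert (w₀, M) ((univ : Finset (Fin r)).image W) with h𝓦
  have h𝓦card : (𝓦.card : ℝ) ≤ r + 1 := by
    have h1 : 𝓦.card ≤ r + 1 := by
      refine (card_insert_le _ _).trans ?_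
      have h2 := card_image_le (s := (univ : Finset (Fin r))) (f := W)
      rw [card_univ, Fintype.card_fin] at h2
      omega
    exact_mod_cast h1
  have hlog2Y : Real.log (2 * Y) ≤ 2 * L := by
    rw [Real.log_mul (by norm_num) hY0.ne', ← hLdef]
    have : Real.log 2 ≤ 1 := by
      have := Real.log_two_lt_d9
      linarith
    linarith
  have hL2 : L ^ (D + 3) = L ^ D * L ^ 3 := pow_add L D 3
  have hLD1 : 1 ≤ L ^ D := one_le_pow₀ (by linarith)
  have hsize : r * (2 * L) + L ^ D + 1 ≤ L ^ (D + 3) ∧ 2 * L ^ D + 2 ≤ L ^ (D + 3) := by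
    have h1 : (r : ℝ) ≤ L := by nlinarith
    have h2 : r * (2 * L) ≤ L * (2 * L) := by gcongr
    have e1 : 2 * L ^ 2 + 2 ≤ L ^ 3 := by nlinarith [sq_nonneg L]
    have e2 : L ^ D * (2 * L ^ 2 + 2) ≤ L ^ D * L ^ 3 := by gcongr
    have e3 : 2 * L ^ 2 ≤ L ^ D * (2 * L ^ 2) := by
      have : 0 ≤ 2 * L ^ 2 := by positivity
      nlinarith
    have e4 : (2 : ℝ) ≤ 2 * L ^ 2 := by nlinarith
    rw [hL2]
    constructor
    · have h3 : L * (2 * L) + L ^ D + 1 ≤ L ^ D * L ^ 3 := by nlinarith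
      linarith
    · nlinarith
  have hE1 : 1 ≤ Real.exp (L ^ D) := Real.one_le_exp (by linarith)
  have hγle : ∀ i, |((γ i : ℤ) : ℝ)| ≤ Real.exp (L ^ (D + 3)) := by
    intro i
    have e1 := Int.floor_le (θ i * M + β i)
    have e2 := Int.lt_floor_add_one (θ i * M + β i)
    have e3 : |((γ i : ℤ) : ℝ)| ≤ |θ i * M + β i| + 1 := by
      have h1 : ((γ i : ℤ) : ℝ) = (θ i * M + β i) - ((θ i * M + β i) - γ i) := by ring
      have h2 : |(θ i * M + β i) - ((θ i * M + β i) - γ i)| ≤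
          |θ i * M + β i| + |(θ i * M + β i) - γ i| := abs_sub _ _
      rw [← h1] at h2
      have h3 : |(θ i * M + β i) - γ i| ≤ 1 := by
        rw [abs_le]
        constructor <;> linarith
      linarith
    have e4 : |θ i * M + β i| ≤ Real.exp (L ^ D) * Real.exp (L ^ D) + Real.exp (L ^ D) := by
      refine (abs_add_le _ _).trans ?_
      rw [abs_mul]
      have h1 : |θ i| * |(M : ℝ)| ≤ Real.exp (L ^ D) * Real.exp (L ^ D) :=
        mul_le_mul (hθ i).2 hM (abs_nonneg _) (by linarith)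
      have h2 := hβ i
      linarith
    have e5 : Real.exp (2 * L ^ D + 2) ≤ Real.exp (L ^ (D + 3)) := Real.exp_le_exp.2 hsize.2
    have e6 : Real.exp (2 * L ^ D + 2) =
        Real.exp (L ^ D) * Real.exp (L ^ D) * (Real.exp 1 * Real.exp 1) := by
      rw [← Real.exp_add, ← Real.exp_add, ← Real.exp_add]
      congr 1
      ring
    have e7 := Real.exp_one_gt_d9
    have e8 : 4 ≤ Real.exp 1 * Real.exp 1 := by nlinarith
    have e9 : Real.exp (L ^ D) ≤ Real.exp (L ^ D) * Real.exp (L ^ D) := by nlinarith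
    have e10 : 4 * (Real.exp (L ^ D) * Real.exp (L ^ D)) ≤
        Real.exp (L ^ D) * Real.exp (L ^ D) * (Real.exp 1 * Real.exp 1) := by nlinarith
    rw [e6] at e5
    linarith
  have hMle : |(M : ℝ)| ≤ Real.exp (L ^ (D + 3)) := by
    refine hM.trans (Real.exp_le_exp.2 ?_)
    linarith [hsize.2]
  have hmem : ∀ x ∈ 𝓦, 1 ≤ x.1 ∧ Real.log x.1 ≤ L ^ (D + 2 + 1) ∧
      |(x.2 : ℝ)| ≤ Real.exp (L ^ (D + 2 + 1)) ∧ Real.sqrt L ≤ K := by
    intro x hx
    have hKs : Real.sqrt L ≤ K := by linarith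
    have h33 : D + 2 + 1 = D + 3 := by omega
    rw [h33]
    rw [h𝓦, mem_insert, mem_image] at hx
    have hpow : Real.log ((2 * Y) ^ r) ≤ r * (2 * L) := by
      rw [Real.log_pow]
      gcongr
    rcases hx with rfl | ⟨i, _, rfl⟩
    · refine ⟨hw1, ?_, hMle, hKs⟩
      have h1 := Real.log_le_log (by linarith) hw₀Y
      have h2 : (0 : ℝ) ≤ L ^ D := by positivity
      show Real.log w₀ ≤ _
      linarith [hsize.1]
    · rw [hW1 i, hW2 i]
      have hpos : 1 ≤ (w i).natAbs := Int.natAbs_pos.2 (hwne i)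
      refine ⟨hpos, ?_, hγle i, hKs⟩
      have h1 : (((w i).natAbs : ℕ) : ℝ) = |((w i : ℤ) : ℝ)| := by
        rw [Nat.cast_natAbs]
        push_cast
        rfl
      have h2 : |((w i : ℤ) : ℝ)| ≤ Real.exp (r * (2 * L) + L ^ D + 1) := by
        have h3 := hw i
        have h4 : |((w i : ℤ) : ℝ)| ≤ |θ i * w₀| + 1 := by
          have e1 : ((w i : ℤ) : ℝ) = θ i * w₀ - (θ i * w₀ - w i) := by ring
          have e2 : |θ i * w₀ - (θ i * w₀ - w i)| ≤ |θ i * w₀| + |θ i * w₀ - w i| := abs_sub _ _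
          have e3 : (1 : ℝ) / q ≤ 1 := by
            rw [div_le_one hq0]
            exact_mod_cast hq1
          rw [← e1] at e2
          linarith
        have h5 : |θ i * w₀| ≤ Real.exp (L ^ D) * Real.exp (r * (2 * L)) := by
          rw [abs_mul, abs_of_nonneg (by linarith : (0 : ℝ) ≤ w₀)]
          have e1 : (w₀ : ℝ) ≤ Real.exp (r * (2 * L)) := by
            refine hw₀Y.trans ?_
            rw [← Real.log_le_iff_le_exp (by positivity)]
            exact hpow
          exact mul_le_mul (hθ i).2 e1 (by linarith) (Real.exp_pos _).le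
        have h6 : 1 ≤ Real.exp (L ^ D) * Real.exp (r * (2 * L)) := by
          rw [← Real.exp_add]
          apply Real.one_le_exp
          positivity
        have h7 : Real.exp (r * (2 * L) + L ^ D + 1) =
            Real.exp (L ^ D) * Real.exp (r * (2 * L)) * Real.exp 1 := by
          rw [← Real.exp_add, ← Real.exp_add]
          congr 1
          ring
        have h8 := Real.exp_one_gt_d9
        rw [h7]
        nlinarith
      have h3 : Real.log (((w i).natAbs : ℕ) : ℝ) ≤ r * (2 * L) + L ^ D + 1 := by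
        rw [Real.log_le_iff_le_exp (by exact_mod_cast hpos), h1]
        exact h2
      linarith [hsize.1]
  have hsum : ∑ _w ∈ 𝓦, K + ∑ x ∈ (∅ : Finset (ℕ × ℤ)), (x.1 : ℝ) / (Nat.totient x.1 : ℝ) ≤
      c * (L * Real.log L) := by
    rw [sum_empty, add_zero, sum_const, nsmul_eq_mul]
    have hK0 : 0 ≤ K := by linarith [Real.sqrt_nonneg L]
    have hLL0 : 0 ≤ L * Real.log L := by
      have : 0 ≤ Real.log L := by linarith
      positivity
    calc (𝓦.card : ℝ) * K ≤ (r + 1) * K := by gcongr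
      _ = c₁ * (L * Real.log L) := by
        rw [hK]
        field_simp
      _ ≤ _ := by gcongr
  obtain ⟨n, hn1, hn2, hn3, -⟩ := hwin Y hY1 𝓦 (fun _ => K) hmem ∅ (by simp) hsum 0
  have hn0 : 0 < n := by
    have : (0 : ℝ) < n := by
      push_cast at hn1
      linarith
    exact_mod_cast this
  have hnY : (n : ℝ) ≤ Y := by
    push_cast at hn2
    linarith
  have hnr : (0 : ℝ) < n := by exact_mod_cast hn0
  have hKK : c₁ / 2 * (L * Real.log L) / (r + 1) + 2 ≤ K := by
    have h1 : c₁ / 2 * (L * Real.log L) / (r + 1) = K / 2 := by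
      rw [hK]
      ring
    rw [h1]
    have := Real.sqrt_nonneg L
    linarith
  refine ⟨M + n * w₀, ?_, ?_, ?_, ?_⟩
  · have h1 : (0 : ℤ) < w₀ := by exact_mod_cast hw1
    have h2 : 0 < n * (w₀ : ℤ) := mul_pos hn0 h1
    linarith
  · push_cast
    rw [pow_succ]
    have h3 : (n : ℝ) * w₀ ≤ (2 * Y) ^ r * (2 * Y) := by
      calc (n : ℝ) * w₀ ≤ Y * (2 * Y) ^ r := by gcongr
        _ ≤ (2 * Y) ^ r * (2 * Y) := by
          have : 0 ≤ (2 * Y) ^ r := by positivity
          nlinarith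
    linarith
  · intro p hp
    by_contra hcon
    push Not at hcon
    have h1 : Prime (p : ℤ) := Nat.prime_iff_prime_int.1 hp
    apply hn3 (w₀, M) (by rw [h𝓦]; exact mem_insert_self _ _) ((p : ℤ) - (M + n * w₀)) ?_
    · have : ((w₀ : ℕ) : ℤ) * n + (M + ((p : ℤ) - (M + n * w₀))) = p := by ring
      show Prime (((w₀ : ℕ) : ℤ) * n + (M + ((p : ℤ) - (M + n * w₀))))
      rw [this]
      exact h1
    · push_cast at hcon ⊢
      linarith
  · intro i p hp
    by_contra hcon
    push Not at hcon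
    have h1 : Prime (p : ℤ) := Nat.prime_iff_prime_int.1 hp
    push_cast at hcon
    have hclose : |θ i * (M + n * w₀) + β i - (n * w i + γ i)| ≤ 2 := by
      have e1 : θ i * (M + n * w₀) + β i - (n * w i + γ i) =
          n * (θ i * w₀ - w i) + ((θ i * M + β i) - γ i) := by ring
      have e2 : |n * (θ i * w₀ - w i)| ≤ 1 := by
        rw [abs_mul, abs_of_pos hnr]
        calc (n : ℝ) * |θ i * w₀ - w i| ≤ n * (1 / q) := by
              have := (hw i).le
              gcongr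
          _ ≤ Y * (1 / Y) := by gcongr
          _ = 1 := by field_simp
      have e3 : |(θ i * M + β i) - γ i| ≤ 1 := by
        have h2 := Int.floor_le (θ i * M + β i)
        have h3 := Int.lt_floor_add_one (θ i * M + β i)
        rw [abs_le]
        constructor <;> linarith
      rw [e1]
      refine (abs_add_le _ _).trans ?_
      linarith
    have hWmem : W i ∈ 𝓦 := by
      rw [h𝓦, mem_insert]
      right
      exact mem_image_of_mem W (mem_univ _)
    have hpn : |(p : ℝ) - (n * w i + γ i)| ≤ K := by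
      have e1 : (p : ℝ) - (n * w i + γ i) = (p - (θ i * (M + n * w₀) + β i)) +
          (θ i * (M + n * w₀) + β i - (n * w i + γ i)) := by ring
      rw [e1]
      refine (abs_add_le _ _).trans ?_
      linarith
    by_cases h0 : 0 ≤ w i
    · have hWi : W i = ((w i).natAbs, γ i) := by
        rw [hW]
        simp only [h0, if_true]
      apply hn3 _ hWmem ((p : ℤ) - (n * w i + γ i)) ?_
      · have e1 : (((w i).natAbs : ℕ) : ℤ) = w i := Int.natAbs_of_nonneg h0
        rw [hWi]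
        show Prime ((((w i).natAbs : ℕ) : ℤ) * n + (γ i + ((p : ℤ) - (n * w i + γ i))))
        rw [e1]
        have : w i * n + (γ i + ((p : ℤ) - (n * w i + γ i))) = p := by ring
        rw [this]
        exact h1
      · push_cast
        exact hpn
    · have hWi : W i = ((w i).natAbs, -γ i) := by
        rw [hW]
        simp only [h0, if_false]
      apply hn3 _ hWmem (-((p : ℤ) - (n * w i + γ i))) ?_
      · have e1 : (((w i).natAbs : ℕ) : ℤ) = -w i := by
          rw [← Int.natAbs_neg]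
          exact Int.natAbs_of_nonneg (by omega)
        rw [hWi]
        show Prime ((((w i).natAbs : ℕ) : ℤ) * n + (-γ i + -((p : ℤ) - (n * w i + γ i))))
        rw [e1]
        have : -w i * n + (-γ i + -((p : ℤ) - (n * w i + γ i))) = -p := by ring
        rw [this]
        exact h1.neg
      · push_cast
        rw [abs_neg]
        exact hpn

theorem affineX (D : ℕ) : ∃ c : ℝ, 0 < c ∧ ∃ X₀ : ℝ, ∀ X : ℝ, X₀ ≤ X → ∀ r : ℕ,
    ((r : ℝ) + 1) ^ 4 ≤ Real.log X → ∀ θ β : Fin r → ℝ,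
    (∀ i, Real.exp (-Real.sqrt (Real.log X)) ≤ |θ i| ∧
      |θ i| ≤ Real.exp ((Real.log X) ^ D)) →
    (∀ i, |β i| ≤ Real.exp ((Real.log X) ^ D)) →
    ∀ M : ℤ, |(M : ℝ)| ≤ Real.exp ((Real.log X) ^ D) →
    ∃ N : ℤ, M < N ∧ (N : ℝ) ≤ M + X ∧
      (∀ p : ℕ, p.Prime →
        c * (Real.log X * Real.log (Real.log X)) / (r + 1) ^ 2 < |(p : ℝ) - N|) ∧
      ∀ i, ∀ p : ℕ, p.Prime →
        c * (Real.log X * Real.log (Real.log X)) / (r + 1) ^ 2 <
          |(p : ℝ) - (θ i * N + β i)| := by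
  obtain ⟨c, hc, Y₀, h⟩ := affineY (2 * D)
  refine ⟨c / 4, by positivity, Real.exp ((max (Real.log (max Y₀ 1)) 4 + 1) ^ 2), ?_⟩
  intro X hX r hr θ β hθ hβ m hm
  set M := Real.log X with hM
  set B := max (Real.log (max Y₀ 1)) 4 with hB
  have hB4 : 4 ≤ B := le_max_right _ _
  have hX0 : 0 < X := (Real.exp_pos _).trans_le hX
  have hMB : (B + 1) ^ 2 ≤ M := by
    rw [hM, ← Real.log_exp ((B + 1) ^ 2)]
    exact Real.log_le_log (Real.exp_pos _) hX
  have hM0 : 0 < M := by nlinarith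
  set s : ℝ := (r : ℝ) + 1 with hs
  have hs1 : 1 ≤ s := by
    rw [hs]
    have : (0 : ℝ) ≤ r := Nat.cast_nonneg r
    linarith
  have hs0 : 0 < s := by linarith
  have hsqM : B + 1 ≤ Real.sqrt M := Real.le_sqrt_of_sq_le hMB
  have hsM : s ^ 2 ≤ Real.sqrt M := by
    apply Real.le_sqrt_of_sq_le
    calc (s ^ 2) ^ 2 = s ^ 4 := by ring
      _ ≤ M := hr
  have hMM : Real.sqrt M * Real.sqrt M = M := Real.mul_self_sqrt hM0.le
  have h2s : 2 * s ≤ Real.sqrt M := by
    rcases le_total s 2 with h2 | h2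
    · linarith
    · nlinarith
  have hMs : Real.sqrt M ≤ M / (2 * s) := by
    rw [le_div_iff₀ (by positivity)]
    calc Real.sqrt M * (2 * s) ≤ Real.sqrt M * Real.sqrt M := by gcongr
      _ = M := hMM
  set Y : ℝ := Real.exp (M / s) / 2 with hY
  have hY0 : 0 < Y := by positivity
  have hlogY : Real.log Y = M / s - Real.log 2 := by
    rw [hY, Real.log_div (Real.exp_pos _).ne' (by norm_num), Real.log_exp]
  have hl2 : Real.log 2 ≤ 1 := by
    have := Real.log_two_lt_d9
    linarith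
  have hMs2 : M / s = M / (2 * s) + M / (2 * s) := by
    field_simp
    ring
  have hlogY1 : M / (2 * s) ≤ Real.log Y := by
    rw [hlogY]
    linarith
  have hlogY2 : Real.sqrt M ≤ Real.log Y := hMs.trans hlogY1
  have hlY0 : 0 ≤ Real.log Y := (Real.sqrt_nonneg M).trans hlogY2
  have hYpow : (2 * Y) ^ (r + 1) = X := by
    have h1 : 2 * Y = Real.exp (M / s) := by
      rw [hY]
      ring
    rw [h1, ← Real.exp_nat_mul]
    have h2 : ((r + 1 : ℕ) : ℝ) * (M / s) = M := by
      push_cast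
      rw [← hs]
      field_simp
    rw [h2, hM, Real.exp_log hX0]
  have hYY : Y₀ ≤ Y := by
    have h1 : Real.log (max Y₀ 1) ≤ Real.log Y := by
      have := le_max_left (Real.log (max Y₀ 1)) 4
      linarith
    have h2 : 0 < max Y₀ 1 := lt_of_lt_of_le one_pos (le_max_right _ _)
    have h3 := (Real.log_le_log_iff h2 hY0).1 h1
    exact (le_max_left _ _).trans h3
  have hr2 : ((r : ℝ) + 1) ^ 2 ≤ Real.log Y := by
    rw [← hs]
    exact hsM.trans hlogY2
  have hDD : Real.exp (M ^ D) ≤ Real.exp ((Real.log Y) ^ (2 * D)) := by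
    apply Real.exp_le_exp.2
    rw [pow_mul]
    apply pow_le_pow_left₀ hM0.le
    calc M = Real.sqrt M * Real.sqrt M := hMM.symm
      _ ≤ Real.log Y * Real.log Y := by gcongr
      _ = Real.log Y ^ 2 := by ring
  have hYinv : 1 / Y ≤ Real.exp (-Real.sqrt M) := by
    rw [div_le_iff₀ hY0, ← Real.exp_log hY0, ← Real.exp_add]
    apply Real.one_le_exp
    linarith
  obtain ⟨N, h1, h2, h3, h4⟩ := h Y hYY r hr2 θ β
    (fun i => ⟨hYinv.trans (hθ i).1, (hθ i).2.trans hDD⟩) (fun i => (hβ i).trans hDD) m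
    (hm.trans hDD)
  have hlogM0 : 0 ≤ Real.log M := Real.log_nonneg (by nlinarith)
  have hloglog : Real.log M / 2 ≤ Real.log (Real.log Y) := by
    rw [← Real.log_sqrt hM0.le]
    exact Real.log_le_log (Real.sqrt_pos.2 hM0) hlogY2
  have hK : c / 4 * (M * Real.log M) / (r + 1) ^ 2 ≤
      c * (Real.log Y * Real.log (Real.log Y)) / (r + 1) := by
    rw [← hs]
    calc c / 4 * (M * Real.log M) / s ^ 2 = c * (M / (2 * s) * (Real.log M / 2)) / s := by
          field_simp
          ring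
      _ ≤ c * (Real.log Y * Real.log (Real.log Y)) / s := by
          have e0 : 0 ≤ M / (2 * s) := by positivity
          gcongr
  refine ⟨N, h1, by rw [hYpow] at h2; exact h2, fun p hp => hK.trans_lt (h3 p hp),
    fun i p hp => hK.trans_lt (h4 i p hp)⟩

end Pool.Agent.Helper123.SM
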