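import Pool.Agent.Helper123.SM.Real

set_option autoImplicit false
set_option maxHeartbeats 4000000

/-! # Prime-free neighbourhoods of all real multiples: the form in terms of `X` -/

namespace Pool.Agent.Helper123.SM

theorem realsX (D : ℕ) : ∃ c : ℝ, 0 < c ∧ ∃ X₀ : ℝ, ∀ X : ℝ, X₀ ≤ X → ∀ r : ℕ,
    ((r : ℝ) + 1) ^ 4 ≤ Real.log X → ∀ θ : Fin r → ℝ,
    (∀ i, |θ i| ≤ Real.exp ((Real.log X) ^ D)) →
    ∃ N : ℕ, 1 ≤ N ∧ (N : ℝ) ≤ X ∧
      (∀ p : ℕ, p.Prime →
        c * (Real.log X * Real.log (Real.log X)) / (r + 1) ^ 2 < |(p : ℝ) - N|) ∧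
      ∀ i, 1 ≤ |θ i * N| → ∀ p : ℕ, p.Prime →
        c * (Real.log X * Real.log (Real.log X)) / (r + 1) ^ 2 < |(p : ℝ) - θ i * N| := by
  obtain ⟨c, hc, Y₀, h⟩ := realsY (2 * D)
  refine ⟨c / 4, by positivity, Real.exp ((max (Real.log (max Y₀ 1)) 4 + 1) ^ 2), ?_⟩
  intro X hX r hr θ hθ
  set M := Real.log X with hM
  set B := max (Real.log (max Y₀ 1)) 4 with hB
  have hB4 : 4 ≤ B := le_max_right _ _
  have hX0 : 0 < X := (Real.exp_pos _).trans_le hX
  have hMB : (B + 1) ^ 2 ≤ M := by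
    rw [hM, ← Real.log_exp ((B + 1) ^ 2)]
    exact Real.log_le_log (Real.exp_pos _) hX
  have hM0 : 0 < M := by nlinarith
  set s : ℝ := (r : ℝ) + 1 with hs
  have hs1 : 1 ≤ s := by
    rw [hs]
    have : (0 : ℝ) ≤ r := Nat.cast_nonneg r
    linarith
  have hs0 : 0 < s := by linarith
  have hsqM : B + 1 ≤ Real.sqrt M := Real.le_sqrt_of_sq_le hMB
  have hsM : s ^ 2 ≤ Real.sqrt M := by
    apply Real.le_sqrt_of_sq_le
    calc (s ^ 2) ^ 2 = s ^ 4 := by ring
      _ ≤ M := hr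
  have hMM : Real.sqrt M * Real.sqrt M = M := Real.mul_self_sqrt hM0.le
  have h2s : 2 * s ≤ Real.sqrt M := by
    rcases le_total s 2 with h2 | h2
    · linarith
    · nlinarith
  have hMs : Real.sqrt M ≤ M / (2 * s) := by
    rw [le_div_iff₀ (by positivity)]
    calc Real.sqrt M * (2 * s) ≤ Real.sqrt M * Real.sqrt M := by gcongr
      _ = M := hMM
  set Y : ℝ := Real.exp (M / s) / 2 with hY
  have hY0 : 0 < Y := by positivity
  have hlogY : Real.log Y = M / s - Real.log 2 := by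
    rw [hY, Real.log_div (Real.exp_pos _).ne' (by norm_num), Real.log_exp]
  have hl2 : Real.log 2 ≤ 1 := by
    have := Real.log_two_lt_d9
    linarith
  have hMs2 : M / s = M / (2 * s) + M / (2 * s) := by
    field_simp
    ring
  have hlogY1 : M / (2 * s) ≤ Real.log Y := by
    rw [hlogY]
    linarith
  have hlogY2 : Real.sqrt M ≤ Real.log Y := hMs.trans hlogY1
  have hlY0 : 0 ≤ Real.log Y := (Real.sqrt_nonneg M).trans hlogY2
  have hYpow : (2 * Y) ^ (r + 1) = X := by
    have h1 : 2 * Y = Real.exp (M / s) := by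
      rw [hY]
      ring
    rw [h1, ← Real.exp_nat_mul]
    have h2 : ((r + 1 : ℕ) : ℝ) * (M / s) = M := by
      push_cast
      rw [← hs]
      field_simp
    rw [h2, hM, Real.exp_log hX0]
  have hYY : Y₀ ≤ Y := by
    have h1 : Real.log (max Y₀ 1) ≤ Real.log Y := by
      have := le_max_left (Real.log (max Y₀ 1)) 4
      linarith
    have h2 : 0 < max Y₀ 1 := lt_of_lt_of_le one_pos (le_max_right _ _)
    have h3 := (Real.log_le_log_iff h2 hY0).1 h1
    exact (le_max_left _ _).trans h3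
  have hr2 : ((r : ℝ) + 1) ^ 2 ≤ Real.log Y := by
    rw [← hs]
    exact hsM.trans hlogY2
  have hθ' : ∀ i, |θ i| ≤ Real.exp ((Real.log Y) ^ (2 * D)) := by
    intro i
    refine (hθ i).trans (Real.exp_le_exp.2 ?_)
    rw [pow_mul]
    apply pow_le_pow_left₀ hM0.le
    calc M = Real.sqrt M * Real.sqrt M := hMM.symm
      _ ≤ Real.log Y * Real.log Y := by gcongr
      _ = Real.log Y ^ 2 := by ring
  obtain ⟨N, h1, h2, h3, h4⟩ := h Y hYY r hr2 θ hθ'
  have hlogM0 : 0 ≤ Real.log M := Real.log_nonneg (by nlinarith)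
  have hloglog : Real.log M / 2 ≤ Real.log (Real.log Y) := by
    rw [← Real.log_sqrt hM0.le]
    exact Real.log_le_log (Real.sqrt_pos.2 hM0) hlogY2
  have hK : c / 4 * (M * Real.log M) / (r + 1) ^ 2 ≤
      c * (Real.log Y * Real.log (Real.log Y)) / (r + 1) := by
    rw [← hs]
    calc c / 4 * (M * Real.log M) / s ^ 2 = c * (M / (2 * s) * (Real.log M / 2)) / s := by
          field_simp
          ring
      _ ≤ c * (Real.log Y * Real.log (Real.log Y)) / s := by
          have e0 : 0 ≤ M / (2 * s) := by positivity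
          gcongr
  refine ⟨N, h1, by rw [hYpow] at h2; exact h2, fun p hp => hK.trans_lt (h3 p hp),
    fun i hi p hp => hK.trans_lt (h4 i hi p hp)⟩

end Pool.Agent.Helper123.SM
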