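import Pool.Agent.Helper123.SM.Main
import Mathlib.NumberTheory.Chebyshev

set_option autoImplicit false
set_option maxHeartbeats 4000000

/-! # An upper bound for the integers free of an arbitrary set of primes -/

namespace Pool.Agent.Helper123.SM

open Finset Pool.Agent.H318R2.Cr Pool.Agent.H361R2.PA

open scoped Classical

/-- the integers `1 ≤ j ≤ n` not divisible by a prime of `T` -/
noncomputable def RT (T : Finset ℕ) (n : ℕ) : Finset ℕ :=
  (Icc 1 n).filter (fun j => ∀ p ∈ T, ¬ p ∣ j)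

theorem sum_log_le (T : Finset ℕ) (n : ℕ) :
    ∑ j ∈ RT T n, Real.log j ≤ (Real.log 4 + 4) * (n * ∑ m ∈ RT T n, ((m : ℝ))⁻¹) := by
  have h4 : 0 ≤ Real.log 4 := Real.log_nonneg (by norm_num)
  have h1 : ∀ j ∈ RT T n, Real.log j =
      ∑ m ∈ (RT T n).filter (fun m => m ∣ j), ArithmeticFunction.vonMangoldt (j / m) := by
    intro j hj
    have hj' := hj
    unfold RT at hj'
    rw [mem_filter, mem_Icc] at hj'
    have h2 : (RT T n).filter (fun m => m ∣ j) = j.divisors := by
      ext m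
      rw [mem_filter, Nat.mem_divisors]
      constructor
      · rintro ⟨_, h⟩
        exact ⟨h, by omega⟩
      · rintro ⟨h, h0⟩
        refine ⟨?_, h⟩
        unfold RT
        rw [mem_filter, mem_Icc]
        have h3 := Nat.le_of_dvd (by omega) h
        have h5 := Nat.pos_of_dvd_of_pos h (by omega)
        exact ⟨⟨h5, by omega⟩, fun p hp hpm => hj'.2 p hp (hpm.trans h)⟩
    rw [h2, Nat.sum_div_divisors j (fun d => ArithmeticFunction.vonMangoldt d),
      ArithmeticFunction.vonMangoldt_sum]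
  rw [sum_congr rfl h1]
  rw [sum_comm' (s' := fun m => (RT T n).filter (fun j => m ∣ j)) (t' := RT T n) (by
    intro x y
    rw [mem_filter, mem_filter]
    tauto)]
  rw [mul_sum, mul_sum]
  apply sum_le_sum
  intro m hm
  have hm' := hm
  unfold RT at hm'
  rw [mem_filter, mem_Icc] at hm'
  have hm0 : 0 < m := by omega
  have h5 : ∑ j ∈ (RT T n).filter (fun j => m ∣ j), ArithmeticFunction.vonMangoldt (j / m) =
      ∑ d ∈ ((RT T n).filter (fun j => m ∣ j)).image (fun j => j / m),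
        ArithmeticFunction.vonMangoldt d := by
    rw [sum_image]
    intro a ha b hb hab
    have ha' := (mem_filter.1 (mem_coe.1 ha)).2
    have hb' := (mem_filter.1 (mem_coe.1 hb)).2
    obtain ⟨u, rfl⟩ := ha'
    obtain ⟨w, rfl⟩ := hb'
    have h6 : m * u / m = m * w / m := hab
    rw [Nat.mul_div_cancel_left _ hm0, Nat.mul_div_cancel_left _ hm0] at h6
    rw [h6]
  have h6 : ((RT T n).filter (fun j => m ∣ j)).image (fun j => j / m) ⊆ Ioc 0 (n / m) := by
    intro d hd
    rw [mem_image] at hd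
    obtain ⟨j, hj, rfl⟩ := hd
    rw [mem_filter] at hj
    have hj1 := hj.1
    unfold RT at hj1
    rw [mem_filter, mem_Icc] at hj1
    rw [mem_Ioc]
    refine ⟨?_, Nat.div_le_div_right hj1.1.2⟩
    exact Nat.div_pos (Nat.le_of_dvd (by omega) hj.2) hm0
  have h7 : ∑ d ∈ ((RT T n).filter (fun j => m ∣ j)).image (fun j => j / m),
      ArithmeticFunction.vonMangoldt d ≤ Chebyshev.psi ((n / m : ℕ) : ℝ) := by
    unfold Chebyshev.psi
    rw [Nat.floor_natCast]
    exact sum_le_sum_of_subset_of_nonneg h6 fun _ _ _ =>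
      ArithmeticFunction.vonMangoldt_nonneg
  have h8 := Chebyshev.psi_le_const_mul_self (x := ((n / m : ℕ) : ℝ)) (Nat.cast_nonneg _)
  have h9 : ((n / m : ℕ) : ℝ) ≤ n * (m : ℝ)⁻¹ := by
    rw [← div_eq_mul_inv]
    exact Nat.cast_div_le
  rw [h5]
  refine h7.trans (h8.trans ?_)
  gcongr

theorem sum_inv_le (T : Finset ℕ) (n : ℕ) :
    ∑ m ∈ RT T n, ((m : ℝ))⁻¹ ≤ ∏ p ∈ (Pz n).filter (fun p => p ∉ T), (1 - 1 / (p : ℝ))⁻¹ := by
  have h := Pool.Agent.H256R2.SC.LL.euler_le ((Pz n).filter (fun p => p ∉ T)) (RT T n) (by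
    intro a ha
    unfold RT at ha
    rw [mem_filter, mem_Icc] at ha
    rw [Nat.mem_factoredNumbers']
    intro p hp hpa
    rw [mem_filter, mem_Pz]
    exact ⟨⟨hp, (Nat.le_of_dvd (by omega) hpa).trans ha.1.2⟩, fun hpT => ha.2 p hpT hpa⟩)
  refine h.trans (le_of_eq ?_)
  have h2 : ((Pz n).filter (fun p => p ∉ T)).filter Nat.Prime =
      (Pz n).filter (fun p => p ∉ T) := by
    rw [filter_eq_self]
    intro p hp
    exact (mem_Pz.1 (mem_filter.1 hp).1).1
  rw [h2]
  apply prod_congr rfl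
  intro p _
  rw [one_div]

theorem card_RT (T : Finset ℕ) (n : ℕ) (hn : 2 ≤ n) :
    ((RT T n).card : ℝ) ≤ Real.sqrt n + 2 * (Real.log 4 + 4) * (n / Real.log n) *
      ∏ p ∈ (Pz n).filter (fun p => p ∉ T), (1 - 1 / (p : ℝ))⁻¹ := by
  set E := ∏ p ∈ (Pz n).filter (fun p => p ∉ T), (1 - 1 / (p : ℝ))⁻¹ with hE
  have hn2 : (2 : ℝ) ≤ n := by exact_mod_cast hn
  have hlog : 0 < Real.log n := Real.log_pos (by linarith)
  have h4 : 0 ≤ Real.log 4 := Real.log_nonneg (by norm_num)
  have h1 := sum_log_le T n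
  have h2 := sum_inv_le T n
  rw [← hE] at h2
  set A' := (RT T n).filter (fun j : ℕ => Real.sqrt n < j) with hA'
  have h3 : ((A'.card : ℕ) : ℝ) * (Real.log n / 2) ≤ ∑ j ∈ RT T n, Real.log j := by
    calc ((A'.card : ℕ) : ℝ) * (Real.log n / 2) = ∑ _j ∈ A', Real.log n / 2 := by
          rw [sum_const, nsmul_eq_mul]
      _ ≤ ∑ j ∈ A', Real.log j := by
          apply sum_le_sum
          intro j hj
          rw [hA', mem_filter] at hj
          rw [← Real.log_sqrt (by linarith)]
          exact Real.log_le_log (Real.sqrt_pos.2 (by linarith)) hj.2.le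
      _ ≤ ∑ j ∈ RT T n, Real.log j := by
          apply sum_le_sum_of_subset_of_nonneg (filter_subset _ _)
          intro j hj _
          unfold RT at hj
          rw [mem_filter, mem_Icc] at hj
          exact Real.log_nonneg (by exact_mod_cast hj.1.1)
  have h5 : ((RT T n).card : ℝ) ≤ Real.sqrt n + A'.card := by
    have e1 := card_filter_add_card_filter_not (s := RT T n) (fun j : ℕ => Real.sqrt n < j)
    have e2 : ((RT T n).filter (fun j : ℕ => ¬ Real.sqrt n < j)) ⊆ Icc 1 ⌊Real.sqrt n⌋₊ := by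
      intro j hj
      rw [mem_filter] at hj
      have hj1 := hj.1
      unfold RT at hj1
      rw [mem_filter, mem_Icc] at hj1
      rw [mem_Icc, Nat.le_floor_iff (Real.sqrt_nonneg _)]
      exact ⟨hj1.1.1, not_lt.1 hj.2⟩
    have e3 := card_le_card e2
    rw [Nat.card_Icc, Nat.add_sub_cancel] at e3
    have e4 : (((RT T n).filter (fun j : ℕ => ¬ Real.sqrt n < j)).card : ℝ) ≤ Real.sqrt n := by
      refine le_trans (by exact_mod_cast e3) (Nat.floor_le (Real.sqrt_nonneg _))
    have e5 : ((A'.card : ℕ) : ℝ) +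
        (((RT T n).filter (fun j : ℕ => ¬ Real.sqrt n < j)).card : ℝ) = (RT T n).card := by
      exact_mod_cast e1
    linarith
  have h6 : ((A'.card : ℕ) : ℝ) ≤ 2 * (Real.log 4 + 4) * (n / Real.log n) * E := by
    have e1 : ((A'.card : ℕ) : ℝ) * (Real.log n / 2) ≤ (Real.log 4 + 4) * (n * E) := by
      refine h3.trans (h1.trans ?_)
      gcongr
    have e2 : 2 * (Real.log 4 + 4) * (n / Real.log n) * E =
        (Real.log 4 + 4) * (n * E) / (Real.log n / 2) := by
      field_simp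
    rw [e2, le_div_iff₀ (by positivity)]
    exact e1
  linarith

/-- the weight of a window: the integers up to `n` prime to the primes `≤ Y` dividing `α`, times
the product over the other primes `≤ Y` -/
theorem window_weight : ∃ C : ℝ, 0 < C ∧ ∀ α Y n : ℕ, 2 ≤ Y → Real.sqrt Y ≤ n → 2 ≤ n →
    ((RT ((Pz Y).filter (fun p => p ∣ α)) n).card : ℝ) *
      ∏ p ∈ (Pz Y).filter (fun p => ¬ p ∣ α), (1 - 1 / (p : ℝ)) ≤ C * (n / Real.log Y) := by
  obtain ⟨c₁, c₂, hc₁, hc₁₂, hV⟩ := cz_bounds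
  have hc₂ : 0 < c₂ := hc₁.trans_le hc₁₂
  have h4 : 0 ≤ Real.log 4 := Real.log_nonneg (by norm_num)
  refine ⟨4 + 4 * (Real.log 4 + 4) * (c₂ / c₁), by positivity, ?_⟩
  intro α Y n hY hYn hn
  set T := (Pz Y).filter (fun p => p ∣ α) with hT
  set W := ∏ p ∈ (Pz Y).filter (fun p => ¬ p ∣ α), (1 - 1 / (p : ℝ)) with hW
  set E := ∏ p ∈ (Pz n).filter (fun p => p ∉ T), (1 - 1 / (p : ℝ))⁻¹ with hE
  have hY2 : (2 : ℝ) ≤ Y := by exact_mod_cast hY
  have hn2 : (2 : ℝ) ≤ n := by exact_mod_cast hn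
  have hlogY : 0 < Real.log Y := Real.log_pos (by linarith)
  have hlogn : 0 < Real.log n := Real.log_pos (by linarith)
  have hcc : 1 ≤ c₂ / c₁ := by rwa [one_le_div hc₁]
  have hpos : ∀ m : ℕ, ∀ p ∈ Pz m, (0 : ℝ) < 1 - 1 / (p : ℝ) := fun m p hp =>
    one_sub_inv_pos (mem_Pz.1 hp).1
  have hle1 : ∀ m : ℕ, ∀ p ∈ Pz m, (1 : ℝ) - 1 / (p : ℝ) ≤ 1 := by
    intro m p _
    have h7 : 0 ≤ 1 / (p : ℝ) := by positivity
    linarith
  have hW0 : 0 < W := prod_pos fun p hp => hpos Y p (mem_filter.1 hp).1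
  have hW1 : W ≤ 1 := prod_le_one (fun p hp => (hpos Y p (mem_filter.1 hp).1).le)
    (fun p hp => hle1 Y p (mem_filter.1 hp).1)
  have hE0 : 0 ≤ E := prod_nonneg fun p hp => (inv_pos.2 (hpos n p (mem_filter.1 hp).1)).le
  -- `E * W` is at most `(c₂ / c₁) * max 1 (log n / log Y)`
  have hEW : (1 / Real.log n) * (E * W) ≤ 2 * (c₂ / c₁) / Real.log Y := by
    rcases le_total n Y with h | h
    · -- `n ≤ Y`
      have h1 : W ≤ ∏ p ∈ (Pz n).filter (fun p => p ∉ T), (1 - 1 / (p : ℝ)) := by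
        apply Finset.prod_le_prod_of_subset_of_le_one
        · intro p hp
          rw [mem_filter, mem_Pz] at hp
          rw [mem_filter, mem_Pz]
          refine ⟨⟨hp.1.1, hp.1.2.trans h⟩, fun hpα => hp.2 ?_⟩
          rw [hT, mem_filter, mem_Pz]
          exact ⟨⟨hp.1.1, hp.1.2.trans h⟩, hpα⟩
        · intro p hp
          exact (hpos Y p (mem_filter.1 hp).1).le
        · intro p hp _
          exact hle1 Y p (mem_filter.1 hp).1
      have h2 : E * W ≤ 1 := by
        calc E * W ≤ E * ∏ p ∈ (Pz n).filter (fun p => p ∉ T), (1 - 1 / (p : ℝ)) := by gcongr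
          _ = ∏ p ∈ (Pz n).filter (fun p => p ∉ T), (1 - 1 / (p : ℝ))⁻¹ * (1 - 1 / (p : ℝ)) := by
            rw [hE, prod_mul_distrib]
          _ = 1 := by
            apply prod_eq_one
            intro p hp
            exact inv_mul_cancel₀ (hpos n p (mem_filter.1 hp).1).ne'
      have h3 : Real.log Y / 2 ≤ Real.log n := by
        rw [← Real.log_sqrt (by linarith)]
        exact Real.log_le_log (Real.sqrt_pos.2 (by linarith)) hYn
      calc (1 / Real.log n) * (E * W) ≤ (1 / (Real.log Y / 2)) * 1 := by gcongr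
        _ = 2 * 1 / Real.log Y := by field_simp
        _ ≤ 2 * (c₂ / c₁) / Real.log Y := by gcongr
    · -- `Y ≤ n`
      have h1 : E * W * V n ≤ V Y := by
        have e1 : V n = (∏ p ∈ (Pz n).filter (fun p => p ∉ T), (1 - 1 / (p : ℝ))) *
            ∏ p ∈ (Pz n).filter (fun p => ¬ p ∉ T), (1 - 1 / (p : ℝ)) := by
          unfold V
          rw [prod_filter_mul_prod_filter_not]
        have e2 : E * (∏ p ∈ (Pz n).filter (fun p => p ∉ T), (1 - 1 / (p : ℝ))) = 1 := by
          rw [hE, ← prod_mul_distrib]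
          apply prod_eq_one
          intro p hp
          exact inv_mul_cancel₀ (hpos n p (mem_filter.1 hp).1).ne'
        have e3 : (Pz n).filter (fun p => ¬ p ∉ T) = T := by
          ext p
          rw [mem_filter, hT, mem_filter, mem_Pz, mem_Pz]
          constructor
          · rintro ⟨_, h⟩; exact not_not.1 h
          · intro h'; exact ⟨⟨h'.1.1, h'.1.2.trans h⟩, not_not.2 h'⟩
        have e4 : V Y = (∏ p ∈ (Pz Y).filter (fun p => p ∣ α), (1 - 1 / (p : ℝ))) *
            ∏ p ∈ (Pz Y).filter (fun p => ¬ p ∣ α), (1 - 1 / (p : ℝ)) := by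
          unfold V
          rw [prod_filter_mul_prod_filter_not]
        rw [e1, e3, e4, ← hW, ← hT]
        apply le_of_eq
        calc E * W * ((∏ p ∈ (Pz n).filter (fun p => p ∉ T), (1 - 1 / (p : ℝ))) *
              ∏ p ∈ T, (1 - 1 / (p : ℝ))) =
              (E * (∏ p ∈ (Pz n).filter (fun p => p ∉ T), (1 - 1 / (p : ℝ)))) *
              (∏ p ∈ T, (1 - 1 / (p : ℝ))) * W := by ring
          _ = _ := by rw [e2, one_mul]
      have h2 := (hV n hn).1
      have h3 := (hV Y hY).2
      have hVn := V_pos n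
      have h5 : E * W ≤ V Y / V n := by
        rw [le_div_iff₀ hVn]
        exact h1
      have h6 : V Y ≤ c₂ / Real.log Y := by
        rw [le_div_iff₀ hlogY]
        exact h3
      have h7 : c₁ / Real.log n ≤ V n := by
        rw [div_le_iff₀ hlogn]
        exact h2
      calc (1 / Real.log n) * (E * W) ≤ (1 / Real.log n) * (V Y / V n) := by gcongr
        _ ≤ (1 / Real.log n) * ((c₂ / Real.log Y) / (c₁ / Real.log n)) := by gcongr
        _ = (c₂ / c₁) / Real.log Y := by field_simp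
        _ ≤ 2 * (c₂ / c₁) / Real.log Y := by
          gcongr
          linarith
  have h1 := card_RT T n hn
  rw [← hE] at h1
  have hsq : Real.sqrt n ≤ 4 * (n / Real.log Y) := by
    have e1 : Real.log Y ≤ 4 * Real.sqrt n := by
      have e2 : Real.log Y = 4 * Real.log (Real.sqrt (Real.sqrt Y)) := by
        rw [Real.log_sqrt (Real.sqrt_nonneg _), Real.log_sqrt (by linarith)]
        ring
      have e3 : Real.log (Real.sqrt (Real.sqrt Y)) ≤ Real.sqrt (Real.sqrt Y) :=
        (Real.log_le_sub_one_of_pos (Real.sqrt_pos.2 (Real.sqrt_pos.2 (by linarith)))).trans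
          (by linarith)
      have e4 : Real.sqrt (Real.sqrt Y) ≤ Real.sqrt n := Real.sqrt_le_sqrt hYn
      linarith
    have e5 : Real.sqrt n * Real.sqrt n = n := Real.mul_self_sqrt (by linarith)
    rw [← mul_div_assoc, le_div_iff₀ hlogY]
    calc Real.sqrt n * Real.log Y ≤ Real.sqrt n * (4 * Real.sqrt n) := by gcongr
      _ = 4 * (Real.sqrt n * Real.sqrt n) := by ring
      _ = 4 * n := by rw [e5]
  calc ((RT T n).card : ℝ) * W ≤ (Real.sqrt n + 2 * (Real.log 4 + 4) * (n / Real.log n) * E) * W := by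
        gcongr
    _ = Real.sqrt n * W + 2 * (Real.log 4 + 4) * n * ((1 / Real.log n) * (E * W)) := by ring
    _ ≤ 4 * (n / Real.log Y) * 1 +
        2 * (Real.log 4 + 4) * n * (2 * (c₂ / c₁) / Real.log Y) := by gcongr
    _ = _ := by ring

end Pool.Agent.Helper123.SM
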