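import Pool.Agent.Helper123.SM.Main
import Pool.Agent.H95R2.Leh.ApSieve

set_option autoImplicit false
set_option maxHeartbeats 4000000

/-! # An upper bound for the integers of a window free of an arbitrary set of primes

The sieve of Selberg is from the starting files (`Pool/Agent/Helper923/PPS`, `Pool/Agent/H95R2/Leh/ApSieve.lean`). -/

namespace Pool.Agent.Helper123.SM

open Finset Pool.Agent.H318R2.Cr Pool.Agent.H361R2.PA Pool.Agent.Helper923.PPS
open Pool.Agent.H95R2.Leh Pool.Agent.H95R2.Leh.ApS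

open scoped Classical

theorem sifted_le' {a q N R : ℕ} (hq : 1 ≤ q) (hR : 1 ≤ R) :
    (apSieve a q N R).siftedSum ≤
      2 * ((q : ℝ) / Nat.totient q) * N / Real.log ((R : ℝ) + 1) + (R : ℝ) ^ 4 := by
  have hR' : (1 : ℝ) ≤ R := by exact_mod_cast hR
  have hq' : (0 : ℝ) < q := by exact_mod_cast hq
  have ht' : (0 : ℝ) < Nat.totient q := by exact_mod_cast Nat.totient_pos.2 hq
  have h2 := siftedSum_le_selberg (apSieve a q N R) (R : ℝ) hR' 1 zero_le_one
    (fun d hd => apSieve_rem hq hd)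
  have h3 := selS_ge' (a := a) (N := N) (R := R) hq
  have hlog : 0 < Real.log ((R : ℝ) + 1) := Real.log_pos (by linarith)
  have h4 : (apSieve a q N R).totalMass / selS (apSieve a q N R) R ≤
      2 * ((q : ℝ) / Nat.totient q) * N / Real.log ((R : ℝ) + 1) := by
    change (N : ℝ) / _ ≤ _
    have : (N : ℝ) / selS (apSieve a q N R) R ≤
        (N : ℝ) / (((Nat.totient q : ℝ) / q) * Real.log ((R : ℝ) + 1) / 2) := by
      apply div_le_div_of_nonneg_left (by positivity) (by positivity) h3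
    refine this.trans (le_of_eq ?_)
    field_simp
  have h5 : (∑ d ∈ (Nat.divisors (apSieve a q N R).prodPrimes).filter
      (fun d : ℕ => (d : ℝ) ≤ R), ((apSieve a q N R).nu d)⁻¹) ≤ (R : ℝ) ^ 2 := by
    have h6 : (Nat.divisors (apSieve a q N R).prodPrimes).filter (fun d : ℕ => (d : ℝ) ≤ R) ⊆
        Finset.Icc 1 R := by
      intro d hd
      rw [Finset.mem_filter, Nat.mem_divisors] at hd
      rw [Finset.mem_Icc]
      refine ⟨Nat.pos_of_ne_zero (ne_zero_of_dvd_ne_zero hd.1.2 hd.1.1),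
        by exact_mod_cast hd.2⟩
    calc (∑ d ∈ (Nat.divisors (apSieve a q N R).prodPrimes).filter
          (fun d : ℕ => (d : ℝ) ≤ R), ((apSieve a q N R).nu d)⁻¹)
        = ∑ d ∈ (Nat.divisors (apSieve a q N R).prodPrimes).filter
          (fun d : ℕ => (d : ℝ) ≤ R), (d : ℝ) := by
          apply Finset.sum_congr rfl
          intro d _
          change ((d : ℝ)⁻¹)⁻¹ = d
          rw [inv_inv]
      _ ≤ ∑ d ∈ Finset.Icc 1 R, (d : ℝ) :=
          Finset.sum_le_sum_of_subset_of_nonneg h6 (fun _ _ _ => by positivity)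
      _ ≤ ∑ d ∈ Finset.Icc 1 R, (R : ℝ) := by
          apply Finset.sum_le_sum
          intro d hd
          exact_mod_cast (Finset.mem_Icc.mp hd).2
      _ = (R : ℝ) ^ 2 := by simp; ring
  have h7 : 0 ≤ (∑ d ∈ (Nat.divisors (apSieve a q N R).prodPrimes).filter
      (fun d : ℕ => (d : ℝ) ≤ R), ((apSieve a q N R).nu d)⁻¹) := by
    apply Finset.sum_nonneg
    intro d _
    change 0 ≤ ((d : ℝ)⁻¹)⁻¹
    positivity
  have h8 : (∑ d ∈ (Nat.divisors (apSieve a q N R).prodPrimes).filter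
      (fun d : ℕ => (d : ℝ) ≤ R), ((apSieve a q N R).nu d)⁻¹) ^ 2 ≤ (R : ℝ) ^ 4 := by
    calc _ ≤ ((R : ℝ) ^ 2) ^ 2 := by gcongr
      _ = (R : ℝ) ^ 4 := by ring
  linarith

/-- windows of natural numbers: the integers of `[B, B + N)` free of the primes `≤ Y` dividing
`α`, weighted by the product over the other primes `≤ Y` -/
theorem window_nat (α Y N B : ℕ) (hY : 2 ≤ Y) (hYN : Real.sqrt Y ≤ N) (hN : 2 ≤ N) :
    (((range N).filter (fun i => ∀ p ∈ (Pz Y).filter (fun p => p ∣ α), ¬ p ∣ B + i)).card : ℝ) *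
      ∏ p ∈ (Pz Y).filter (fun p => ¬ p ∣ α), (1 - 1 / (p : ℝ)) ≤ 36 * (N / Real.log Y) := by
  set S := (Pz Y).filter (fun p => ¬ p ∣ α) with hS
  set q : ℕ := ∏ p ∈ S, p with hq
  have hSp : ∀ p ∈ S, p.Prime := fun p hp => (mem_Pz.1 (mem_filter.1 hp).1).1
  have hq1 : 1 ≤ q := Nat.succ_le_of_lt (prod_pos fun p hp => (hSp p hp).pos)
  have hqr : (0 : ℝ) < q := by exact_mod_cast hq1
  have hφr : (0 : ℝ) < Nat.totient q := by exact_mod_cast Nat.totient_pos.2 hq1
  have hW : ∏ p ∈ S, (1 - 1 / (p : ℝ)) = (Nat.totient q : ℝ) / q := by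
    rw [← totient_div hq1, hq, Nat.primeFactors_prod hSp]
    apply prod_congr rfl
    intro p _
    rw [one_div]
  rw [hW]
  have hY2 : (2 : ℝ) ≤ Y := by exact_mod_cast hY
  have hN2 : (2 : ℝ) ≤ N := by exact_mod_cast hN
  have hlogY : 0 < Real.log Y := Real.log_pos (by linarith)
  set ρ : ℝ := Real.sqrt (Real.sqrt (Real.sqrt (Real.sqrt Y))) with hρ
  have hs1 : 1 ≤ Real.sqrt Y := Real.one_le_sqrt.2 (by linarith)
  have hs2 : 1 ≤ Real.sqrt (Real.sqrt Y) := Real.one_le_sqrt.2 hs1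
  have hs3 : 1 ≤ Real.sqrt (Real.sqrt (Real.sqrt Y)) := Real.one_le_sqrt.2 hs2
  have hρ1 : 1 ≤ ρ := Real.one_le_sqrt.2 hs3
  have hρ4 : ρ ^ 4 = Real.sqrt (Real.sqrt Y) := by
    have e1 : ρ ^ 2 = Real.sqrt (Real.sqrt (Real.sqrt Y)) := Real.sq_sqrt (by linarith)
    calc ρ ^ 4 = (ρ ^ 2) ^ 2 := by ring
      _ = _ := by rw [e1]; exact Real.sq_sqrt (by linarith)
  have hlogρ : Real.log ρ = Real.log Y / 16 := by
    rw [hρ, Real.log_sqrt (by linarith), Real.log_sqrt (by linarith),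
      Real.log_sqrt (by linarith), Real.log_sqrt (by linarith)]
    ring
  set R : ℕ := ⌊ρ⌋₊ with hR
  have hR1 : 1 ≤ R := by
    rw [hR, Nat.one_le_floor_iff]
    exact hρ1
  have hRρ : (R : ℝ) ≤ ρ := Nat.floor_le (by linarith)
  have hρR : ρ < (R : ℝ) + 1 := Nat.lt_floor_add_one ρ
  have hsqle : ∀ t : ℝ, 1 ≤ t → Real.sqrt t ≤ t := fun t ht =>
    Real.sqrt_le_self_iff.2 (Or.inr ht)
  have hRY : R ≤ Y := by
    have h1 : (R : ℝ) ≤ Y := by
      have e1 := hsqle _ (show (1 : ℝ) ≤ Y by linarith)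
      have e2 := hsqle _ hs1
      have e3 := hsqle _ hs2
      have e4 := hsqle _ hs3
      linarith
    exact_mod_cast h1
  have hlogR : Real.log Y / 16 ≤ Real.log ((R : ℝ) + 1) := by
    rw [← hlogρ]
    exact Real.log_le_log (by linarith) hρR.le
  have h1 : (((range N).filter (fun i => ∀ p ∈ (Pz Y).filter (fun p => p ∣ α),
      ¬ p ∣ B + i)).card : ℝ) ≤ (apSieve (B * q) q N R).siftedSum := by
    rw [sifted_eq (by omega)]
    refine Nat.cast_le.2 (card_le_card ?_)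
    intro i hi
    rw [mem_filter] at hi ⊢
    refine ⟨hi.1, ?_⟩
    rw [Nat.coprime_iff_gcd_eq_one]
    by_contra hne
    obtain ⟨p, hp, hpd⟩ := Nat.exists_prime_and_dvd hne
    have h1 := (prime_dvd_PP hp).1 (hpd.trans (Nat.gcd_dvd_left _ _))
    have h2 : p ∣ B * q + i * q := hpd.trans (Nat.gcd_dvd_right _ _)
    rw [← add_mul] at h2
    have h3 : p ∣ B + i := by
      rcases (Nat.Prime.dvd_mul hp).1 h2 with h | h
      · exact h
      · exact absurd h h1.2
    refine hi.2 p ?_ h3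
    rw [mem_filter, mem_Pz]
    refine ⟨⟨hp, h1.1.trans hRY⟩, ?_⟩
    by_contra hpα
    apply h1.2
    rw [hq]
    apply dvd_prod_of_mem
    rw [hS, mem_filter, mem_Pz]
    exact ⟨⟨hp, h1.1.trans hRY⟩, hpα⟩
  have h2 := sifted_le' (a := B * q) (q := q) (N := N) (R := R) hq1 hR1
  have hW1 : (Nat.totient q : ℝ) / q ≤ 1 := by
    rw [div_le_one hqr]
    exact_mod_cast Nat.totient_le q
  have hW0 : 0 ≤ (Nat.totient q : ℝ) / q := by positivity
  have hR4 : (R : ℝ) ^ 4 ≤ 4 * (N / Real.log Y) := by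
    have e1 : (R : ℝ) ^ 4 ≤ Real.sqrt N := by
      calc (R : ℝ) ^ 4 ≤ ρ ^ 4 := by gcongr
        _ = Real.sqrt (Real.sqrt Y) := hρ4
        _ ≤ Real.sqrt N := Real.sqrt_le_sqrt hYN
    have e2 : Real.log Y ≤ 4 * Real.sqrt N := by
      have e2 : Real.log Y = 4 * Real.log (Real.sqrt (Real.sqrt Y)) := by
        rw [Real.log_sqrt (Real.sqrt_nonneg _), Real.log_sqrt (by linarith)]
        ring
      have e3 : Real.log (Real.sqrt (Real.sqrt Y)) ≤ Real.sqrt (Real.sqrt Y) :=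
        (Real.log_le_sub_one_of_pos (by linarith)).trans (by linarith)
      have e4 : Real.sqrt (Real.sqrt Y) ≤ Real.sqrt N := Real.sqrt_le_sqrt hYN
      linarith
    have e5 : Real.sqrt N * Real.sqrt N = N := Real.mul_self_sqrt (by linarith)
    refine e1.trans ?_
    rw [← mul_div_assoc, le_div_iff₀ hlogY]
    calc Real.sqrt N * Real.log Y ≤ Real.sqrt N * (4 * Real.sqrt N) := by gcongr
      _ = 4 * (Real.sqrt N * Real.sqrt N) := by ring
      _ = 4 * N := by rw [e5]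
  have hmain : 2 * ((q : ℝ) / Nat.totient q) * N / Real.log ((R : ℝ) + 1) *
      ((Nat.totient q : ℝ) / q) ≤ 32 * (N / Real.log Y) := by
    have e1 : 2 * ((q : ℝ) / Nat.totient q) * N / Real.log ((R : ℝ) + 1) *
        ((Nat.totient q : ℝ) / q) = 2 * N / Real.log ((R : ℝ) + 1) := by
      have : Real.log ((R : ℝ) + 1) ≠ 0 := by
        have : 0 < Real.log ((R : ℝ) + 1) := by linarith
        exact this.ne'
      field_simp
    rw [e1]
    calc 2 * N / Real.log ((R : ℝ) + 1) ≤ 2 * N / (Real.log Y / 16) := by gcongr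
      _ = 32 * (N / Real.log Y) := by ring
  calc (((range N).filter (fun i => ∀ p ∈ (Pz Y).filter (fun p => p ∣ α),
        ¬ p ∣ B + i)).card : ℝ) * ((Nat.totient q : ℝ) / q) ≤
        (2 * ((q : ℝ) / Nat.totient q) * N / Real.log ((R : ℝ) + 1) + (R : ℝ) ^ 4) *
          ((Nat.totient q : ℝ) / q) := by
        apply mul_le_mul_of_nonneg_right (h1.trans h2) hW0
    _ = 2 * ((q : ℝ) / Nat.totient q) * N / Real.log ((R : ℝ) + 1) *
          ((Nat.totient q : ℝ) / q) + (R : ℝ) ^ 4 * ((Nat.totient q : ℝ) / q) := by ring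
    _ ≤ 32 * (N / Real.log Y) + 4 * (N / Real.log Y) * 1 := by gcongr
    _ = _ := by ring

/-- windows of integers -/
theorem window_int (α Y n : ℕ) (b : ℤ) (hY : 2 ≤ Y) (hYn : Real.sqrt Y ≤ n) (hn : 2 ≤ n) :
    (((Icc (b - n) (b + n)).filter (fun a : ℤ => ∀ p ∈ (Pz Y).filter (fun p => p ∣ α),
      ¬ (p : ℤ) ∣ a)).card : ℝ) *
      ∏ p ∈ (Pz Y).filter (fun p => ¬ p ∣ α), (1 - 1 / (p : ℝ)) ≤ 108 * (n / Real.log Y) := by
  set T := (Pz Y).filter (fun p => p ∣ α) with hT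
  set P : ℕ := ∏ p ∈ T, p with hP
  have hTp : ∀ p ∈ T, p.Prime := fun p hp => (mem_Pz.1 (mem_filter.1 hp).1).1
  have hP1 : 1 ≤ P := Nat.succ_le_of_lt (prod_pos fun p hp => (hTp p hp).pos)
  have hP1' : (1 : ℤ) ≤ P := by exact_mod_cast hP1
  set B : ℕ := ((b - n) + P * |b - n|).toNat with hB
  have hB0 : 0 ≤ (b - n) + P * |b - n| := by
    have h1 := neg_abs_le (b - (n : ℤ))
    have h2 := abs_nonneg (b - (n : ℤ))
    nlinarith
  have hBc : (B : ℤ) = (b - n) + P * |b - n| := Int.toNat_of_nonneg hB0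
  have h1 : ((Icc (b - n) (b + n)).filter (fun a : ℤ => ∀ p ∈ T, ¬ (p : ℤ) ∣ a)).card ≤
      ((range (2 * n + 1)).filter (fun i => ∀ p ∈ T, ¬ p ∣ B + i)).card := by
    apply card_le_card_of_injOn (fun a => (a - (b - n)).toNat)
    · intro a ha
      rw [mem_coe, mem_filter, mem_Icc] at ha
      rw [mem_coe, mem_filter, mem_range]
      obtain ⟨⟨ha1, ha2⟩, ha3⟩ := ha
      refine ⟨?_, ?_⟩
      · show (a - (b - n)).toNat < 2 * n + 1
        omega
      · intro p hp hpd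
        apply ha3 p hp
        have e1 : ((p : ℕ) : ℤ) ∣ ((B + (a - (b - n)).toNat : ℕ) : ℤ) :=
          Int.natCast_dvd_natCast.2 hpd
        rw [Nat.cast_add, hBc, Int.toNat_of_nonneg (by linarith)] at e1
        have e2 : ((p : ℕ) : ℤ) ∣ (P : ℤ) * |b - n| := by
          apply Dvd.dvd.mul_right
          exact Int.natCast_dvd_natCast.2 (by rw [hP]; exact dvd_prod_of_mem _ hp)
        have e3 := dvd_sub e1 e2
        refine e3.trans (dvd_of_eq ?_)
        ring
    · intro a ha a' ha' h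
      rw [mem_coe, mem_filter, mem_Icc] at ha ha'
      have h' : (a - (b - n)).toNat = (a' - (b - n)).toNat := h
      omega
  have h2 := window_nat α Y (2 * n + 1) B hY (by push_cast; linarith) (by omega)
  rw [← hT] at h2
  have hW0 : 0 ≤ ∏ p ∈ (Pz Y).filter (fun p => ¬ p ∣ α), (1 - 1 / (p : ℝ)) :=
    prod_nonneg fun p hp => (one_sub_inv_pos (mem_Pz.1 (mem_filter.1 hp).1).1).le
  have hlogY : 0 < Real.log Y := Real.log_pos (by
    have : (2 : ℝ) ≤ Y := by exact_mod_cast hY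
    linarith)
  have hn2 : (2 : ℝ) ≤ n := by exact_mod_cast hn
  calc _ ≤ (((range (2 * n + 1)).filter (fun i => ∀ p ∈ T, ¬ p ∣ B + i)).card : ℝ) *
        ∏ p ∈ (Pz Y).filter (fun p => ¬ p ∣ α), (1 - 1 / (p : ℝ)) := by
        apply mul_le_mul_of_nonneg_right _ hW0
        exact_mod_cast h1
    _ ≤ 36 * (((2 * n + 1 : ℕ) : ℝ) / Real.log Y) := h2
    _ ≤ 36 * ((3 * n) / Real.log Y) := by
        push_cast
        gcongr
        linarith
    _ = _ := by ring

end Pool.Agent.Helper123.SM
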