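import Pool.Agent.Helper123.SM.Sieve

set_option autoImplicit false
set_option maxHeartbeats 4000000

/-! # Windows around arbitrary multiples and arbitrary linear forms at the scale
`log X log log X`, without loss from the prime factors of the multipliers -/

namespace Pool.Agent.Helper123.SM

open Finset Pool.Agent.H318R2.Cr Pool.Agent.H361R2.PA

open scoped Classical

theorem windowsS (D : ℕ) : ∃ c : ℝ, 0 < c ∧ ∃ X₀ : ℝ, ∀ X : ℝ, X₀ ≤ X →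
    ∀ (𝒜 : Finset ℕ) (K : ℕ → ℝ),
    (∀ α ∈ 𝒜, 1 ≤ α ∧ Real.log α ≤ (Real.log X) ^ (D + 1) ∧ Real.sqrt (Real.log X) ≤ K α) →
    ∀ 𝓛 : Finset (ℕ × ℤ),
    (∀ x ∈ 𝓛, 1 ≤ x.1 ∧ Real.log x.1 ≤ (Real.log X) ^ (D + 1) ∧
      |(x.2 : ℝ)| ≤ Real.exp ((Real.log X) ^ (D + 1))) →
    ∑ α ∈ 𝒜, K α + ∑ x ∈ 𝓛, (x.1 : ℝ) / (Nat.totient x.1 : ℝ) ≤
      c * (Real.log X * Real.log (Real.log X)) →
    ∀ z : ℤ, ∃ n : ℤ, (z : ℝ) + X / 4 < n ∧ (n : ℝ) ≤ z + X ∧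
      (∀ α ∈ 𝒜, ∀ j : ℤ, |(j : ℝ)| ≤ K α → ¬ Prime ((α : ℤ) * n + j)) ∧
      ∀ x ∈ 𝓛, ¬ Prime ((x.1 : ℤ) * n + x.2) := by
  obtain ⟨c₀, hc₀, X₁, hass⟩ := assembleS (D + 1)
  obtain ⟨c₁, c₂, hc₁, hc₁₂, hV⟩ := cz_bounds
  obtain ⟨C₁, hC₁, hwin⟩ := window_weight
  have hc₂ : 0 < c₂ := hc₁.trans_le hc₁₂
  set c' : ℝ := min (1 / 10) (c₀ / (4 * C₁ + 4 + 2 * c₂)) with hc'
  have hc'0 : 0 < c' := by positivity
  have hc'1 : c' ≤ 1 / 10 := min_le_left _ _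
  have hc'2 : c' ≤ c₀ / (4 * C₁ + 4 + 2 * c₂) := min_le_right _ _
  refine ⟨c', hc'0, max X₁ (Real.exp 10000), ?_⟩
  intro X hX 𝒜 K h𝒜 𝓛 h𝓛 hsum z
  have hX1 : X₁ ≤ X := (le_max_left _ _).trans hX
  have hX2 : Real.exp 10000 ≤ X := (le_max_right _ _).trans hX
  have hX0 : 0 < X := (Real.exp_pos _).trans_le hX2
  have hL : 10000 ≤ Real.log X := by
    rw [← Real.log_exp 10000]
    exact Real.log_le_log (Real.exp_pos _) hX2
  set L := Real.log X with hLdef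
  have hLL0 : 0 < Real.log L := Real.log_pos (by linarith)
  have hLL1 : Real.log L ≤ L := (Real.log_le_sub_one_of_pos (by linarith)).trans (by linarith)
  obtain ⟨hf2, hfl⟩ := log_floor_ge X hL
  rw [← hLdef] at hf2 hfl
  set Y : ℕ := ⌊L / 10⌋₊ with hY
  have hY2 : (2 : ℝ) ≤ Y := by exact_mod_cast hf2
  have hlogY : 0 < Real.log Y := Real.log_pos (by linarith)
  have hYle : (Y : ℝ) ≤ L / 10 := Nat.floor_le (by linarith)
  have hsq100 : 100 ≤ Real.sqrt L := by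
    rw [show (100 : ℝ) = Real.sqrt 10000 by
      rw [show (10000 : ℝ) = 100 ^ 2 by norm_num, Real.sqrt_sq (by norm_num)]]
    exact Real.sqrt_le_sqrt hL
  -- the lengths
  have hKα0 : ∀ α ∈ 𝒜, 0 ≤ K α := fun α hα => by linarith [(h𝒜 α hα).2.2]
  have hratio0 : 0 ≤ ∑ x ∈ 𝓛, (x.1 : ℝ) / (Nat.totient x.1 : ℝ) :=
    sum_nonneg fun x _ => by positivity
  have hKsum0 : 0 ≤ ∑ α ∈ 𝒜, K α := sum_nonneg hKα0
  have hL2 : c' * (L * Real.log L) ≤ L ^ 2 / 10 := by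
    have h0 : 0 ≤ L * Real.log L := by positivity
    calc c' * (L * Real.log L) ≤ 1 / 10 * (L * L) := by gcongr
      _ = L ^ 2 / 10 := by ring
  have hKle : ∀ α ∈ 𝒜, K α ≤ L ^ 2 / 10 := by
    intro α hα
    have h1 : K α ≤ ∑ α ∈ 𝒜, K α := single_le_sum hKα0 hα
    linarith
  have hLF : ∀ α ∈ 𝒜, ((⌊K α⌋₊ : ℕ) : ℝ) ≤ K α := fun α hα => Nat.floor_le (hKα0 α hα)
  have hnlow : ∀ α ∈ 𝒜, Real.sqrt Y ≤ (⌊K α⌋₊ : ℝ) ∧ 2 ≤ ⌊K α⌋₊ := by
    intro α hα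
    have h1 : K α < (⌊K α⌋₊ : ℝ) + 1 := Nat.lt_floor_add_one _
    have h2 := (h𝒜 α hα).2.2
    have h3 : Real.sqrt Y ≤ Real.sqrt L / 3 := by
      have e1 : Real.sqrt Y ≤ Real.sqrt (L / 9) := Real.sqrt_le_sqrt (by linarith)
      have e2 : Real.sqrt (L / 9) = Real.sqrt L / 3 := by
        rw [Real.sqrt_div (by linarith), show (9 : ℝ) = 3 ^ 2 by norm_num,
          Real.sqrt_sq (by norm_num)]
      linarith
    refine ⟨by linarith, ?_⟩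
    have h4 : (2 : ℝ) ≤ (⌊K α⌋₊ : ℝ) := by linarith
    exact_mod_cast h4
  set A : Finset (ℕ × ℤ) := 𝒜.biUnion (fun α =>
    (Icc (-((⌊K α⌋₊ : ℕ) : ℤ)) ((⌊K α⌋₊ : ℕ) : ℤ)).image (fun j => (α, j))) with hA
  have hmemA : ∀ x : ℕ × ℤ, x ∈ A ↔ x.1 ∈ 𝒜 ∧ -((⌊K x.1⌋₊ : ℕ) : ℤ) ≤ x.2 ∧
      x.2 ≤ ((⌊K x.1⌋₊ : ℕ) : ℤ) := by
    intro x
    rw [hA, mem_biUnion]
    constructor
    · rintro ⟨α, hα, hx⟩
      rw [mem_image] at hx
      obtain ⟨j, hj, rfl⟩ := hx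
      rw [mem_Icc] at hj
      exact ⟨hα, hj⟩
    · rintro ⟨h1, h2⟩
      exact ⟨x.1, h1, mem_image.2 ⟨x.2, mem_Icc.2 h2, rfl⟩⟩
  set J0 : ℕ → Finset ℤ := fun α =>
    (Icc (-((⌊K α⌋₊ : ℕ) : ℤ)) ((⌊K α⌋₊ : ℕ) : ℤ)).filter (fun a =>
      ∀ p ∈ (Pz Y).filter (fun p => p ∣ α), ¬ (p : ℤ) ∣ a) with hJ0
  set A0 : Finset (ℕ × ℤ) := 𝒜.biUnion (fun α => (J0 α).image (fun j => (α, j))) with hA0def
  have hJ0c : ∀ α ∈ 𝒜, ((J0 α).card : ℝ) *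
      ∏ p ∈ (Pz Y).filter (fun p => ¬ p ∣ α), (1 - 1 / (p : ℝ)) ≤
      (2 * C₁ + 2) * (K α / Real.log Y) := by
    intro α hα
    set R := RT ((Pz Y).filter (fun p => p ∣ α)) ⌊K α⌋₊ with hR
    have h1 : J0 α ⊆ ((R.image (fun m : ℕ => (m : ℤ))) ∪
        (R.image (fun m : ℕ => -(m : ℤ)))) ∪ {0} := by
      intro a ha
      rw [hJ0, mem_filter, mem_Icc] at ha
      obtain ⟨ha1, ha2⟩ := ha
      rw [mem_union, mem_union, mem_image, mem_image, mem_singleton]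
      by_cases h0 : a = 0
      · right; exact h0
      · left
        have hN : a.natAbs ∈ R := by
          rw [hR]
          unfold RT
          rw [mem_filter, mem_Icc]
          exact ⟨⟨by omega, by omega⟩, fun p hp hpa => ha2 p hp (Int.natCast_dvd.2 hpa)⟩
        rcases le_total 0 a with h | h
        · left; exact ⟨a.natAbs, hN, by omega⟩
        · right; exact ⟨a.natAbs, hN, by omega⟩
    have h2 : (J0 α).card ≤ (R.card + R.card) + 1 := by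
      refine (card_le_card h1).trans ((card_union_le _ _).trans ?_)
      have e1 := card_union_le (R.image (fun m : ℕ => (m : ℤ)))
        (R.image (fun m : ℕ => -(m : ℤ)))
      have e2 : (R.image (fun m : ℕ => (m : ℤ))).card ≤ R.card := card_image_le
      have e3 : (R.image (fun m : ℕ => -(m : ℤ))).card ≤ R.card := card_image_le
      rw [card_singleton]
      omega
    have h3 : ((J0 α).card : ℝ) ≤ ((R.card : ℝ) + (R.card : ℝ)) + 1 := by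
      exact_mod_cast h2
    set W := ∏ p ∈ (Pz Y).filter (fun p => ¬ p ∣ α), (1 - 1 / (p : ℝ)) with hW
    have hW0 : 0 ≤ W := prod_nonneg fun p hp =>
      (one_sub_inv_pos (mem_Pz.1 (mem_filter.1 hp).1).1).le
    have hW1 : W ≤ 1 := prodM_one α Y
    have h4 := hwin α Y ⌊K α⌋₊ hf2 (hnlow α hα).1 (hnlow α hα).2
    rw [← hR, ← hW] at h4
    have h5 : ((⌊K α⌋₊ : ℕ) : ℝ) / Real.log Y ≤ K α / Real.log Y := by
      have := hLF α hα
      gcongr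
    have h6 : 1 ≤ 2 * (K α / Real.log Y) := by
      have e1 : Real.log Y ≤ 2 * Real.sqrt Y := by
        have e2 : Real.log Y = 2 * Real.log (Real.sqrt Y) := by
          rw [Real.log_sqrt (by linarith)]
          ring
        have e3 : Real.log (Real.sqrt Y) ≤ Real.sqrt Y :=
          (Real.log_le_sub_one_of_pos (Real.sqrt_pos.2 (by linarith))).trans (by linarith)
        linarith
      have e4 := (hnlow α hα).1
      have e5 := hLF α hα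
      rw [← mul_div_assoc, le_div_iff₀ hlogY]
      linarith
    have h7 : C₁ * (((⌊K α⌋₊ : ℕ) : ℝ) / Real.log Y) ≤ C₁ * (K α / Real.log Y) := by gcongr
    calc ((J0 α).card : ℝ) * W ≤ (((R.card : ℝ) + (R.card : ℝ)) + 1) * W := by gcongr
      _ = 2 * ((R.card : ℝ) * W) + W := by ring
      _ ≤ 2 * (C₁ * (K α / Real.log Y)) + 2 * (K α / Real.log Y) := by linarith
      _ = _ := by ring
  obtain ⟨b, hb⟩ := presieveW (Pz Y) (fun p hp => (mem_Pz.1 hp).1) (A0 ∪ 𝓛)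
  have hpair : ∀ (α : ℕ), Function.Injective (fun j : ℤ => (α, j)) := by
    intro α a b h
    exact (Prod.mk.inj h).2
  have hYiff : ∀ p : ℕ, p.Prime → ((p : ℝ) ≤ L / 10 ↔ p ∈ Pz Y) := by
    intro p hp
    rw [mem_Pz, hY, Nat.le_floor_iff (by linarith)]
    exact ⟨fun h => ⟨hp, h⟩, fun h => h.2⟩
  have hS : ((((A ∪ 𝓛).filter (fun x => ∀ p : ℕ, p.Prime → (p : ℝ) ≤ L / 10 →
      ¬ (p : ℤ) ∣ (x.1 : ℤ) * (b p : ℤ) + x.2)).card : ℕ) : ℝ) ≤ c₀ * L := by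
    have h1 : ((A ∪ 𝓛).filter (fun x => ∀ p : ℕ, p.Prime → (p : ℝ) ≤ L / 10 →
        ¬ (p : ℤ) ∣ (x.1 : ℤ) * (b p : ℤ) + x.2)) ⊆
        (A0 ∪ 𝓛).filter (fun x => ∀ p ∈ Pz Y, ¬ (p : ℤ) ∣ (x.1 : ℤ) * (b p : ℤ) + x.2) := by
      intro x hx
      rw [mem_filter] at hx
      obtain ⟨hxA, hsur⟩ := hx
      rw [mem_filter]
      refine ⟨?_, fun p hp => hsur p (mem_Pz.1 hp).1 ((hYiff p (mem_Pz.1 hp).1).2 hp)⟩
      rw [mem_union] at hxA ⊢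
      rcases hxA with hxA | hxA
      · left
        rw [hmemA] at hxA
        rw [hA0def, mem_biUnion]
        refine ⟨x.1, hxA.1, mem_image.2 ⟨x.2, ?_, rfl⟩⟩
        rw [hJ0, mem_filter, mem_Icc]
        refine ⟨hxA.2, ?_⟩
        intro p hp hpa
        rw [mem_filter] at hp
        apply hsur p (mem_Pz.1 hp.1).1 ((hYiff p (mem_Pz.1 hp.1).1).2 hp.1)
        have e1 : (p : ℤ) ∣ (x.1 : ℤ) := Int.natCast_dvd_natCast.2 hp.2
        exact dvd_add (e1.mul_right _) hpa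
      · right; exact hxA
    have h2 : ((((A ∪ 𝓛).filter (fun x => ∀ p : ℕ, p.Prime → (p : ℝ) ≤ L / 10 →
        ¬ (p : ℤ) ∣ (x.1 : ℤ) * (b p : ℤ) + x.2)).card : ℕ) : ℝ) ≤
        (((A0 ∪ 𝓛).filter (fun x => ∀ p ∈ Pz Y,
          ¬ (p : ℤ) ∣ (x.1 : ℤ) * (b p : ℤ) + x.2)).card : ℝ) := by
      exact_mod_cast card_le_card h1
    refine h2.trans (hb.trans ?_)
    have hw0 : ∀ x : ℕ × ℤ, 0 ≤ ∏ p ∈ (Pz Y).filter (fun p => ¬ p ∣ x.1), (1 - 1 / (p : ℝ)) :=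
      fun x => prod_nonneg fun p hp => (one_sub_inv_pos (mem_Pz.1 (mem_filter.1 hp).1).1).le
    have hun : ∑ x ∈ A0 ∪ 𝓛, ∏ p ∈ (Pz Y).filter (fun p => ¬ p ∣ x.1), (1 - 1 / (p : ℝ)) ≤
        ∑ x ∈ A0, ∏ p ∈ (Pz Y).filter (fun p => ¬ p ∣ x.1), (1 - 1 / (p : ℝ)) +
        ∑ x ∈ 𝓛, ∏ p ∈ (Pz Y).filter (fun p => ¬ p ∣ x.1), (1 - 1 / (p : ℝ)) := by
      rw [← sum_union_inter (s₁ := A0) (s₂ := 𝓛)]
      have := sum_nonneg (s := A0 ∩ 𝓛)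
        (f := fun x => ∏ p ∈ (Pz Y).filter (fun p => ¬ p ∣ x.1), (1 - 1 / (p : ℝ)))
        (fun x _ => hw0 x)
      linarith
    have hVY : V Y ≤ c₂ * (1 / Real.log Y) := by
      rw [mul_one_div, le_div_iff₀ hlogY]
      exact (hV Y hf2).2
    have hV0 : 0 ≤ V Y := (V_pos Y).le
    have hL𝓛 : ∑ x ∈ 𝓛, ∏ p ∈ (Pz Y).filter (fun p => ¬ p ∣ x.1), (1 - 1 / (p : ℝ)) ≤
        c₂ * (1 / Real.log Y) * ∑ x ∈ 𝓛, (x.1 : ℝ) / (Nat.totient x.1 : ℝ) := by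
      calc ∑ x ∈ 𝓛, ∏ p ∈ (Pz Y).filter (fun p => ¬ p ∣ x.1), (1 - 1 / (p : ℝ)) ≤
            ∑ x ∈ 𝓛, V Y * ((x.1 : ℝ) / (Nat.totient x.1 : ℝ)) := by
            apply sum_le_sum
            intro x hx
            exact prodM x.1 Y (by have := (h𝓛 x hx).1; omega)
        _ = V Y * ∑ x ∈ 𝓛, (x.1 : ℝ) / (Nat.totient x.1 : ℝ) := by rw [mul_sum]
        _ ≤ _ := by gcongr
    have hdisj : (𝒜 : Set ℕ).PairwiseDisjoint (fun α => (J0 α).image (fun j => (α, j))) := by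
      intro α _ β _ hαβ
      rw [Function.onFun, disjoint_left]
      intro x hx hx'
      rw [mem_image] at hx hx'
      obtain ⟨_, _, rfl⟩ := hx
      obtain ⟨_, _, h⟩ := hx'
      exact hαβ (Prod.mk.inj h).1.symm
    have hA0s : ∑ x ∈ A0, ∏ p ∈ (Pz Y).filter (fun p => ¬ p ∣ x.1), (1 - 1 / (p : ℝ)) ≤
        (2 * C₁ + 2) * (1 / Real.log Y) * ∑ α ∈ 𝒜, K α := by
      rw [hA0def, sum_biUnion hdisj, mul_sum]
      apply sum_le_sum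
      intro α hα
      rw [sum_image (fun a _ b _ h => hpair α h)]
      show ∑ _j ∈ J0 α, ∏ p ∈ (Pz Y).filter (fun p => ¬ p ∣ α), (1 - 1 / (p : ℝ)) ≤ _
      rw [sum_const, nsmul_eq_mul]
      refine (hJ0c α hα).trans (le_of_eq ?_)
      ring
    have hYL : 1 / Real.log Y ≤ 2 * (1 / Real.log L) := by
      have e1 : 2 * (1 / Real.log L) = 1 / (Real.log L / 2) := by field_simp
      rw [e1]
      exact one_div_le_one_div_of_le (by linarith) hfl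
    set S₁ := ∑ α ∈ 𝒜, K α with hS₁
    set S₂ := ∑ x ∈ 𝓛, (x.1 : ℝ) / (Nat.totient x.1 : ℝ) with hS₂
    calc ∑ x ∈ A0 ∪ 𝓛, ∏ p ∈ (Pz Y).filter (fun p => ¬ p ∣ x.1), (1 - 1 / (p : ℝ)) ≤
          (2 * C₁ + 2) * (1 / Real.log Y) * S₁ + c₂ * (1 / Real.log Y) * S₂ := by linarith
      _ ≤ (2 * C₁ + 2) * (2 * (1 / Real.log L)) * S₁ + c₂ * (2 * (1 / Real.log L)) * S₂ := by
          gcongr
      _ = (1 / Real.log L) * ((4 * C₁ + 4) * S₁ + 2 * c₂ * S₂) := by ring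
      _ ≤ (1 / Real.log L) * ((4 * C₁ + 4 + 2 * c₂) * (S₁ + S₂)) := by
          apply mul_le_mul_of_nonneg_left _ (by positivity)
          have e1 : 0 ≤ 2 * c₂ * S₁ := by positivity
          have e2 : 0 ≤ (4 * C₁ + 4) * S₂ := by positivity
          linarith
      _ ≤ (1 / Real.log L) * ((4 * C₁ + 4 + 2 * c₂) * (c' * (L * Real.log L))) := by gcongr
      _ = (4 * C₁ + 4 + 2 * c₂) * c' * L := by field_simp
      _ ≤ (4 * C₁ + 4 + 2 * c₂) * (c₀ / (4 * C₁ + 4 + 2 * c₂)) * L := by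
          have : 0 ≤ L := by linarith
          gcongr
      _ = c₀ * L := by field_simp
  have hAcard : (((A ∪ 𝓛).card : ℕ) : ℝ) ≤ L ^ 2 := by
    have hcu : (((A ∪ 𝓛).card : ℕ) : ℝ) ≤ A.card + 𝓛.card := by
      exact_mod_cast card_union_le _ _
    refine hcu.trans ?_
    have h0 : (𝓛.card : ℝ) ≤ ∑ x ∈ 𝓛, (x.1 : ℝ) / (Nat.totient x.1 : ℝ) := by
      calc (𝓛.card : ℝ) = ∑ _x ∈ 𝓛, (1 : ℝ) := by rw [sum_const, nsmul_eq_mul, mul_one]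
        _ ≤ _ := sum_le_sum fun x hx => one_le_ratio x.1 (h𝓛 x hx).1
    have h1 : (A.card : ℝ) ≤ ∑ α ∈ 𝒜, 3 * K α := by
      calc (A.card : ℝ) ≤ ((∑ α ∈ 𝒜, ((Icc (-((⌊K α⌋₊ : ℕ) : ℤ)) ((⌊K α⌋₊ : ℕ) : ℤ)).image
            (fun j => (α, j))).card : ℕ) : ℝ) := by
            exact_mod_cast card_biUnion_le
        _ = ∑ α ∈ 𝒜, (((Icc (-((⌊K α⌋₊ : ℕ) : ℤ)) ((⌊K α⌋₊ : ℕ) : ℤ)).image
            (fun j => (α, j))).card : ℝ) := by push_cast; rfl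
        _ ≤ _ := by
          apply sum_le_sum
          intro α hα
          rw [card_image_of_injective _ (hpair α), Int.card_Icc]
          have e0 : (((⌊K α⌋₊ : ℕ) : ℤ) + 1 - -((⌊K α⌋₊ : ℕ) : ℤ)).toNat = 2 * ⌊K α⌋₊ + 1 := by
            omega
          rw [e0]
          push_cast
          have e1 := hLF α hα
          have e2 := (h𝒜 α hα).2.2
          linarith
    rw [← mul_sum] at h1
    have h3 : 0 ≤ L ^ 2 := by positivity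
    linarith
  have hAb : ∀ x ∈ A ∪ 𝓛, 1 ≤ x.1 ∧ Real.log x.1 ≤ L ^ (D + 1) ∧
      |(x.2 : ℝ)| ≤ Real.exp (L ^ (D + 1)) := by
    intro x hx
    rw [mem_union] at hx
    rcases hx with hx | hx
    swap
    · exact h𝓛 x hx
    rw [hmemA] at hx
    obtain ⟨hx1, hx2, hx3⟩ := hx
    refine ⟨(h𝒜 _ hx1).1, (h𝒜 _ hx1).2.1, ?_⟩
    have h1 : |(x.2 : ℝ)| ≤ ((⌊K x.1⌋₊ : ℕ) : ℝ) := by
      rw [abs_le]
      constructor
      · have : ((-((⌊K x.1⌋₊ : ℕ) : ℤ) : ℤ) : ℝ) ≤ x.2 := by exact_mod_cast hx2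
        push_cast at this
        exact this
      · exact_mod_cast hx3
    have h2 : ((⌊K x.1⌋₊ : ℕ) : ℝ) ≤ L ^ 2 := by
      have e1 := hLF x.1 hx1
      have e2 := hKle x.1 hx1
      have e3 : 0 ≤ L ^ 2 := by positivity
      linarith
    have h3 : L ^ 2 ≤ Real.exp L := by
      have h4 := Real.pow_div_factorial_le_exp L (by linarith) 3
      have h5 : (Nat.factorial 3 : ℝ) = 6 := by norm_num [Nat.factorial]
      rw [h5] at h4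
      refine le_trans ?_ h4
      rw [le_div_iff₀ (by norm_num)]
      have : 0 ≤ L ^ 2 := by positivity
      nlinarith
    have h4 : Real.exp L ≤ Real.exp (L ^ (D + 1)) := by
      apply Real.exp_le_exp.2
      calc L = L ^ 1 := (pow_one _).symm
        _ ≤ L ^ (D + 1) := pow_le_pow_right₀ (by linarith) (by omega)
    linarith
  obtain ⟨n, hn1, hn2, _, hn4⟩ := hass X hX1 (A ∪ 𝓛) hAcard hAb b hS z
  refine ⟨n, hn1, hn2, ?_, fun x hx => hn4 x (mem_union_right _ hx)⟩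
  intro α hα j hj
  have hjA : (α, j) ∈ A := by
    rw [hmemA]
    refine ⟨hα, ?_⟩
    rw [abs_le] at hj
    have e2 : -j ≤ ⌊K α⌋ := Int.le_floor.2 (by rw [Int.cast_neg]; linarith [hj.1])
    have e4 : j ≤ ⌊K α⌋ := Int.le_floor.2 hj.2
    have e3 : ((⌊K α⌋₊ : ℕ) : ℤ) = ⌊K α⌋ := Int.natCast_floor_eq_floor (hKα0 α hα)
    constructor
    · show -((⌊K α⌋₊ : ℕ) : ℤ) ≤ j
      linarith
    · show j ≤ ((⌊K α⌋₊ : ℕ) : ℤ)
      linarith
  exact hn4 (α, j) (mem_union_left _ hjA)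

end Pool.Agent.Helper123.SM
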